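import Pool.Agent.PDF.PDDefs
import Pool.Agent.HFT.Ult
import Pool.Agent.HFT.OVDefs
import Pool.Agent.HFT.Basic

/-!
# Blueprint PDG: definitions (helper41)

`Ser N`: the normal subgroups `N n` of `S` descend from `S`, with torsion free abelian factors and trivial
intersection.  `EqM M`: congruence in `ℤ[S]` modulo a normal subgroup `M`.  `H2Zero S`: the second
cohomology of `S` with coefficients `ℤ[S]` vanishes.  `KB B`: the elements of `ℚ[Γ]` with support in the
subgroup `B`.  `OreEmb θ`: `θ` embeds `ℚ[Γ]` in a division ring such that for every subgroup `B` the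
division subring generated by the image of `ℚ[B]` consists of right fractions.
-/

set_option autoImplicit false

namespace Pool.Agent.PDG

open Pool.Agent.PDF Pool.Agent.HFT

/-- congruence of elements of the integral group ring modulo a normal subgroup -/
def EqM {S : Type} [Group S] (M : Subgroup S) [M.Normal] (x y : MonoidAlgebra ℤ S) : Prop :=
  mp (QuotientGroup.mk' M) x = mp (QuotientGroup.mk' M) y

/-- a descending series, starting at the whole group, with torsion free abelian factors and trivial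
intersection -/
structure Ser {S : Type} [Group S] (N : ℕ → Subgroup S) : Prop where
  top : N 0 = ⊤
  anti : ∀ n, N (n + 1) ≤ N n
  comm : ∀ n, ⁅N n, N n⁆ ≤ N (n + 1)
  tf : ∀ (n : ℕ) (g : S) (k : ℕ), k ≠ 0 → g ∈ N n → g ^ k ∈ N (n + 1) → g ∈ N (n + 1)
  inf : ∀ g : S, (∀ n, g ∈ N n) → g = 1

/-- `H^2(S; ℤ[S]) = 0`: every 2-cocycle of `S` with values in `ℤ[S]` is a coboundary -/
def H2Zero (S : Type) [Group S] : Prop :=
  ∀ f : S → S → MonoidAlgebra ℤ S,
    (∀ g h j : S, MonoidAlgebra.single g 1 * f h j + f g (h * j) = f (g * h) j + f g h) →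
    ∃ c : S → MonoidAlgebra ℤ S, ∀ g h : S,
      f g h = MonoidAlgebra.single g 1 * c h - c (g * h) + c g

/-- the inclusion of the integral in the rational group ring -/
noncomputable def zq {Γ : Type} [Group Γ] : MonoidAlgebra ℤ Γ →+* MonoidAlgebra ℚ Γ :=
  MonoidAlgebra.mapRingHom Γ (Int.castRingHom ℚ)

/-- elements of the rational group ring supported in a subgroup -/
noncomputable def KB {Γ : Type} [Group Γ] (B : Subgroup Γ) : Subring (MonoidAlgebra ℚ Γ) :=
  (MonoidAlgebra.mapDomainRingHom ℚ B.subtype).range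

/-- the division subring generated by the image of the group ring of a subgroup -/
def DB {Γ : Type} [Group Γ] {D : Type} [DivisionRing D] (θ : MonoidAlgebra ℚ Γ →+* D)
    (B : Subgroup Γ) : Subfield D :=
  Subfield.closure (θ '' (KB B : Set (MonoidAlgebra ℚ Γ)))

/-- `θ` is an embedding in a division ring whose division subrings `DB θ B` consist of right fractions -/
structure OreEmb {Γ : Type} [Group Γ] {D : Type} [DivisionRing D] (θ : MonoidAlgebra ℚ Γ →+* D) :
    Prop where
  inj : Function.Injective θ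
  fr : ∀ (B : Subgroup Γ) (x : D), x ∈ DB θ B →
    ∃ a ∈ KB B, ∃ s ∈ KB B, θ s ≠ 0 ∧ x * θ s = θ a

/-- more unknowns than equations: nontrivial solutions over the group ring of `B` -/
def SolvB {Γ : Type} [Group Γ] (B : Subgroup Γ) : Prop :=
  ∀ (m n : ℕ), m < n → ∀ A : Matrix (Fin m) (Fin n) (MonoidAlgebra ℚ Γ), (∀ i j, A i j ∈ KB B) →
    ∃ v : Fin n → MonoidAlgebra ℚ Γ, v ≠ 0 ∧ (∀ j, v j ∈ KB B) ∧ A.mulVec v = 0

/-- the map `N → Γ → D` -/
noncomputable def al {Γ : Type} [Group Γ] {D : Type} [DivisionRing D]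
    (θ : MonoidAlgebra ℚ Γ →+* D) {N : Type} [Group N] (π : N →* Γ) : N →* D :=
  (θ : MonoidAlgebra ℚ Γ →* D).comp ((MonoidAlgebra.of ℚ Γ).comp π)

theorem al_apply {Γ : Type} [Group Γ] {D : Type} [DivisionRing D]
    (θ : MonoidAlgebra ℚ Γ →+* D) {N : Type} [Group N] (π : N →* Γ) (a : N) :
    al θ π a = θ (MonoidAlgebra.single (π a) 1) := rfl

/-- a homomorphism to a group with a real character on `N` whose kernel is the preimage of `L0` -/
structure Dat {Γ N : Type} [Group Γ] [Group N] (π : N →* Γ) (τ : N → ℝ) (L0 : Subgroup Γ) :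
    Prop where
  add : ∀ a b, τ (a * b) = τ a + τ b
  le : L0 ≤ π.range
  ker : ∀ a, τ a = 0 ↔ π a ∈ L0

/-- the nonprincipal ultrafilter -/
noncomputable def uf : Ultrafilter ℕ := Filter.hyperfilter ℕ

/-- division rings for all the quotients `S / N n` -/
structure Sys {S : Type} [Group S] (N : ℕ → Subgroup S) [∀ n, (N n).Normal] where
  D : ℕ → Type
  [dr : ∀ n, DivisionRing (D n)]
  θ : ∀ n, MonoidAlgebra ℚ (S ⧸ N n) →+* D n
  ore : ∀ n, OreEmb (θ n)

attribute [instance] Sys.dr

namespace Sys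

variable {S : Type} [Group S] {N : ℕ → Subgroup S} [∀ n, (N n).Normal] (Y : Sys N)

/-- the ultraproduct -/
abbrev U : Type := UProd uf Y.D

/-- the map of `S` in the `n`-th division ring -/
noncomputable def a (n : ℕ) : S →* Y.D n := al (Y.θ n) (QuotientGroup.mk' (N n))

/-- the map of `ℚ` in the `n`-th division ring -/
noncomputable def r (n : ℕ) : ℚ →+* Y.D n :=
  (Y.θ n).comp (MonoidAlgebra.singleOneRingHom (R := ℚ) (M := S ⧸ N n))

/-- the map of `ℤ[S / N n]` in the `n`-th division ring -/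
noncomputable def z (n : ℕ) : MonoidAlgebra ℤ (S ⧸ N n) →+* Y.D n := (Y.θ n).comp zq

/-- the map of `S` in the ultraproduct -/
noncomputable def A : S →* Y.U :=
  ((mkU uf Y.D : (∀ n, Y.D n) →+* Y.U) : (∀ n, Y.D n) →* Y.U).comp (MonoidHom.pi Y.a)

/-- the map of `ℚ` in the ultraproduct -/
noncomputable def R : ℚ →+* Y.U := (mkU uf Y.D).comp (RingHom.pi Y.r)

/-- the map of `ℤ[S]` in the ultraproduct -/
noncomputable def Z : MonoidAlgebra ℤ S →+* Y.U :=
  (mkU uf Y.D).comp (RingHom.pi fun n => (Y.z n).comp (mp (QuotientGroup.mk' (N n))))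

/-- internal elements of the integral group ring -/
def Int (x : Y.U) : Prop :=
  ∃ y : ∀ n, MonoidAlgebra ℤ (S ⧸ N n), x = mkU uf Y.D fun n => Y.z n (y n)

theorem A_apply (g : S) : Y.A g = mkU uf Y.D fun n => Y.a n g := rfl

theorem R_apply (c : ℚ) : Y.R c = mkU uf Y.D fun n => Y.r n c := rfl

theorem Z_apply (x : MonoidAlgebra ℤ S) :
    Y.Z x = mkU uf Y.D fun n => Y.z n (mp (QuotientGroup.mk' (N n)) x) := rfl

end Sys

end Pool.Agent.PDG
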