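import Pool.Agent.PDF.Alpha
import Pool.Agent.PDG.Defs

/-!
# Blueprint PDG, module Alpha2 (helper41)

Cycles of the quotient complex are boundaries modulo a normal subgroup `M` of `S`, provided the kernel of
`π : G → S` is contained in the commutator subgroup of the preimage of `M`.  Same proof as `PDF.alpha`, but
the elements `κ` now run through the preimage `GM` of `M`: `κ ↦ z(κ)` is additive on `GM` modulo boundaries and
modulo `M`, so it kills `⁅GM, GM⁆`.
-/

set_option autoImplicit false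
set_option linter.unusedSectionVars false

namespace Pool.Agent.PDG

open Matrix Pool.Agent.PDF

theorem alpha2 {G S : Type} [Group G] [Group S] (π : G →* S) (hπ : Function.Surjective π)
    (M : Subgroup S) [M.Normal] (hK : π.ker ≤ ⁅M.comap π, M.comap π⁆)
    {n0 n1 n2 : Type*} [Fintype n0] [Fintype n1] [Fintype n2]
    (e0 : Matrix n0 n0 (MonoidAlgebra ℤ G)) (e1 : Matrix n1 n1 (MonoidAlgebra ℤ G))
    (d1 : Matrix n1 n0 (MonoidAlgebra ℤ G)) (d2 : Matrix n2 n1 (MonoidAlgebra ℤ G))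
    (m : n0 → ℤ) (h : Half e0 e1 d1 d2 m) (z : n1 → MonoidAlgebra ℤ S)
    (hz1 : Matrix.vecMul z (e1.map (mp π)) = z) (hz2 : Matrix.vecMul z (d1.map (mp π)) = 0) :
    ∃ y : n2 → MonoidAlgebra ℤ S,
      ∀ i, EqM M (z i) (Matrix.vecMul y (d2.map (mp π)) i) := by
  classical
  unfold EqM
  set q : MonoidAlgebra ℤ S →+* MonoidAlgebra ℤ (S ⧸ M) := mp (QuotientGroup.mk' M) with hq
  -- the subgroup of good rows
  let Sg : AddSubgroup (n1 → MonoidAlgebra ℤ G) :=
    { carrier := {c | ∃ y : n2 → MonoidAlgebra ℤ S,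
        ∀ i, q (mp π (c i)) = q (Matrix.vecMul y (d2.map (mp π)) i)}
      add_mem' := by
        rintro a b ⟨y, hy⟩ ⟨y', hy'⟩
        refine ⟨y + y', fun i => ?_⟩
        rw [Matrix.add_vecMul, Pi.add_apply, Pi.add_apply, map_add, map_add, map_add, hy, hy']
      zero_mem' := ⟨0, fun i => by rw [Matrix.zero_vecMul]; simp⟩
      neg_mem' := by
        rintro a ⟨y, hy⟩
        refine ⟨-y, fun i => ?_⟩
        rw [Matrix.neg_vecMul, Pi.neg_apply, Pi.neg_apply, map_neg, map_neg, map_neg, hy] }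
  have hSa : ∀ y : n2 → MonoidAlgebra ℤ G, y ᵥ* d2 ∈ Sg := by
    intro y
    refine ⟨fun j => mp π (y j), fun i => ?_⟩
    rw [mp_vecMul]
  have hSE : ∀ c : n1 → MonoidAlgebra ℤ G, c ᵥ* e1 = c → c ᵥ* d1 = 0 → c ∈ Sg := by
    intro c h1 h2
    obtain ⟨y, hy⟩ := h.ex1 c h1 h2
    rw [← hy]; exact hSa y
  have hSb : ∀ κ ∈ M.comap π, ∀ c : n1 → MonoidAlgebra ℤ G,
      (MonoidAlgebra.single κ (1 : ℤ) - 1) • c ∈ Sg := by
    intro κ hκ c
    refine ⟨0, fun i => ?_⟩
    have h2 : q (MonoidAlgebra.single (π κ) (1 : ℤ)) = 1 := by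
      rw [hq, mp_single, MonoidAlgebra.one_def]
      congr 1
      exact (QuotientGroup.eq_one_iff _).2 hκ
    rw [Matrix.zero_vecMul, Pi.smul_apply, smul_eq_mul, map_mul, map_sub, mp_single,
      map_one, map_mul, map_sub, h2, map_one, sub_self, zero_mul]
    simp
  have hker : π.ker ≤ M.comap π := by
    intro κ hκ
    rw [Subgroup.mem_comap, (MonoidHom.mem_ker).1 hκ]
    exact one_mem _
  obtain ⟨cs, hcs1, hcs2⟩ := h.one
  -- the elements x κ
  have hx : ∀ g : G, ∃ x : n1 → MonoidAlgebra ℤ G, x ᵥ* e1 = x ∧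
      x ᵥ* d1 = (MonoidAlgebra.single g (1 : ℤ) - 1) • cs := by
    intro g
    apply h.toBase.lift
    · rw [Matrix.smul_vecMul, hcs1]
    · rw [eps_smul]; simp
  choose x hx1 hx2 using hx
  have hmul : ∀ κ ∈ M.comap π, ∀ κ' ∈ M.comap π, x (κ * κ') - x κ - x κ' ∈ Sg := by
    intro κ hκ κ' hκ'
    have h1 : x (κ * κ') - (MonoidAlgebra.single κ (1 : ℤ)) • x κ' - x κ ∈ Sg := by
      apply hSE
      · rw [Matrix.sub_vecMul, Matrix.sub_vecMul, Matrix.smul_vecMul, hx1, hx1, hx1]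
      · rw [Matrix.sub_vecMul, Matrix.sub_vecMul, Matrix.smul_vecMul, hx2, hx2, hx2, smul_smul,
          ← sub_smul, ← sub_smul, mul_sub, MonoidAlgebra.single_mul_single]
        simp
    have h2 : x (κ * κ') - x κ - x κ' = (x (κ * κ') -
        (MonoidAlgebra.single κ (1 : ℤ)) • x κ' - x κ) +
        (MonoidAlgebra.single κ (1 : ℤ) - 1) • x κ' := by
      rw [sub_smul, one_smul]; abel
    rw [h2]
    exact add_mem h1 (hSb κ hκ _)
  have hone : x 1 ∈ Sg := by
    apply hSE _ (hx1 1)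
    rw [hx2, ← MonoidAlgebra.one_def, sub_self, zero_smul]
  have hinv : ∀ κ ∈ M.comap π, x κ + x κ⁻¹ ∈ Sg := by
    intro κ hκ
    have h1 := hmul κ hκ κ⁻¹ (inv_mem hκ)
    rw [mul_inv_cancel] at h1
    have h2 : x κ + x κ⁻¹ = x 1 - (x 1 - x κ - x κ⁻¹) := by abel
    rw [h2]
    exact sub_mem hone h1
  -- all kernel elements are good
  let Kg : Subgroup G :=
    { carrier := {κ | κ ∈ M.comap π ∧ x κ ∈ Sg}
      mul_mem' := by
        rintro a b ⟨ha, ha'⟩ ⟨hb, hb'⟩
        refine ⟨mul_mem ha hb, ?_⟩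
        have h1 := hmul a ha b hb
        have h2 : x (a * b) = (x (a * b) - x a - x b) + x a + x b := by abel
        rw [h2]
        exact add_mem (add_mem h1 ha') hb'
      one_mem' := ⟨one_mem _, hone⟩
      inv_mem' := by
        rintro a ⟨ha, ha'⟩
        refine ⟨inv_mem ha, ?_⟩
        have h1 := sub_mem (hinv a ha) ha'
        simpa using h1 }
  have hall : ∀ κ ∈ π.ker, x κ ∈ Sg := by
    intro κ hκ
    have h1 : ⁅M.comap π, M.comap π⁆ ≤ Kg := by
      rw [Subgroup.commutator_le]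
      intro a ha b hb
      have ha' := inv_mem ha
      have hb' := inv_mem hb
      rw [commutatorElement_def]
      refine ⟨mul_mem (mul_mem (mul_mem ha hb) ha') hb', ?_⟩
      have h2 := hmul a ha b hb
      have h3 := hmul (a * b) (mul_mem ha hb) a⁻¹ ha'
      have h4 := hmul (a * b * a⁻¹) (mul_mem (mul_mem ha hb) ha') b⁻¹ hb'
      have h5 := hinv a ha
      have h6 := hinv b hb
      have h7 := add_mem (add_mem (add_mem (add_mem h2 h3) h4) h5) h6
      have h8 : x (a * b) - x a - x b + (x (a * b * a⁻¹) - x (a * b) - x a⁻¹) +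
          (x (a * b * a⁻¹ * b⁻¹) - x (a * b * a⁻¹) - x b⁻¹) + (x a + x a⁻¹) + (x b + x b⁻¹) =
          x (a * b * a⁻¹ * b⁻¹) := by abel
      rw [h8] at h7
      exact h7
    exact (h1 (hK hκ)).2
  -- lift z
  have hlift : ∀ b : MonoidAlgebra ℤ S, ∃ a : MonoidAlgebra ℤ G, mp π a = b := by
    intro b
    induction b using MonoidAlgebra.induction_linear with
    | zero => exact ⟨0, map_zero _⟩
    | add y z hy hz =>
      obtain ⟨a, ha⟩ := hy
      obtain ⟨b, hb⟩ := hz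
      exact ⟨a + b, by rw [map_add, ha, hb]⟩
    | single g c =>
      obtain ⟨g', rfl⟩ := hπ g
      exact ⟨MonoidAlgebra.single g' c, mp_single _ _ _⟩
  choose c0 hc0 using fun i => hlift (z i)
  obtain ⟨c, hc1, hc2⟩ : ∃ c : n1 → MonoidAlgebra ℤ G, c ᵥ* e1 = c ∧ ∀ i, mp π (c i) = z i := by
    refine ⟨c0 ᵥ* e1, ?_, fun i => ?_⟩
    · rw [Matrix.vecMul_vecMul, h.e1e1]
    · rw [mp_vecMul]
      have : (fun j => mp π (c0 j)) = z := funext hc0
      rw [this, hz1]
  have hcd : c ᵥ* d1 ∈ Kr π n0 := by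
    apply mem_Kr π hπ
    intro i
    rw [mp_vecMul]
    have : (fun j => mp π (c j)) = z := funext hc2
    rw [this, hz2]; rfl
  have hKr : ∀ w ∈ Kr π n0, ∃ u ∈ Sg, u ᵥ* e1 = u ∧ u ᵥ* d1 = w ᵥ* e0 := by
    intro w hw
    induction hw using AddSubgroup.closure_induction with
    | mem w hw =>
      obtain ⟨κ, hκ, c', rfl⟩ := hw
      obtain ⟨y, hy1, hy2⟩ := h.toBase.lift (c' ᵥ* e0 - (eps m (c' ᵥ* e0)) • cs)
        (by
          rw [Matrix.sub_vecMul, Matrix.vecMul_vecMul, h.e0e0, Matrix.smul_vecMul, hcs1])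
        (by rw [eps_sub, eps_zsmul, hcs2, mul_one, sub_self])
      refine ⟨(eps m (c' ᵥ* e0)) • x κ + (MonoidAlgebra.single κ (1 : ℤ) - 1) • y, ?_, ?_, ?_⟩
      · exact add_mem (zsmul_mem (hall κ hκ) _) (hSb κ (hker hκ) y)
      · rw [Matrix.add_vecMul, Matrix.smul_vecMul, Matrix.smul_vecMul, hx1, hy1]
      · rw [Matrix.add_vecMul, Matrix.smul_vecMul, Matrix.smul_vecMul, hx2, hy2,
          Matrix.smul_vecMul, smul_sub, smul_comm (eps m (c' ᵥ* e0))]
        abel
    | zero => exact ⟨0, zero_mem _, by simp, by simp⟩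
    | add v w _ _ hv hw =>
      obtain ⟨u, hu, hu1, hu2⟩ := hv
      obtain ⟨u', hu', hu1', hu2'⟩ := hw
      exact ⟨u + u', add_mem hu hu', by rw [Matrix.add_vecMul, hu1, hu1'],
        by rw [Matrix.add_vecMul, hu2, hu2', Matrix.add_vecMul]⟩
    | neg v _ hv =>
      obtain ⟨u, hu, hu1, hu2⟩ := hv
      exact ⟨-u, neg_mem hu, by rw [Matrix.neg_vecMul, hu1],
        by rw [Matrix.neg_vecMul, hu2, Matrix.neg_vecMul]⟩
  obtain ⟨u, hu, hu1, hu2⟩ := hKr _ hcd
  have hfin : c ∈ Sg := by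
    have h1 : c - u ∈ Sg := by
      apply hSE
      · rw [Matrix.sub_vecMul, hc1, hu1]
      · rw [Matrix.sub_vecMul, hu2, Matrix.vecMul_vecMul, h.d1e0, sub_self]
    have h2 := add_mem h1 hu
    simpa using h2
  obtain ⟨y, hy⟩ := hfin
  exact ⟨y, fun i => by rw [← hy i, hc2 i]⟩

end Pool.Agent.PDG
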