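import Pool.Agent.PDG.Defs

/-!
# Blueprint PDG, module Chart (helper41): coordinates on the factors of the series

PROOF.  `A := N n / N (n+1)` (the quotient of the group `N n` by `(N (n+1)).subgroupOf (N n)`, a normal subgroup) is
commutative by `Ser.comm` and torsion free by `Ser.tf`.  The additive group `Additive A` is a torsion free
`ℤ`-module; the localization `V = LocalizedModule (nonZeroDivisors ℤ) (Additive A)` is a vector space over
`Localization (nonZeroDivisors ℤ) = FractionRing ℤ`, and `A → V` is injective (`LocalizedModule.mk_eq`, torsion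
free).  (Alternative: `TensorProduct ℤ ℚ (Additive A)`.)  Choose a basis of `V` indexed by a type `B`
(`Module.Basis.ofVectorSpace`), put a linear order on `B` (`linearOrderOfSTO WellOrderingRel`), and identify
`FractionRing ℤ` with `ℚ`.  `f g` is the coordinate function of the class of `g`; `f g = 1` iff the class of `g` in `A`
is trivial iff `g ∈ N (n+1)`.
-/

set_option autoImplicit false

namespace Pool.Agent.PDG

open scoped commutatorElement in
theorem exists_chart {S : Type} [Group S] (N : ℕ → Subgroup S) [∀ n, (N n).Normal] (hN : Ser N)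
    (n : ℕ) : ∃ (B : Type) (_ : LinearOrder B) (f : N n →* Multiplicative (B →₀ ℚ)),
      ∀ g : N n, f g = 1 ↔ (g : S) ∈ N (n + 1) := by
  classical
  set D : Subgroup (N n) := (N (n + 1)).subgroupOf (N n) with hD
  have hcomm : ∀ x y : N n ⧸ D, x * y = y * x := by
    intro x y
    obtain ⟨x, rfl⟩ := QuotientGroup.mk'_surjective D x
    obtain ⟨y, rfl⟩ := QuotientGroup.mk'_surjective D y
    have h1 : ⁅x, y⁆ ∈ D := by
      show ((⁅x, y⁆ : N n) : S) ∈ N (n + 1)
      exact hN.comm n (Subgroup.commutator_mem_commutator x.2 y.2)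
    have h2 : QuotientGroup.mk' D ⁅x, y⁆ = 1 := (QuotientGroup.eq_one_iff _).2 h1
    rw [map_commutatorElement] at h2
    exact commutatorElement_eq_one_iff_mul_comm.1 h2
  let _ : CommGroup (N n ⧸ D) := { (inferInstance : Group (N n ⧸ D)) with mul_comm := hcomm }
  let A : Type := Additive (N n ⧸ D)
  -- powers
  have hpow : ∀ (k : ℕ) (x : N n ⧸ D), k ≠ 0 → x ^ k = 1 → x = 1 := by
    intro k x hk hx
    obtain ⟨x, rfl⟩ := QuotientGroup.mk'_surjective D x
    rw [← map_pow] at hx
    have h1 : x ^ k ∈ D := (QuotientGroup.eq_one_iff (N := D) _).1 hx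
    have h2 : (x : S) ^ k ∈ N (n + 1) := h1
    have h3 : (x : S) ∈ N (n + 1) := hN.tf n x k hk x.2 h2
    exact (QuotientGroup.eq_one_iff (N := D) _).2 h3
  have htf : Module.IsTorsionFree ℤ A := by
    constructor
    intro r hr x y hxy
    have hr0 : r ≠ 0 := hr.ne_zero
    have h1 : r • x = r • y := hxy
    have h2 : r • (x - y) = 0 := by rw [smul_sub, h1, sub_self]
    have h3 : r.natAbs • (x - y) = 0 := by
      rcases Int.natAbs_eq r with h | h
      · rw [h, natCast_zsmul] at h2; exact h2
      · rw [h, neg_smul, natCast_zsmul, neg_eq_zero] at h2; exact h2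
    have h4 : Additive.toMul (x - y) = 1 := by
      refine hpow r.natAbs _ (Int.natAbs_ne_zero.2 hr0) ?_
      exact congrArg Additive.toMul h3
    have h5 : x - y = 0 := h4
    exact sub_eq_zero.1 h5
  have hflat : Module.Flat ℤ A := inferInstance
  have hinj : Function.Injective (TensorProduct.mk ℤ ℚ A 1) :=
    Module.Flat.tensorProduct_mk_injective ℤ A ℚ
  let V : Type := TensorProduct ℤ ℚ A
  let b := Module.Basis.ofVectorSpace ℚ V
  let B : Type := Module.Basis.ofVectorSpaceIndex ℚ V
  let ob : LinearOrder B := linearOrderOfSTO WellOrderingRel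
  let F : A →+ (B →₀ ℚ) :=
    (b.repr.toLinearMap.toAddMonoidHom).comp (TensorProduct.mk ℤ ℚ A 1).toAddMonoidHom
  have hF : Function.Injective F := b.repr.injective.comp hinj
  let f : N n →* Multiplicative (B →₀ ℚ) :=
    { toFun := fun g => Multiplicative.ofAdd (F (Additive.ofMul (QuotientGroup.mk' D g)))
      map_one' := by
        rw [map_one]
        exact congrArg Multiplicative.ofAdd (map_zero F)
      map_mul' := by
        intro x y
        rw [map_mul, ofMul_mul]
        exact congrArg Multiplicative.ofAdd (map_add F _ _) }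
  refine ⟨B, ob, f, ?_⟩
  intro g
  constructor
  · intro h
    have h1 : F (Additive.ofMul (QuotientGroup.mk' D g)) = 0 := congrArg Multiplicative.toAdd h
    have h2 : (Additive.ofMul (QuotientGroup.mk' D g) : A) = 0 := hF (by rw [h1, map_zero])
    have h3 : QuotientGroup.mk' D g = 1 := h2
    exact (QuotientGroup.eq_one_iff (N := D) _).1 h3
  · intro h
    have h3 : QuotientGroup.mk' D g = 1 := (QuotientGroup.eq_one_iff (N := D) _).2 h
    show Multiplicative.ofAdd (F (Additive.ofMul (QuotientGroup.mk' D g))) = 1
    rw [h3]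
    exact congrArg Multiplicative.ofAdd (map_zero F)

end Pool.Agent.PDG
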