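import Pool.Agent.PDG.Defs
import Pool.Agent.HFT.OV

/-!
# Blueprint PDG, module Cmp (helper41; proof by helper18): valuations in the ultraproduct and in the components

PROOF.  All statements `for almost all n` are with respect to the ultrafilter `uf`; finitely many of them hold at
the same time.  `mkU uf D y = mkU uf D y'` means `y n = y' n` for almost all `n` (`mkU_eq_iff`).
If `x = 0`: `y n = 0` for almost all `n`, and `w n 0 = ⊤ = v 0` (`IsVgen.top`).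
Let `x ≠ 0`.  By `OVaux.isFr_of_mem hU hx` there is `s ≠ 0` with `IsPol αU ΔU s` and
`IsPol αU ΔU (s * x)`; put `p = s * x ≠ 0`.
Claim: if `p ≠ 0` is `IsPol αU ΔU` and `p = mkU uf D p'`, then for almost all `n` `p' n` is in the closure
`K n := Subfield.closure (Δ n ∪ range (α n))`, `p' n ≠ 0`, and `w n (p' n) = v p`.
Proof of the claim: by `OVaux.exists_dec` there are `F`, `u` with `IsDec αU τ ΔU p F u`: `u d = αU (a d) * c d` with
`τ (a d) = d`, `c d ∈ ΔU`, `u d ≠ 0` for `d ∈ F`, `p = ∑ d ∈ F, u d`; by `OVaux.v_dec` (see its statement)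
`v p = F.min` (as an element of `WithTop ℝ`).  By `hΔ` write `c d = mkU uf D (c' d)` with `c' d n ∈ Δ n`.  For almost all
`n`: `α n (a d) * c' d n ≠ 0` for all `d ∈ F` and `p' n = ∑ d ∈ F, α n (a d) * c' d n`; this is a
decomposition in `D n`, so `w n (p' n) = F.min` by `v_dec` again.
Now write `s = mkU uf D s'`, `p = mkU uf D p'`; for almost all `n` `s' n * y n = p' n`, `s' n ≠ 0`, so
`y n = (s' n)⁻¹ * p' n ∈ K n`, and `w n (s' n) + w n (y n) = w n (p' n)`, `v s + v x = v p` (`IsVgen.mul`), with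
`w n (s' n) = v s ≠ ⊤`, `w n (p' n) = v p`; cancel (`OVaux.add_cancel`).
-/

set_option autoImplicit false

namespace Pool.Agent.PDG

open Pool.Agent.HFT Pool.Agent.HFT.OVaux

private theorem cmp_pol {D : ℕ → Type} [∀ n, DivisionRing (D n)] {N : Type} [Group N] (τ : N → ℝ)
    (α : ∀ n, N →* D n) (Δ : ∀ n, Subfield (D n)) (αU : N →* UProd uf D)
    (hα : ∀ a, αU a = mkU uf D (fun n => α n a)) (ΔU : Subfield (UProd uf D))
    (hΔ : ∀ x ∈ ΔU, ∃ y : ∀ n, D n, x = mkU uf D y ∧ ∀ n, y n ∈ Δ n)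
    (hU : GrData αU τ ΔU)
    (v : UProd uf D → WithTop ℝ) (hv : IsVgen αU τ ΔU v) (w : ∀ n, D n → WithTop ℝ)
    (hw : ∀ᶠ n in (uf : Filter ℕ), IsVgen (α n) τ (Δ n) (w n)) (p : UProd uf D)
    (hp : IsPol αU ΔU p) (p' : ∀ n, D n) (hpp : p = mkU uf D p') :
    p ∈ Subfield.closure ((ΔU : Set (UProd uf D)) ∪ Set.range αU) ∧
    ∀ᶠ n in (uf : Filter ℕ),
      p' n ∈ Subfield.closure ((Δ n : Set (D n)) ∪ Set.range (α n)) ∧ w n (p' n) = v p := by
  obtain ⟨F, u, h1, h2, h3⟩ := exists_dec hU hp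
  have hv1 := v_dec hv F u h1 h2
  have hch : ∀ d, ∃ a : N, ∃ c' : ∀ n, D n, d ∈ F → τ a = d ∧ (∀ n, c' n ∈ Δ n) ∧
      u d = mkU uf D (fun n => α n a * c' n) := by
    intro d
    by_cases hd : d ∈ F
    · obtain ⟨a, ha, c, hc, hz⟩ := h1 d hd
      obtain ⟨c', hcc, hc'⟩ := hΔ c hc
      refine ⟨a, c', fun _ => ⟨ha, hc', ?_⟩⟩
      rw [hz, hα, hcc, ← map_mul]
      rfl
    · exact ⟨1, 0, fun h => absurd h hd⟩
  choose a c' hac using hch
  have hne : ∀ᶠ n in (uf : Filter ℕ), ∀ d ∈ F, α n (a d) * c' d n ≠ 0 := by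
    rw [Filter.eventually_all_finset]
    intro d hd
    have h4 := h2 d hd
    rw [(hac d hd).2.2, ← map_zero (mkU uf D), Ne, mkU_eq_iff, ← Ultrafilter.eventually_not] at h4
    exact h4
  have hsum : ∀ᶠ n in (uf : Filter ℕ), p' n = ∑ d ∈ F, α n (a d) * c' d n := by
    have h5 : mkU uf D p' = mkU uf D (∑ d ∈ F, fun n => α n (a d) * c' d n) := by
      rw [← hpp, h3, map_sum]
      exact Finset.sum_congr rfl fun d hd => (hac d hd).2.2
    rw [mkU_eq_iff] at h5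
    filter_upwards [h5] with n hn
    rw [hn, Finset.sum_apply]
  refine ⟨by rw [h3]; exact hv1.1, ?_⟩
  filter_upwards [hne, hsum, hw] with n hn1 hn2 hn3
  have h6 := v_dec hn3 F (fun d => α n (a d) * c' d n)
    (fun d hd => ⟨a d, (hac d hd).1, c' d n, (hac d hd).2.1 n, rfl⟩) hn1
  rw [hn2]
  refine ⟨h6.1, ?_⟩
  rw [h6.2, h3, hv1.2]

theorem cmp {D : ℕ → Type} [∀ n, DivisionRing (D n)] {N : Type} [Group N] (τ : N → ℝ)
    (α : ∀ n, N →* D n) (Δ : ∀ n, Subfield (D n)) (αU : N →* UProd uf D)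
    (hα : ∀ a, αU a = mkU uf D (fun n => α n a)) (ΔU : Subfield (UProd uf D))
    (hΔ : ∀ x ∈ ΔU, ∃ y : ∀ n, D n, x = mkU uf D y ∧ ∀ n, y n ∈ Δ n)
    (hg : ∀ᶠ n in (uf : Filter ℕ), GrData (α n) τ (Δ n)) (hU : GrData αU τ ΔU)
    (v : UProd uf D → WithTop ℝ) (hv : IsVgen αU τ ΔU v) (w : ∀ n, D n → WithTop ℝ)
    (hw : ∀ᶠ n in (uf : Filter ℕ), IsVgen (α n) τ (Δ n) (w n)) (x : UProd uf D)
    (hx : x ∈ Subfield.closure ((ΔU : Set (UProd uf D)) ∪ Set.range αU))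
    (y : ∀ n, D n) (hy : x = mkU uf D y) :
    ∀ᶠ n in (uf : Filter ℕ),
      y n ∈ Subfield.closure ((Δ n : Set (D n)) ∪ Set.range (α n)) ∧ w n (y n) = v x := by
  obtain ⟨s, hs0, hs, hsx⟩ := isFr_of_mem hU hx
  obtain ⟨s', hs'⟩ := mkU_surjective (𝒰 := uf) (D := D) s
  have h1 := cmp_pol τ α Δ αU hα ΔU hΔ hU v hv w hw s hs s' hs'.symm
  have h2 := cmp_pol τ α Δ αU hα ΔU hΔ hU v hv w hw (s * x) hsx (s' * y)
    (by rw [map_mul, hs', hy])
  have h3 : ∀ᶠ n in (uf : Filter ℕ), s' n ≠ 0 := by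
    have h4 := hs0
    rw [← hs', ← map_zero (mkU uf D), Ne, mkU_eq_iff, ← Ultrafilter.eventually_not] at h4
    exact h4
  have h5 : v s ≠ ⊤ := fun h => hs0 ((hv.top s h1.1).1 h)
  have h6 := hv.mul s h1.1 x hx
  filter_upwards [h1.2, h2.2, h3, hw] with n hn1 hn2 hn3 hn4
  have e1 : y n = (s' n)⁻¹ * (s' * y) n := by
    rw [Pi.mul_apply, inv_mul_cancel_left₀ hn3]
  have e2 : y n ∈ Subfield.closure ((Δ n : Set (D n)) ∪ Set.range (α n)) := by
    rw [e1]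
    exact mul_mem (inv_mem hn1.1) hn2.1
  refine ⟨e2, ?_⟩
  have e3 := hn4.mul (s' n) hn1.1 (y n) e2
  have e4 := hn2.2
  rw [Pi.mul_apply, e3, h6, hn1.2] at e4
  exact add_cancel h5 e4

end Pool.Agent.PDG
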