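import Pool.Agent.PDG.Chart
import Pool.Agent.HFT.Lev

/-!
# Blueprint PDG, module Conrad (helper41): the Conradian system of the series

PROOF.  Choose `B n`, the linear orders and `f n` by `exists_chart`.  For `g ≠ 1` there is exactly one `n = n(g)` with
`g ∈ N n`, `g ∉ N (n+1)` (`Ser.top`, `Ser.inf`, `Ser.anti`; `Nat.find`).  Then `v(g) := f n ⟨g, _⟩ ≠ 0`, a nonzero
finitely supported function on `B n`; let `b(g)` be the largest element of its support.
`I := Σₗ (n : ℕᵒᵈ), B n` (lexicographic order, `Sigma.Lex.linearOrder`), that is `(n, b) < (n', b')` iff `n > n'`, or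
`n = n'` and `b < b'`.  `lev 1 = ⊥`, `lev g = (n(g), b(g))` for `g ≠ 1`.  `τ (n, b) g := (f n g) b ∈ ℚ ⊆ ℝ` if `g ∈ N n`,
and `0` otherwise.
Description: for `i = (n, b)`: `lev g ≤ i` iff `g ∈ N n` and `(f n g) b' = 0` for all `b' > b`
(if `g ∈ N (n+1)` both sides hold, since then `f n g = 0` and `n(g) > n`; if `g ∈ N n`, `g ∉ N (n+1)`
then `n(g) = n`; if `g ∉ N n` then `n(g) < n` and both sides fail); and `lev g < i` iff `g ∈ N n` and
`(f n g) b' = 0` for all `b' ≥ b`.  With this description: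
`lev_bot` clear; `lev_inv`: `f n g⁻¹ = - f n g`.  `lev_mul`: let `i` be the maximum of `lev g`, `lev h` (if both are
`⊥` then `g = h = 1`); both are `≤ i`, so `g h ∈ N n` and `f n (g h) = f n g + f n h` vanishes above `b`.
`τ_mul`: additivity of `f n`.  `τ_zero`: clear from the description.
Compatibility: for `i = (n, b)` all `g ∈ N (n+1)` satisfy `lev g < i`.
-/

set_option autoImplicit false

namespace Pool.Agent.PDG

open Pool.Agent.HFT

private theorem ser_anti {S : Type} [Group S] {N : ℕ → Subgroup S} (hN : Ser N) {m n : ℕ}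
    (h : m ≤ n) : N n ≤ N m :=
  antitone_nat_of_succ_le hN.anti h

private theorem ser_find {S : Type} [Group S] {N : ℕ → Subgroup S} (hN : Ser N) {g : S}
    (hg : g ≠ 1) : ∃ m, g ∈ N m ∧ g ∉ N (m + 1) := by
  classical
  have hex : ∃ n, g ∉ N n := by
    by_contra h
    push Not at h
    exact hg (hN.inf g h)
  have h1 := Nat.find_spec hex
  have h2 : Nat.find hex ≠ 0 := by
    intro h
    rw [h, hN.top] at h1
    exact h1 (Subgroup.mem_top g)
  obtain ⟨m, hm⟩ := Nat.exists_eq_succ_of_ne_zero h2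
  refine ⟨m, ?_, ?_⟩
  · have := Nat.find_min hex (m := m) (by omega)
    exact not_not.1 this
  · rw [hm] at h1; exact h1

/-- the index `(n, b)` -/
private def io {B : ℕ → Type} (n : ℕ) (b : B n) :
    Lex (Σ n : ℕᵒᵈ, B (OrderDual.ofDual n)) := toLex ⟨OrderDual.toDual n, b⟩

private theorem io_lt_of {B : ℕ → Type} [∀ n, LinearOrder (B n)] {m n : ℕ} (h : n < m) (a : B m)
    (b : B n) : io m a < io n b :=
  Sigma.Lex.left _ _ (OrderDual.toDual_lt_toDual.2 h)

private theorem io_lt_iff {B : ℕ → Type} [∀ n, LinearOrder (B n)] {m : ℕ} (a b : B m) :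
    io m a < io m b ↔ a < b := by
  constructor
  · intro h
    rcases Sigma.Lex.lt_def.1 h with h | ⟨h, h'⟩
    · exact absurd h (lt_irrefl _)
    · exact h'
  · intro h
    exact Sigma.Lex.right _ _ h

private theorem io_le_iff {B : ℕ → Type} [∀ n, LinearOrder (B n)] {m : ℕ} (a b : B m) :
    io m a ≤ io m b ↔ a ≤ b := by
  rw [← not_lt, io_lt_iff, not_lt]

private theorem wb_eq {I : Type} [LinearOrder I] {l l' : WithBot I}
    (h : ∀ i : I, l < (i : WithBot I) ↔ l' < (i : WithBot I)) : l = l' := by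
  rcases lt_trichotomy l l' with h1 | h1 | h1
  · obtain ⟨i, rfl⟩ := WithBot.ne_bot_iff_exists.1 (ne_bot_of_gt h1)
    exact absurd ((h i).1 h1) (lt_irrefl _)
  · exact h1
  · obtain ⟨i, rfl⟩ := WithBot.ne_bot_iff_exists.1 (ne_bot_of_gt h1)
    exact absurd ((h i).2 h1) (lt_irrefl _)

private theorem conrad_aux {S : Type} [Group S] (N : ℕ → Subgroup S) (hN : Ser N) (B : ℕ → Type)
    [∀ n, LinearOrder (B n)] (F : ∀ n : ℕ, S → (B n →₀ ℚ))
    (hmul : ∀ n g h, g ∈ N n → h ∈ N n → F n (g * h) = F n g + F n h)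
    (hinv : ∀ n g, F n g⁻¹ = - F n g)
    (hzero : ∀ n g, g ∈ N n → (F n g = 0 ↔ g ∈ N (n + 1))) :
    ∃ CS : ConradSys S, ∀ i : CS.I, ∃ n, ∀ g ∈ N n, CS.lev g < (i : WithBot CS.I) := by
  classical
  have hone : ∀ n, F n 1 = 0 := fun n => (hzero n 1 (one_mem _)).2 (one_mem _)
  have hex : ∀ g : S, ∃ l : WithBot (Lex (Σ n : ℕᵒᵈ, B (OrderDual.ofDual n))),
      (l = ⊥ ↔ g = 1) ∧
      (∀ (n : ℕ) (b : B n), l ≤ ((io n b : Lex (Σ n : ℕᵒᵈ, B (OrderDual.ofDual n))) :
        WithBot (Lex (Σ n : ℕᵒᵈ, B (OrderDual.ofDual n)))) ↔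
        g ∈ N n ∧ ∀ b', b < b' → F n g b' = 0) ∧
      (∀ (n : ℕ) (b : B n), l < ((io n b : Lex (Σ n : ℕᵒᵈ, B (OrderDual.ofDual n))) :
        WithBot (Lex (Σ n : ℕᵒᵈ, B (OrderDual.ofDual n)))) ↔
        g ∈ N n ∧ ∀ b', b ≤ b' → F n g b' = 0) := by
    intro g
    by_cases hg : g = 1
    · subst hg
      refine ⟨⊥, ⟨fun _ => rfl, fun _ => rfl⟩, fun n b => ⟨fun _ => ⟨one_mem _, fun b' _ => ?_⟩,
        fun _ => bot_le⟩, fun n b => ⟨fun _ => ⟨one_mem _, fun b' _ => ?_⟩,
        fun _ => WithBot.bot_lt_coe _⟩⟩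
      · rw [hone]; rfl
      · rw [hone]; rfl
    · obtain ⟨m, hm1, hm2⟩ := ser_find hN hg
      have hne : F m g ≠ 0 := fun h => hm2 ((hzero m g hm1).1 h)
      have hs : (F m g).support.Nonempty := Finsupp.support_nonempty_iff.2 hne
      set b0 : B m := (F m g).support.max' hs with hb0
      have hb1 : F m g b0 ≠ 0 := Finsupp.mem_support_iff.1 (Finset.max'_mem _ hs)
      have hb2 : ∀ b', b0 < b' → F m g b' = 0 := by
        intro b' hb'
        by_contra h
        have := Finset.le_max' _ b' (Finsupp.mem_support_iff.2 h)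
        exact absurd (lt_of_lt_of_le hb' this) (lt_irrefl _)
      refine ⟨((io m b0 : Lex (Σ n : ℕᵒᵈ, B (OrderDual.ofDual n))) :
        WithBot (Lex (Σ n : ℕᵒᵈ, B (OrderDual.ofDual n)))),
        ⟨fun h => absurd h (WithBot.coe_ne_bot), fun h => absurd h hg⟩, ?_, ?_⟩
      · intro n b
        rw [WithBot.coe_le_coe]
        rcases lt_trichotomy n m with h | h | h
        · refine ⟨fun _ => ?_, fun _ => (io_lt_of h _ _).le⟩
          have h1 : g ∈ N (n + 1) := ser_anti hN (Nat.succ_le_of_lt h) hm1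
          have h2 : g ∈ N n := hN.anti n h1
          refine ⟨h2, fun b' _ => ?_⟩
          rw [(hzero n g h2).2 h1]; rfl
        · subst h
          rw [io_le_iff]
          refine ⟨fun h => ⟨hm1, fun b' hb' => hb2 b' (lt_of_le_of_lt h hb')⟩, fun h => ?_⟩
          by_contra h'
          exact hb1 (h.2 b0 (not_le.1 h'))
        · refine ⟨fun h' => absurd (io_lt_of (B := B) h b b0) (not_lt.2 h'), fun h' => ?_⟩
          exact absurd (ser_anti hN (Nat.succ_le_of_lt h) h'.1) hm2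
      · intro n b
        rw [WithBot.coe_lt_coe]
        rcases lt_trichotomy n m with h | h | h
        · refine ⟨fun _ => ?_, fun _ => (io_lt_of h _ _)⟩
          have h1 : g ∈ N (n + 1) := ser_anti hN (Nat.succ_le_of_lt h) hm1
          have h2 : g ∈ N n := hN.anti n h1
          refine ⟨h2, fun b' _ => ?_⟩
          rw [(hzero n g h2).2 h1]; rfl
        · subst h
          rw [io_lt_iff]
          refine ⟨fun h => ⟨hm1, fun b' hb' => hb2 b' (lt_of_lt_of_le h hb')⟩, fun h => ?_⟩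
          by_contra h'
          exact hb1 (h.2 b0 (not_lt.1 h'))
        · refine ⟨fun h' => absurd (io_lt_of (B := B) h b b0) (not_lt.2 h'.le), fun h' => ?_⟩
          exact absurd (ser_anti hN (Nat.succ_le_of_lt h) h'.1) hm2
  choose lev h1 h2 h3 using hex
  refine ⟨{ I := Lex (Σ n : ℕᵒᵈ, B (OrderDual.ofDual n))
            lev := lev
            τ := fun i g => ((F (OrderDual.ofDual (ofLex i).1) g (ofLex i).2 : ℚ) : ℝ)
            lev_bot := h1
            lev_inv := ?_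
            lev_mul := ?_
            τ_mul := ?_
            τ_zero := ?_ }, ?_⟩
  · intro g
    refine wb_eq fun i => ?_
    have e := h3 g (OrderDual.ofDual (ofLex i).1) (ofLex i).2
    have e' := h3 g⁻¹ (OrderDual.ofDual (ofLex i).1) (ofLex i).2
    refine e'.trans (Iff.trans ?_ e.symm)
    rw [inv_mem_iff, hinv]
    simp only [Finsupp.neg_apply, neg_eq_zero]
  · intro g h
    by_contra hcon
    rw [not_le, max_lt_iff] at hcon
    obtain ⟨i, hi⟩ := WithBot.ne_bot_iff_exists.1 (ne_bot_of_gt hcon.1)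
    rw [← hi] at hcon
    have e1 := (h3 g (OrderDual.ofDual (ofLex i).1) (ofLex i).2).1 hcon.1
    have e2 := (h3 h (OrderDual.ofDual (ofLex i).1) (ofLex i).2).1 hcon.2
    have e3 := (h3 (g * h) (OrderDual.ofDual (ofLex i).1) (ofLex i).2).2
      ⟨mul_mem e1.1 e2.1, fun b' hb' => by
        rw [hmul _ _ _ e1.1 e2.1, Finsupp.add_apply, e1.2 b' hb', e2.2 b' hb', add_zero]⟩
    rw [← hi] at e3
    exact absurd e3 (lt_irrefl _)
  · intro i g h hg hh
    have e1 := (h2 g (OrderDual.ofDual (ofLex i).1) (ofLex i).2).1 hg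
    have e2 := (h2 h (OrderDual.ofDual (ofLex i).1) (ofLex i).2).1 hh
    show ((F (OrderDual.ofDual (ofLex i).1) (g * h) (ofLex i).2 : ℚ) : ℝ) = _
    rw [hmul _ _ _ e1.1 e2.1, Finsupp.add_apply]
    push_cast
    rfl
  · intro i g hg
    have e1 := (h2 g (OrderDual.ofDual (ofLex i).1) (ofLex i).2).1 hg
    have e3 := h3 g (OrderDual.ofDual (ofLex i).1) (ofLex i).2
    show ((F (OrderDual.ofDual (ofLex i).1) g (ofLex i).2 : ℚ) : ℝ) = 0 ↔ _
    refine Iff.trans ?_ e3.symm
    rw [Rat.cast_eq_zero]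
    refine ⟨fun h => ⟨e1.1, fun b' hb' => ?_⟩, fun h => h.2 _ le_rfl⟩
    rcases hb'.lt_or_eq with h' | h'
    · exact e1.2 b' h'
    · rw [← h']; exact h
  · intro i
    refine ⟨OrderDual.ofDual (ofLex i).1 + 1, fun g hg => ?_⟩
    have h4 : g ∈ N (OrderDual.ofDual (ofLex i).1) := hN.anti _ hg
    have h5 : F (OrderDual.ofDual (ofLex i).1) g = 0 :=
      (hzero (OrderDual.ofDual (ofLex i).1) g h4).2 hg
    exact (h3 g (OrderDual.ofDual (ofLex i).1) (ofLex i).2).2
      ⟨h4, fun b' _ => DFunLike.congr_fun h5 b'⟩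

theorem exists_conrad {S : Type} [Group S] (N : ℕ → Subgroup S) [∀ n, (N n).Normal]
    (hN : Ser N) : ∃ CS : ConradSys S, ∀ i : CS.I, ∃ n, ∀ g ∈ N n, CS.lev g < (i : WithBot CS.I) := by
  classical
  choose B ord f hf using fun n => exists_chart N hN n
  letI : ∀ n, LinearOrder (B n) := ord
  refine conrad_aux N hN B
    (fun n g => if h : g ∈ N n then Multiplicative.toAdd (f n ⟨g, h⟩) else 0) ?_ ?_ ?_
  · intro n g h hg hh
    simp only [dif_pos hg, dif_pos hh, dif_pos (mul_mem hg hh)]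
    have : (⟨g * h, mul_mem hg hh⟩ : N n) = ⟨g, hg⟩ * ⟨h, hh⟩ := rfl
    rw [this, map_mul, toAdd_mul]
  · intro n g
    by_cases hg : g ∈ N n
    · simp only [dif_pos hg, dif_pos (inv_mem hg)]
      have : (⟨g⁻¹, inv_mem hg⟩ : N n) = (⟨g, hg⟩ : N n)⁻¹ := rfl
      rw [this, map_inv, toAdd_inv]
    · have hg' : g⁻¹ ∉ N n := fun h => hg (inv_mem_iff.1 h)
      simp only [dif_neg hg, dif_neg hg', neg_zero]
  · intro n g hg
    simp only [dif_pos hg]
    rw [← hf n ⟨g, hg⟩]
    exact toAdd_eq_zero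

end Pool.Agent.PDG
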