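import Pool.Agent.PDG.Grd

/-!
# Blueprint PDG, module DecM (helper41; proof by helper18): comparing an expansion with an element of the group ring

PROOF of `bd` (upper bound for the degrees).  Take `E, u` from `grd` (for `τ`).  If `y = 0` nothing to prove.  The elements
`θ (zq (u d))`, `d ∈ E`, are nonzero (`h.inj`, `zq_injective`), and homogeneous of degree `-d` for the character `-τ`
(`HomSet (al θ π) (fun a => -τ a) Δ (-d) = HomSet (al θ π) τ Δ d`).  So `θ (zq y)` has a decomposition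
(`IsDec` for `-τ`) with set of degrees `-E`, and by `v_dec` (`HFT.OVaux.v_dec`) `v (θ (zq y)) = min (-E)`, that is
`- max E`.  Hence `max E ≤ C`, and `τ a ∈ E` if `y.coeff (π a) ≠ 0`.

PROOF of `decM`.  Write `Δ = DB θ L0`, `K = DB θ π.range` (the closure in `IsVgen`, see `gr_closure`).  Take `E, u` from
`grd`; all `d ∈ E` are `≤ β` by `hb`.  Let `X` be the finite set of real numbers `E ∪ {0} ∪ F`, and for `d ∈ X`, `d ≤ β`,
`H d := [d ∈ E] θ(zq (u d)) - [d = 0] u0 - [d ∈ F] w d`, a homogeneous element of degree `d` or zero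
(`homSet_add`, `homSet_neg` of `HFT.OVa`; `u0 ∈ Δ` is homogeneous of degree `0`; note `0 ∈ HomSet d` when `HomSet d`
is nonempty).  Then `∑_{d ∈ X, d ≤ β} H d = (θ(zq y) - u0 - ∑_F w d) + ∑_{d ∈ F, d > β} w d`, and the right hand
side has `v > β`: the first term by `hr`, and `v (w d) = d > β` or `w d = 0` (`w d = al a * c`, `v(al a) = τ a = d`,
`v c = 0` or `c = 0`).  If some `H d ≠ 0`, then by `v_dec` applied to the set of the `d` with `H d ≠ 0`,
`v (∑ H d)` is the smallest such `d`, which is `≤ β`, a contradiction.  So all `H d = 0` for `d ∈ X`, `d ≤ β`.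
For `d = 0` (`0 ∉ F`): `u0 = θ(zq (u 0))` if `0 ∈ E`, `u0 = 0` otherwise.  For `d ∈ F`, `d ≤ β` (`d ≠ 0`):
`w d = θ(zq (u d))` if `d ∈ E`, `w d = 0` otherwise.  The last statement is `∑ H d = 0`.
-/

set_option autoImplicit false

namespace Pool.Agent.PDG

open Pool.Agent.HFT Pool.Agent.HFT.OVaux

variable {Γ : Type} [Group Γ] {D : Type} [DivisionRing D] {θ : MonoidAlgebra ℚ Γ →+* D}
  {N : Type} [Group N] {π : N →* Γ} {τ : N → ℝ} {L0 : Subgroup Γ}

private theorem decM_ne (h : OreEmb θ) {z : MonoidAlgebra ℤ Γ} (hz : z ≠ 0) : θ (zq z) ≠ 0 := by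
  intro h0
  apply hz
  apply zq_injective
  apply h.inj
  rw [h0, map_zero, map_zero]

theorem bd (h : OreEmb θ) (hd : Dat π τ L0) (y : MonoidAlgebra ℤ Γ)
    (hy : θ (zq y) ∈ DB θ π.range) (v : D → WithTop ℝ)
    (hv : IsVgen (al θ π) (fun a => -τ a) (DB θ L0) v) (C : ℝ)
    (hC : ((-C : ℝ) : WithTop ℝ) ≤ v (θ (zq y))) : ∀ a : N, y.coeff (π a) ≠ 0 → τ a ≤ C := by
  classical
  obtain ⟨E, u, h1, h2, h3, h4, h5⟩ := grd h hd y hy
  intro a ha
  have h6 := v_dec hv (E.image (fun d => -d)) (fun e => θ (zq (u (-e)))) (by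
    intro e he
    obtain ⟨d, hd', rfl⟩ := Finset.mem_image.1 he
    rw [neg_neg]
    obtain ⟨b, hb, c, hc, hz⟩ := h3 d hd'
    exact ⟨b, by show -τ b = -d; rw [hb], c, hc, hz⟩) (by
    intro e he
    obtain ⟨d, hd', rfl⟩ := Finset.mem_image.1 he
    rw [neg_neg]
    exact decM_ne h (h2 d hd'))
  have h7 : ∑ e ∈ E.image (fun d => -d), θ (zq (u (-e))) = θ (zq y) := by
    rw [Finset.sum_image (fun x _ y _ hxy => neg_injective hxy), h1, map_sum, map_sum]
    exact Finset.sum_congr rfl fun d _ => by rw [neg_neg]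
  rw [h7] at h6
  rw [h6.2] at hC
  have h8 : (E.image (fun d => -d)).min ≤ ((-τ a : ℝ) : WithTop ℝ) :=
    Finset.min_le (Finset.mem_image.2 ⟨τ a, h5 a ha, rfl⟩)
  have h9 := WithTop.coe_le_coe.1 (hC.trans h8)
  linarith

theorem decM (h : OreEmb θ) (hd : Dat π τ L0) (y : MonoidAlgebra ℤ Γ)
    (hy : θ (zq y) ∈ DB θ π.range) (β : ℝ) (hβ : 0 ≤ β)
    (hb : ∀ a : N, y.coeff (π a) ≠ 0 → τ a ≤ β)
    (u0 : D) (hu0 : u0 ∈ DB θ L0) (F : Finset ℝ) (hF : ∀ d ∈ F, 0 < d) (w : ℝ → D)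
    (hw : ∀ d ∈ F, w d ∈ HomSet (al θ π) τ (DB θ L0) d) (v : D → WithTop ℝ)
    (hv : IsVgen (al θ π) τ (DB θ L0) v)
    (hr : (β : WithTop ℝ) < v (θ (zq y) - u0 - ∑ d ∈ F, w d)) :
    (∃ y0 : MonoidAlgebra ℤ Γ, u0 = θ (zq y0)) ∧
      (∀ d ∈ F, d ≤ β → ∃ y' : MonoidAlgebra ℤ Γ, w d = θ (zq y')) ∧
      θ (zq y) = u0 + ∑ d ∈ F with d ≤ β, w d := by
  classical
  obtain ⟨E, u, h1, h2, h3, h4, h5⟩ := grd h hd y hy
  have hG := gr h hd
  have hE : ∀ d ∈ E, d ≤ β := fun d hd' => by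
    obtain ⟨a, ha, ha'⟩ := h4 d hd'
    rw [← ha]
    exact hb a ha'
  have ht1 : τ 1 = 0 := by
    have := hd.add 1 1
    rw [mul_one] at this
    linarith
  obtain ⟨X, hX⟩ : ∃ X : Finset ℝ, X = (E ∪ {0} ∪ F).filter (· ≤ β) := ⟨_, rfl⟩
  obtain ⟨H, hH⟩ : ∃ H : ℝ → D, H = fun d => (if d ∈ E then θ (zq (u d)) else 0) -
      (if d = 0 then u0 else 0) - (if d ∈ F then w d else 0) := ⟨_, rfl⟩
  have hXm : ∀ d, d ∈ X ↔ (d ∈ E ∨ d = 0 ∨ d ∈ F) ∧ d ≤ β := fun d => by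
    rw [hX, Finset.mem_filter, Finset.mem_union, Finset.mem_union, Finset.mem_singleton, or_assoc]
  have hHom : ∀ d ∈ X, H d ∈ HomSet (al θ π) τ (DB θ L0) d := by
    intro d hdX
    have hne : ∃ a : N, τ a = d := by
      rcases ((hXm d).1 hdX).1 with h6 | h6 | h6
      · obtain ⟨a, ha, _⟩ := h4 d h6
        exact ⟨a, ha⟩
      · exact ⟨1, by rw [ht1, h6]⟩
      · obtain ⟨a, ha, _⟩ := hw d h6
        exact ⟨a, ha⟩
    have h0 : (0 : D) ∈ HomSet (al θ π) τ (DB θ L0) d := by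
      obtain ⟨a, ha⟩ := hne
      exact ⟨a, ha, 0, zero_mem _, by rw [mul_zero]⟩
    rw [hH]
    dsimp only
    rw [sub_eq_add_neg, sub_eq_add_neg]
    refine homSet_add hG (homSet_add hG ?_ (homSet_neg ?_)) (homSet_neg ?_)
    · by_cases h6 : d ∈ E
      · rw [if_pos h6]; exact h3 d h6
      · rw [if_neg h6]; exact h0
    · by_cases h6 : d = 0
      · rw [if_pos h6]
        exact ⟨1, by rw [ht1, h6], u0, hu0, by rw [map_one, one_mul]⟩
      · rw [if_neg h6]; exact h0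
    · by_cases h6 : d ∈ F
      · rw [if_pos h6]; exact hw d h6
      · rw [if_neg h6]; exact h0
  have hsum : ∑ d ∈ X, H d = θ (zq y) - u0 - ∑ d ∈ F with d ≤ β, w d := by
    rw [hH]
    dsimp only
    rw [Finset.sum_sub_distrib, Finset.sum_sub_distrib]
    congr 1
    · congr 1
      · rw [← Finset.sum_filter, h1, map_sum, map_sum]
        refine Finset.sum_congr ?_ fun _ _ => rfl
        ext d
        rw [Finset.mem_filter, hXm]
        exact ⟨fun h6 => h6.2, fun h6 => ⟨⟨Or.inl h6, hE d h6⟩, h6⟩⟩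
      · rw [Finset.sum_ite_eq' X 0 (fun _ => u0)]
        rw [if_pos ((hXm 0).2 ⟨Or.inr (Or.inl rfl), hβ⟩)]
    · rw [← Finset.sum_filter]
      refine Finset.sum_congr ?_ fun _ _ => rfl
      ext d
      rw [Finset.mem_filter, Finset.mem_filter, hXm]
      exact ⟨fun h6 => ⟨h6.2, h6.1.2⟩, fun h6 => ⟨⟨Or.inr (Or.inr h6.1), h6.2⟩, h6.1⟩⟩
  -- the part above `β`
  have hF' := v_dec hv (F.filter (fun d => β < d ∧ w d ≠ 0)) w
    (fun d hd' => hw d (Finset.mem_filter.1 hd').1) (fun d hd' => (Finset.mem_filter.1 hd').2.2)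
  have hF'' : ∑ d ∈ F with ¬ d ≤ β, w d = ∑ d ∈ F with (β < d ∧ w d ≠ 0), w d := by
    symm
    apply Finset.sum_subset
    · intro d hd'
      rw [Finset.mem_filter] at hd' ⊢
      exact ⟨hd'.1, not_le.2 hd'.2.1⟩
    · intro d hd' hd''
      rw [Finset.mem_filter] at hd' hd''
      by_contra h6
      exact hd'' ⟨hd'.1, not_le.1 hd'.2, h6⟩
  have hmin : (β : WithTop ℝ) < (F.filter (fun d => β < d ∧ w d ≠ 0)).min := by
    by_cases hne : (F.filter (fun d => β < d ∧ w d ≠ 0)).Nonempty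
    · rw [← Finset.coe_min' hne]
      exact WithTop.coe_lt_coe.2 (Finset.mem_filter.1 (Finset.min'_mem _ hne)).2.1
    · rw [Finset.not_nonempty_iff_eq_empty.1 hne, Finset.min_empty]
      exact WithTop.coe_lt_top β
  have hcl : ∀ d ∈ F, w d ∈ Subfield.closure
      ((DB θ L0 : Set D) ∪ Set.range (al θ π)) := fun d hd' => by
    obtain ⟨a, _, c, hc, hz⟩ := hw d hd'
    rw [hz]
    exact mul_mem (mem_al a) (mem_const hc)
  have hyc : θ (zq y) - u0 - ∑ d ∈ F, w d ∈ Subfield.closure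
      ((DB θ L0 : Set D) ∪ Set.range (al θ π)) := by
    refine sub_mem (sub_mem ?_ (mem_const hu0)) (sum_mem hcl)
    rw [gr_closure θ hd]
    exact hy
  have hsum2 : ∑ d ∈ X, H d = (θ (zq y) - u0 - ∑ d ∈ F, w d) +
      ∑ d ∈ F with (β < d ∧ w d ≠ 0), w d := by
    rw [hsum, ← hF'', ← Finset.sum_filter_add_sum_filter_not F (· ≤ β) w]
    abel
  have hvs : (β : WithTop ℝ) < v (∑ d ∈ X, H d) := by
    rw [hsum2]
    refine lt_of_lt_of_le (lt_min hr ?_) (hv.add _ hyc _ hF'.1)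
    rw [hF'.2]
    exact hmin
  have hall : ∀ d ∈ X, H d = 0 := by
    by_contra hcon
    push Not at hcon
    obtain ⟨d, hdX, hd0⟩ := hcon
    have h6 := v_dec hv (X.filter (fun d => H d ≠ 0)) H
      (fun e he => hHom e (Finset.mem_filter.1 he).1) (fun e he => (Finset.mem_filter.1 he).2)
    rw [Finset.sum_filter_ne_zero] at h6
    rw [h6.2] at hvs
    have h7 : (X.filter (fun d => H d ≠ 0)).min ≤ ((d : ℝ) : WithTop ℝ) :=
      Finset.min_le (Finset.mem_filter.2 ⟨hdX, hd0⟩)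
    have h8 := WithTop.coe_lt_coe.1 (lt_of_lt_of_le hvs h7)
    exact absurd ((hXm d).1 hdX).2 (not_le.2 h8)
  refine ⟨?_, ?_, ?_⟩
  · have h6 := hall 0 ((hXm 0).2 ⟨Or.inr (Or.inl rfl), hβ⟩)
    rw [hH] at h6
    dsimp only at h6
    rw [if_pos rfl, if_neg (fun h7 => lt_irrefl _ (hF 0 h7)), sub_zero] at h6
    by_cases h7 : (0 : ℝ) ∈ E
    · rw [if_pos h7] at h6
      exact ⟨u 0, (sub_eq_zero.1 h6).symm⟩
    · rw [if_neg h7, zero_sub, neg_eq_zero] at h6
      exact ⟨0, by rw [h6, map_zero, map_zero]⟩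
  · intro d hdF hdβ
    have h6 := hall d ((hXm d).2 ⟨Or.inr (Or.inr hdF), hdβ⟩)
    rw [hH] at h6
    dsimp only at h6
    rw [if_neg (hF d hdF).ne', if_pos hdF, sub_zero] at h6
    by_cases h7 : d ∈ E
    · rw [if_pos h7] at h6
      exact ⟨u d, (sub_eq_zero.1 h6).symm⟩
    · rw [if_neg h7, zero_sub, neg_eq_zero] at h6
      exact ⟨0, by rw [h6, map_zero, map_zero]⟩
  · rw [Finset.sum_eq_zero hall] at hsum
    have h6 := sub_eq_zero.1 hsum.symm
    rw [← h6]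
    abel

end Pool.Agent.PDG
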