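import Pool.Agent.PDG.Ext

/-!
# PDG, module Ext2 (helper41): extension of functionals, general form of `ext_row`

The proof is that of `ext_row` (module Ext, by helper27); the hypothesis `H2Zero S` is only used for one cocycle.
-/

set_option autoImplicit false

namespace Pool.Agent.PDG

open Pool.Agent.PDF Matrix

/-- additive extension of a function on the group to the integral group ring -/
private noncomputable def gext {S M : Type} [Group S] [AddCommGroup M] (f : S → M) :
    MonoidAlgebra ℤ S →+ M :=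
  (Finsupp.liftAddHom fun g => zmultiplesHom M (f g)).comp
    (MonoidAlgebra.coeffAddEquiv (R := ℤ) (M := S)).toAddMonoidHom

private theorem gext_single {S M : Type} [Group S] [AddCommGroup M] (f : S → M) (g : S) (n : ℤ) :
    gext f (MonoidAlgebra.single g n) = n • f g := by
  simp [gext]

private theorem single_eq {S : Type} [Group S] (g : S) (n : ℤ) :
    (MonoidAlgebra.single g n : MonoidAlgebra ℤ S) = n • MonoidAlgebra.single g 1 := by
  simp

theorem ext_row2 {S : Type} [Group S] {n0 n1 : Type} [Fintype n0] [Fintype n1]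
    (e0 : Matrix n0 n0 (MonoidAlgebra ℤ S)) (e1 : Matrix n1 n1 (MonoidAlgebra ℤ S))
    (d1 : Matrix n1 n0 (MonoidAlgebra ℤ S)) (m : n0 → ℤ) (h : Base e0 e1 d1 m)
    (φ : (n1 → MonoidAlgebra ℤ S) → MonoidAlgebra ℤ S)
    (hadd : ∀ v w : n1 → MonoidAlgebra ℤ S, v ᵥ* e1 = v → v ᵥ* d1 = 0 → w ᵥ* e1 = w →
      w ᵥ* d1 = 0 → φ (v + w) = φ v + φ w)
    (hsm : ∀ (a : MonoidAlgebra ℤ S) (v : n1 → MonoidAlgebra ℤ S), v ᵥ* e1 = v → v ᵥ* d1 = 0 →
      φ (a • v) = a * φ v)
    (hS : ∀ x : S → n1 → MonoidAlgebra ℤ S,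
      (∀ g j : S,
        (x g + (MonoidAlgebra.single g 1 : MonoidAlgebra ℤ S) • x j - x (g * j)) ᵥ* e1 =
          x g + (MonoidAlgebra.single g 1 : MonoidAlgebra ℤ S) • x j - x (g * j) ∧
        (x g + (MonoidAlgebra.single g 1 : MonoidAlgebra ℤ S) • x j - x (g * j)) ᵥ* d1 = 0) →
      (∀ g h j : S, MonoidAlgebra.single g 1 *
          φ (x h + (MonoidAlgebra.single h 1 : MonoidAlgebra ℤ S) • x j - x (h * j)) +
          φ (x g + (MonoidAlgebra.single g 1 : MonoidAlgebra ℤ S) • x (h * j) - x (g * (h * j))) =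
        φ (x (g * h) + (MonoidAlgebra.single (g * h) 1 : MonoidAlgebra ℤ S) • x j -
            x (g * h * j)) +
          φ (x g + (MonoidAlgebra.single g 1 : MonoidAlgebra ℤ S) • x h - x (g * h))) →
      ∃ c : S → MonoidAlgebra ℤ S, ∀ g j : S,
        φ (x g + (MonoidAlgebra.single g 1 : MonoidAlgebra ℤ S) • x j - x (g * j)) =
          MonoidAlgebra.single g 1 * c j - c (g * j) + c g) :
    ∃ ω : n1 → MonoidAlgebra ℤ S, ∀ v : n1 → MonoidAlgebra ℤ S, v ᵥ* e1 = v → v ᵥ* d1 = 0 →
      φ v = v ⬝ᵥ ω := by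
  classical
  obtain ⟨u, hu0, hu1⟩ := h.one
  have he0 : ∀ j, (e0 j) ᵥ* e0 = e0 j := by
    intro j
    rw [← Matrix.mul_apply_eq_vecMul, h.e0e0]
  have hx : ∀ g : S, ∃ x : n1 → MonoidAlgebra ℤ S, x ᵥ* e1 = x ∧
      x ᵥ* d1 = ((MonoidAlgebra.single g 1 : MonoidAlgebra ℤ S) - 1) • u := by
    intro g
    apply h.lift
    · rw [Matrix.smul_vecMul, hu0]
    · rw [eps_smul, map_sub, aug_single, map_one, sub_self, zero_mul]
  choose x hx1 hx2 using hx
  have hp : ∀ j : n0, ∃ p : n1 → MonoidAlgebra ℤ S, p ᵥ* e1 = p ∧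
      p ᵥ* d1 = e0 j - m j • u := by
    intro j
    apply h.lift
    · rw [Matrix.sub_vecMul, Matrix.smul_vecMul, hu0, he0]
    · rw [eps_sub, h.me0, eps_zsmul, hu1, mul_one, sub_self]
  choose p hp1 hp2 using hp
  -- the submodule of cycles
  let Z : Submodule (MonoidAlgebra ℤ S) (n1 → MonoidAlgebra ℤ S) :=
    { carrier := {v | v ᵥ* e1 = v ∧ v ᵥ* d1 = 0}
      add_mem' := by
        rintro a b ⟨ha, ha'⟩ ⟨hb, hb'⟩
        exact ⟨by rw [Matrix.add_vecMul, ha, hb], by rw [Matrix.add_vecMul, ha', hb', add_zero]⟩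
      zero_mem' := ⟨Matrix.zero_vecMul _, Matrix.zero_vecMul _⟩
      smul_mem' := by
        rintro a b ⟨hb, hb'⟩
        exact ⟨by rw [Matrix.smul_vecMul, hb], by rw [Matrix.smul_vecMul, hb', smul_zero]⟩ }
  have memZ : ∀ v, v ∈ Z ↔ v ᵥ* e1 = v ∧ v ᵥ* d1 = 0 := fun v => Iff.rfl
  have φadd : ∀ v ∈ Z, ∀ w ∈ Z, φ (v + w) = φ v + φ w :=
    fun v hv w hw => hadd v w hv.1 hv.2 hw.1 hw.2
  have φsm : ∀ a : MonoidAlgebra ℤ S, ∀ v ∈ Z, φ (a • v) = a * φ v :=
    fun a v hv => hsm a v hv.1 hv.2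
  have φ0 : φ 0 = 0 := by
    have := φsm 0 0 Z.zero_mem
    rwa [smul_zero, zero_mul] at this
  have φz : ∀ n : ℤ, ∀ v ∈ Z, φ (n • v) = n • φ v := by
    intro n v hv
    have h1 := φsm (n : MonoidAlgebra ℤ S) v hv
    rw [Int.cast_smul_eq_zsmul, ← zsmul_eq_mul] at h1
    exact h1
  have zmem : ∀ n : ℤ, ∀ v ∈ Z, n • v ∈ Z := fun n v hv => Z.toAddSubgroup.zsmul_mem hv n
  -- the cocycle
  let F : S → S → (n1 → MonoidAlgebra ℤ S) := fun g j =>
    x g + (MonoidAlgebra.single g 1 : MonoidAlgebra ℤ S) • x j - x (g * j)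
  have hFZ : ∀ g j, F g j ∈ Z := by
    intro g j
    rw [memZ]
    constructor
    · simp only [F]
      rw [Matrix.sub_vecMul, Matrix.add_vecMul, Matrix.smul_vecMul, hx1, hx1, hx1]
    · simp only [F]
      rw [Matrix.sub_vecMul, Matrix.add_vecMul, Matrix.smul_vecMul, hx2, hx2, hx2, smul_smul,
        ← add_smul, ← sub_smul]
      have : (MonoidAlgebra.single g 1 : MonoidAlgebra ℤ S) - 1 +
          MonoidAlgebra.single g 1 * (MonoidAlgebra.single j 1 - 1) -
          (MonoidAlgebra.single (g * j) 1 - 1) = 0 := by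
        rw [mul_sub, MonoidAlgebra.single_mul_single, mul_one, mul_one]
        abel
      rw [this, zero_smul]
  obtain ⟨c, hc⟩ := hS x hFZ (by
    intro g a j
    show MonoidAlgebra.single g 1 * φ (F a j) + φ (F g (a * j)) =
      φ (F (g * a) j) + φ (F g a)
    rw [← φsm _ _ (hFZ a j), ← φadd _ (Z.smul_mem _ (hFZ a j)) _ (hFZ g (a * j)),
      ← φadd _ (hFZ (g * a) j) _ (hFZ g a)]
    congr 1
    simp only [F]
    rw [smul_sub, smul_add, smul_smul, MonoidAlgebra.single_mul_single, mul_one, mul_assoc]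
    abel)
  -- additive extensions
  let X : MonoidAlgebra ℤ S →+ (n1 → MonoidAlgebra ℤ S) := gext x
  let c' : MonoidAlgebra ℤ S →+ MonoidAlgebra ℤ S := gext c
  have hXs : ∀ g n, X (MonoidAlgebra.single g n) = n • x g := gext_single x
  have hcs : ∀ g n, c' (MonoidAlgebra.single g n) = n • c g := gext_single c
  have hXe1 : ∀ a, X a ᵥ* e1 = X a := by
    intro a
    induction a using MonoidAlgebra.induction_linear with
    | zero => rw [map_zero, Matrix.zero_vecMul]
    | add a b ha hb => rw [map_add, Matrix.add_vecMul, ha, hb]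
    | single g n => rw [hXs, Matrix.smul_vecMul, hx1]
  have hXd1 : ∀ a, X a ᵥ* d1 = (a - MonoidAlgebra.single 1 (aug a)) • u := by
    intro a
    induction a using MonoidAlgebra.induction_linear with
    | zero => rw [map_zero, Matrix.zero_vecMul, map_zero, MonoidAlgebra.single_zero, sub_zero,
        zero_smul]
    | add a b ha hb =>
      rw [map_add, Matrix.add_vecMul, ha, hb, map_add, MonoidAlgebra.single_add, ← add_smul]
      congr 1
      abel
    | single g n =>
      rw [hXs, Matrix.smul_vecMul, hx2, aug_single, ← smul_assoc]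
      congr 1
      rw [smul_sub, MonoidAlgebra.one_def]
      simp
  -- the comparison of `X` with left multiplication
  have hD : ∀ (g : S) (a : MonoidAlgebra ℤ S),
      (MonoidAlgebra.single g 1 : MonoidAlgebra ℤ S) • X a + aug a • x g -
        X (MonoidAlgebra.single g 1 * a) ∈ Z ∧
      φ ((MonoidAlgebra.single g 1 : MonoidAlgebra ℤ S) • X a + aug a • x g -
        X (MonoidAlgebra.single g 1 * a)) =
        MonoidAlgebra.single g 1 * c' a + aug a • c g - c' (MonoidAlgebra.single g 1 * a) := by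
    intro g a
    induction a using MonoidAlgebra.induction_linear with
    | zero =>
      simp only [map_zero, smul_zero, zero_smul, mul_zero, add_zero, sub_zero]
      exact ⟨Z.zero_mem, φ0⟩
    | add a b ha hb =>
      have h1 : (MonoidAlgebra.single g 1 : MonoidAlgebra ℤ S) • X (a + b) + aug (a + b) • x g -
          X (MonoidAlgebra.single g 1 * (a + b)) =
          ((MonoidAlgebra.single g 1 : MonoidAlgebra ℤ S) • X a + aug a • x g -
            X (MonoidAlgebra.single g 1 * a)) +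
          ((MonoidAlgebra.single g 1 : MonoidAlgebra ℤ S) • X b + aug b • x g -
            X (MonoidAlgebra.single g 1 * b)) := by
        rw [map_add, map_add, mul_add, map_add, smul_add, add_smul]
        abel
      rw [h1]
      refine ⟨Z.add_mem ha.1 hb.1, ?_⟩
      rw [φadd _ ha.1 _ hb.1, ha.2, hb.2, map_add, map_add, mul_add, mul_add, map_add, add_smul]
      abel
    | single j n =>
      have h1 : (MonoidAlgebra.single g 1 : MonoidAlgebra ℤ S) • X (MonoidAlgebra.single j n) +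
          aug (MonoidAlgebra.single j n) • x g -
          X (MonoidAlgebra.single g 1 * MonoidAlgebra.single j n) = n • F g j := by
        rw [hXs, aug_single, MonoidAlgebra.single_mul_single, one_mul, hXs]
        simp only [F]
        rw [smul_sub, smul_add, smul_comm n (MonoidAlgebra.single g 1 : MonoidAlgebra ℤ S) (x j)]
        abel
      rw [h1]
      refine ⟨zmem n _ (hFZ g j), ?_⟩
      rw [φz n _ (hFZ g j)]
      have h2 : φ (F g j) = MonoidAlgebra.single g 1 * c j - c (g * j) + c g := hc g j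
      rw [h2, hcs, aug_single, MonoidAlgebra.single_mul_single, one_mul, hcs, smul_add, smul_sub,
        mul_smul_comm]
      abel
  -- matrices
  let P : Matrix n0 n1 (MonoidAlgebra ℤ S) := Matrix.of p
  let U : Matrix n0 n0 (MonoidAlgebra ℤ S) := Matrix.of fun j => m j • u
  have hPe1 : P * e1 = P := by
    ext1 i j
    rw [Matrix.mul_apply_eq_vecMul]
    show ((p i) ᵥ* e1) j = p i j
    rw [hp1]
  have hPd1 : P * d1 = e0 - U := by
    ext1 i j
    rw [Matrix.mul_apply_eq_vecMul]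
    show ((p i) ᵥ* d1) j = (e0 - U) i j
    rw [hp2]
    rfl
  let b : (n0 → MonoidAlgebra ℤ S) → MonoidAlgebra ℤ S := fun w => ∑ j, m j • w j
  have hb_add : ∀ w w', b (w + w') = b w + b w' := by
    intro w w'
    simp only [b, Pi.add_apply, smul_add, Finset.sum_add_distrib]
  have hb_smul : ∀ a w, b (a • w) = a * b w := by
    intro a w
    simp only [b, Pi.smul_apply, smul_eq_mul, Finset.mul_sum, mul_smul_comm]
  have hbU : ∀ w, w ᵥ* U = b w • u := by
    intro w
    rw [Matrix.vecMul_eq_sum]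
    simp only [b]
    rw [Finset.sum_smul]
    refine Finset.sum_congr rfl fun j _ => ?_
    show w j • (m j • u) = (m j • w j) • u
    rw [smul_assoc, smul_comm]
  have hb_aug : ∀ v : n1 → MonoidAlgebra ℤ S, aug (b (v ᵥ* d1)) = 0 := by
    intro v
    have h1 : aug (b (v ᵥ* d1)) = eps m (v ᵥ* d1) := by
      simp only [b, eps, map_sum, map_zsmul, smul_eq_mul]
      exact Finset.sum_congr rfl fun j _ => mul_comm _ _
    rw [h1, eps_vecMul]
    exact Finset.sum_eq_zero fun i _ => by rw [h.md1, mul_zero]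
  -- the projection to the cycles
  let r : (n1 → MonoidAlgebra ℤ S) → (n1 → MonoidAlgebra ℤ S) := fun v =>
    v ᵥ* e1 - (v ᵥ* d1) ᵥ* P - X (b (v ᵥ* d1))
  have hr_add : ∀ v v', r (v + v') = r v + r v' := by
    intro v v'
    simp only [r]
    rw [Matrix.add_vecMul, Matrix.add_vecMul, Matrix.add_vecMul, hb_add, map_add]
    abel
  have hrZ : ∀ v, r v ∈ Z := by
    intro v
    rw [memZ]
    constructor
    · simp only [r]
      rw [Matrix.sub_vecMul, Matrix.sub_vecMul, hXe1, Matrix.vecMul_vecMul, h.e1e1,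
        Matrix.vecMul_vecMul (v ᵥ* d1) P e1, hPe1]
    · simp only [r]
      rw [Matrix.sub_vecMul, Matrix.sub_vecMul, hXd1, Matrix.vecMul_vecMul v e1 d1, h.e1d1,
        Matrix.vecMul_vecMul (v ᵥ* d1) P d1, hPd1, Matrix.vecMul_sub, hbU,
        Matrix.vecMul_vecMul v d1 e0, h.d1e0, hb_aug, MonoidAlgebra.single_zero, sub_zero]
      abel
  let ψ : (n1 → MonoidAlgebra ℤ S) → MonoidAlgebra ℤ S := fun v =>
    φ (r v) + c' (b (v ᵥ* d1))
  have hψ_add : ∀ v v', ψ (v + v') = ψ v + ψ v' := by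
    intro v v'
    simp only [ψ]
    rw [hr_add, φadd _ (hrZ v) _ (hrZ v'), Matrix.add_vecMul, hb_add, map_add]
    abel
  let Ψ : (n1 → MonoidAlgebra ℤ S) →+ MonoidAlgebra ℤ S := AddMonoidHom.mk' ψ hψ_add
  have hΨ : ∀ v, Ψ v = ψ v := fun v => rfl
  have hψ_g : ∀ (g : S) (v : n1 → MonoidAlgebra ℤ S),
      ψ ((MonoidAlgebra.single g 1 : MonoidAlgebra ℤ S) • v) = MonoidAlgebra.single g 1 * ψ v := by
    intro g v
    obtain ⟨hD1, hD2⟩ := hD g (b (v ᵥ* d1))
    rw [hb_aug, zero_smul, add_zero] at hD1 hD2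
    rw [zero_smul, add_zero] at hD2
    have h1 : r ((MonoidAlgebra.single g 1 : MonoidAlgebra ℤ S) • v) =
        (MonoidAlgebra.single g 1 : MonoidAlgebra ℤ S) • r v +
        ((MonoidAlgebra.single g 1 : MonoidAlgebra ℤ S) • X (b (v ᵥ* d1)) -
          X (MonoidAlgebra.single g 1 * b (v ᵥ* d1))) := by
      simp only [r]
      rw [Matrix.smul_vecMul, Matrix.smul_vecMul, Matrix.smul_vecMul, hb_smul, smul_sub, smul_sub]
      abel
    simp only [ψ]
    rw [h1, φadd _ (Z.smul_mem _ (hrZ v)) _ hD1, φsm _ _ (hrZ v), hD2, Matrix.smul_vecMul, hb_smul,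
      mul_add]
    abel
  have hψ_sm : ∀ (a : MonoidAlgebra ℤ S) (v : n1 → MonoidAlgebra ℤ S), ψ (a • v) = a * ψ v := by
    intro a v
    induction a using MonoidAlgebra.induction_linear with
    | zero => rw [zero_smul, zero_mul, ← hΨ, map_zero]
    | add a a' ha ha' => rw [add_smul, add_mul, hψ_add, ha, ha']
    | single g n =>
      rw [single_eq g n, smul_assoc, ← hΨ, map_zsmul, hΨ, hψ_g, smul_mul_assoc]
  refine ⟨fun i => ψ (Pi.single i 1), fun v hv1 hv2 => ?_⟩
  have h1 : φ v = ψ v := by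
    simp only [ψ, r]
    have hb0 : b (0 : n0 → MonoidAlgebra ℤ S) = 0 := by simp [b]
    rw [hv2, hb0, map_zero, map_zero, Matrix.zero_vecMul, hv1]
    simp
  have hv : v = ∑ i, v i • (Pi.single i (1 : MonoidAlgebra ℤ S) : n1 → MonoidAlgebra ℤ S) := by
    funext j
    simp [Finset.sum_apply, Pi.single_apply]
  rw [h1, ← hΨ]
  conv_lhs => rw [hv]
  rw [map_sum]
  simp only [hΨ, hψ_sm]
  rfl

end Pool.Agent.PDG
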