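import Pool.Agent.PDG.Lin
import Pool.Agent.HFT.OV

/-!
# Blueprint PDG, module Gr (helper41): graded data in the division rings

Notation: `al θ π a = θ (single (π a) 1)`; `Dat π τ L0`: `τ : N → ℝ` is additive, `τ a = 0 ↔ π a ∈ L0`,
`L0 ≤ π.range`.
PROOF of `gr`.  `hτ` is `Dat.add`.  `norm`: conjugation by `al θ π a` maps the generators `θ (single b r)` (`DB_single`),
`b ∈ L0`, to `θ (single (π a * b * (π a)⁻¹) r)`; `b = π b'` by `le`, `τ b' = 0`, so `τ (a b' a⁻¹) = 0` and
`π a * b * (π a)⁻¹ ∈ L0` by `ker`.  Conjugation by a unit is a ring automorphism, hence it maps the division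
subring in itself (`Subfield.closure_induction`, or `Subfield.comap`).  `ker`: `τ a = 0` gives `π a ∈ L0`, so
`al θ π a ∈ DB θ L0` (`single_mem_KB`, `mem_DB_of_KB`).  `ind` is `OreEmb.indep` with `g l = π (a l)`: if
`(π (a l))⁻¹ * π (a l') ∈ L0` then `τ ((a l)⁻¹ * a l') = 0`, so `τ (a l) = τ (a l')` and `l = l'` by injectivity.
PROOF of `gr_closure`.  `≤`: `DB θ L0 ≤ DB θ π.range` (`DB_mono`) and `al θ π a ∈ DB θ π.range`.
`≥`: by `DB_single` the ring `DB θ π.range` is generated by the `θ (single (π a) r) = al θ π a * θ (single 1 r)`, and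
`θ (single 1 r) ∈ DB θ L0`.
-/

set_option autoImplicit false

namespace Pool.Agent.PDG

open Pool.Agent.HFT

variable {Γ : Type} [Group Γ] {D : Type} [DivisionRing D] {θ : MonoidAlgebra ℚ Γ →+* D}
  {N : Type} [Group N] {π : N →* Γ} {τ : N → ℝ} {L0 : Subgroup Γ}

theorem Dat.neg (hd : Dat π τ L0) : Dat π (fun a => -τ a) L0 :=
  ⟨fun a b => by rw [hd.add]; ring, hd.le, fun a => by rw [neg_eq_zero]; exact hd.ker a⟩

theorem gr (h : OreEmb θ) (hd : Dat π τ L0) : GrData (al θ π) τ (DB θ L0) := by
  have hτ1 : τ 1 = 0 := by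
    have := hd.add 1 1
    rw [mul_one] at this
    linarith
  have hτinv : ∀ a, τ a⁻¹ = -τ a := by
    intro a
    have := hd.add a a⁻¹
    rw [mul_inv_cancel, hτ1] at this
    linarith
  refine ⟨hd.add, ?_, ?_, ?_⟩
  · intro a x hx
    have hal : al θ π a * al θ π a⁻¹ = 1 := by rw [← map_mul, mul_inv_cancel, map_one]
    have hal' : al θ π a⁻¹ * al θ π a = 1 := by rw [← map_mul, inv_mul_cancel, map_one]
    rw [DB_single] at hx ⊢
    induction hx using Subfield.closure_induction with
    | mem x hx =>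
      obtain ⟨b, hb, r, rfl⟩ := hx
      refine Subfield.subset_closure ⟨π a * b * π a⁻¹, ?_, r, ?_⟩
      · obtain ⟨b', rfl⟩ := hd.le hb
        rw [← map_mul, ← map_mul]
        rw [← hd.ker] at hb ⊢
        rw [hd.add, hd.add, hb, hτinv]
        ring
      · rw [al_apply, al_apply, ← map_mul, ← map_mul, MonoidAlgebra.single_mul_single,
          MonoidAlgebra.single_mul_single, one_mul, mul_one]
    | one =>
      rw [mul_one, hal]
      exact one_mem _
    | add x y hx hy ihx ihy =>
      rw [mul_add, add_mul]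
      exact add_mem ihx ihy
    | neg x hx ihx =>
      rw [mul_neg, neg_mul]
      exact neg_mem ihx
    | inv x hx ihx =>
      have e : al θ π a * x⁻¹ * al θ π a⁻¹ = (al θ π a * x * al θ π a⁻¹)⁻¹ := by
        rw [mul_inv_rev, mul_inv_rev, inv_eq_of_mul_eq_one_left hal, inv_eq_of_mul_eq_one_left hal',
          mul_assoc]
      rw [e]
      exact inv_mem ihx
    | mul x y hx hy ihx ihy =>
      have e : al θ π a * (x * y) * al θ π a⁻¹ =
          (al θ π a * x * al θ π a⁻¹) * (al θ π a * y * al θ π a⁻¹) := by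
        calc al θ π a * (x * y) * al θ π a⁻¹
            = al θ π a * x * 1 * y * al θ π a⁻¹ := by simp only [mul_assoc, one_mul]
          _ = al θ π a * x * (al θ π a⁻¹ * al θ π a) * y * al θ π a⁻¹ := by rw [hal']
          _ = _ := by simp only [mul_assoc]
      rw [e]
      exact mul_mem ihx ihy
  · intro a ha
    rw [al_apply]
    exact mem_DB_of_KB θ (single_mem_KB ((hd.ker a).1 ha) 1)
  · intro n a c hinj hc hs
    refine h.indep L0 n (fun l => π (a l)) (fun l l' hll => ?_) c hc hs
    rw [← map_inv, ← map_mul, ← hd.ker, hd.add, hτinv] at hll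
    apply hinj
    change τ (a l) = τ (a l')
    linarith

theorem gr_closure (θ : MonoidAlgebra ℚ Γ →+* D) (hd : Dat π τ L0) :
    Subfield.closure (((DB θ L0 : Subfield D) : Set D) ∪ Set.range (al θ π)) = DB θ π.range := by
  apply le_antisymm
  · rw [Subfield.closure_le]
    rintro x (hx | ⟨a, rfl⟩)
    · exact DB_mono θ hd.le hx
    · rw [al_apply]
      exact mem_DB_of_KB θ (single_mem_KB (MonoidHom.mem_range.2 ⟨a, rfl⟩) 1)
  · rw [DB_single θ π.range, Subfield.closure_le]
    rintro x ⟨b, ⟨a, rfl⟩, r, rfl⟩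
    have e : θ (MonoidAlgebra.single (π a) r) = al θ π a * θ (MonoidAlgebra.single 1 r) := by
      rw [al_apply, ← map_mul, MonoidAlgebra.single_mul_single, mul_one, one_mul]
    rw [e]
    exact mul_mem (Subfield.subset_closure (Or.inr ⟨a, rfl⟩))
      (Subfield.subset_closure (Or.inl (mem_DB_of_KB θ (single_mem_KB (one_mem L0) r))))

end Pool.Agent.PDG
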