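import Pool.Agent.PDG.Gr

/-!
# Blueprint PDG, module Grd (helper41; proof by helper18): homogeneous parts of an element of the integral group ring

PROOF.  By `OreEmb.supp` the support of `zq y`, that is, the support of `y` (`zq_coeff`), is contained in `π.range`.
For `g ∈ π.range` let `t g = τ a` for a chosen `a` with `π a = g`; if also `π a' = g` then
`π (a⁻¹ a') = 1 ∈ L0`, so `τ a' = τ a`: `t (π a) = τ a` for all `a`.  Let `E` be the image of the support of `y`
under `t`, and `u d` the part of `y` on the elements `g` of the support with `t g = d` (the finite sum of the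
`single g (y.coeff g)`).  Then `y = ∑ d ∈ E, u d` and `u d ≠ 0` for `d ∈ E`.  For `d ∈ E` choose `a` with
`τ a = d`, `π a` in the support.  `θ (zq (u d)) = al θ π a * θ (single (π a)⁻¹ 1 * zq (u d))`, and the support of
`single (π a)⁻¹ 1 * zq (u d)` consists of elements `(π a)⁻¹ π b`, `τ b = d`, which are in `L0` by
`Dat.ker`; so this is in `HomSet (al θ π) τ (DB θ L0) d` (`mem_DB_of_KB`).
-/

set_option autoImplicit false

namespace Pool.Agent.PDG

open Pool.Agent.HFT

variable {Γ : Type} [Group Γ] {D : Type} [DivisionRing D] {θ : MonoidAlgebra ℚ Γ →+* D}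
  {N : Type} [Group N] {π : N →* Γ} {τ : N → ℝ} {L0 : Subgroup Γ}

private theorem grd_deg (hd : Dat π τ L0) : ∃ t : Γ → ℝ, ∀ a : N, t (π a) = τ a := by
  classical
  refine ⟨fun g => if h : ∃ a, π a = g then τ h.choose else 0, fun a => ?_⟩
  have h : ∃ b, π b = π a := ⟨a, rfl⟩
  dsimp only
  rw [dif_pos h]
  have h1 := h.choose_spec
  have h2 : τ (a⁻¹ * h.choose) = 0 := by
    rw [hd.ker, map_mul, h1, map_inv, inv_mul_cancel]
    exact one_mem L0
  have h3 := hd.add a (a⁻¹ * h.choose)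
  rw [mul_inv_cancel_left, h2, add_zero] at h3
  exact h3

theorem grd (h : OreEmb θ) (hd : Dat π τ L0) (y : MonoidAlgebra ℤ Γ)
    (hy : θ (zq y) ∈ DB θ π.range) :
    ∃ (E : Finset ℝ) (u : ℝ → MonoidAlgebra ℤ Γ), y = ∑ d ∈ E, u d ∧ (∀ d ∈ E, u d ≠ 0) ∧
      (∀ d ∈ E, θ (zq (u d)) ∈ HomSet (al θ π) τ (DB θ L0) d) ∧
      (∀ d ∈ E, ∃ a : N, τ a = d ∧ y.coeff (π a) ≠ 0) ∧
      (∀ a : N, y.coeff (π a) ≠ 0 → τ a ∈ E) := by
  classical
  obtain ⟨t, ht⟩ := grd_deg hd
  have hs := h.supp π.range _ hy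
  rw [mem_KB] at hs
  have hr : ∀ g, y.coeff g ≠ 0 → ∃ a, π a = g := fun g hg => by
    have := hs g (by rw [zq_coeff]; exact_mod_cast hg)
    exact this
  have hE : ∀ d ∈ y.coeff.support.image t, ∃ a : N, τ a = d ∧ y.coeff (π a) ≠ 0 := by
    intro d hd'
    obtain ⟨g, hg, rfl⟩ := Finset.mem_image.1 hd'
    rw [Finsupp.mem_support_iff] at hg
    obtain ⟨a, rfl⟩ := hr g hg
    exact ⟨a, (ht a).symm, hg⟩
  have hu : ∀ (d : ℝ) (g : Γ), (MonoidAlgebra.ofCoeff
      (y.coeff.filter (fun g => t g = d)) : MonoidAlgebra ℤ Γ).coeff g =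
      if t g = d then y.coeff g else 0 := fun d g => by
    rw [MonoidAlgebra.coeff_ofCoeff, Finsupp.filter_apply]
  refine ⟨y.coeff.support.image t, fun d => MonoidAlgebra.ofCoeff
    (y.coeff.filter (fun g => t g = d)), ?_, ?_, ?_, hE, ?_⟩
  · rw [← MonoidAlgebra.coeff_inj]
    ext g
    rw [MonoidAlgebra.coeff_sum, Finsupp.finsetSum_apply]
    simp only [hu]
    rw [Finset.sum_ite_eq]
    by_cases hg : y.coeff g = 0
    · rw [hg, ite_self]
    · rw [if_pos (Finset.mem_image.2 ⟨g, Finsupp.mem_support_iff.2 hg, rfl⟩)]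
  · intro d hd' h0
    obtain ⟨a, ha, ha'⟩ := hE d hd'
    have h1 := hu d (π a)
    dsimp only at h0
    rw [h0, ht, if_pos ha] at h1
    exact ha' h1.symm
  · intro d hd'
    obtain ⟨a, ha, ha'⟩ := hE d hd'
    refine ⟨a, ha, θ (MonoidAlgebra.single (π a)⁻¹ 1 * zq (MonoidAlgebra.ofCoeff
      (y.coeff.filter (fun g => t g = d)))), ?_, ?_⟩
    · apply mem_DB_of_KB
      rw [mem_KB]
      intro g hg
      rw [MonoidAlgebra.coeff_single_mul_apply, inv_inv, one_mul, zq_coeff, hu] at hg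
      by_cases h1 : t (π a * g) = d
      · rw [if_pos h1] at hg
        obtain ⟨b, hb⟩ := hr (π a * g) (by exact_mod_cast hg)
        rw [← hb, ht] at h1
        have h2 : g = π (a⁻¹ * b) := by rw [map_mul, map_inv, hb, inv_mul_cancel_left]
        rw [h2, ← hd.ker]
        have h3 := hd.add a (a⁻¹ * b)
        rw [mul_inv_cancel_left, h1, ha] at h3
        linarith
      · rw [if_neg h1] at hg
        exact absurd (by norm_num) hg
    · rw [al_apply, ← map_mul, ← mul_assoc, MonoidAlgebra.single_mul_single, mul_inv_cancel,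
        mul_one, ← MonoidAlgebra.one_def, one_mul]
  · intro a ha
    exact Finset.mem_image.2 ⟨π a, Finsupp.mem_support_iff.2 ha, ht a⟩

end Pool.Agent.PDG
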