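import Pool.Agent.PDG.StepU
import Pool.Agent.PDG.Conrad
import Pool.Agent.HFT.TG

/-!
# Blueprint PDG, module Ind (helper41): integral rational elements are in the group ring

THEOREM.  An element of the division ring generated by `S` in the ultraproduct which is internal and integral comes
from `ℤ[S]`.

PROOF.  Take `CS` by `exists_conrad`, `T := ts hN Y CS hc` (a `TSet`, `ι = Unit`).  Let
`P : Set (∀ q : Unit, T.D q) := {x | Y.Int (x ()) → ∃ y, x () = Y.Z y}`.  Claim `T.T ⊆ P`: by `T.T_ind` (`HFT.TB`) it is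
enough that `T.Phi (P ∩ T.T) ⊆ P`.  Let `x ∈ T.Phi (P ∩ T.T)` with `Y.Int (x ())`.  If `x = 0` take `y = 0`.  Otherwise at the
position `k = 1` there is `a : (⊤ : Subgroup S)` with `T.Nrm (P ∩ T.T) 1 (T.al a⁻¹ * x)`.  Let `u = T.al a⁻¹ * x`;
`u () = Y.A a⁻¹ * x ()` is internal (`Int_A`, `Int_mul`).  It is enough to find `y` with `u () = Y.Z y`; then
`x () = Y.Z (single a 1 * y)`.  Cases of `Nrm`:
`scal r`: `u () = Y.R r`; `Y.Int` says that for almost all `m`, so for some `m`,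
`Y.r m r = θ m (single 1 r) = θ m (zq y')`, so `single 1 r = zq y'` (`OreEmb.inj`) and `r = (y'.coeff 1 : ℚ)` is an
integer `c`; `u () = Y.Z (single 1 c)` (`Z_single`).
`step i u u0 hu h0 hP hN' hA`: `u () ∈ GU Y (CS.Le 1 i)`, `u0 () ∈ GU Y (CS.Lt 1 i)` (`ts_Dl`), `u0 ∈ P`.  Take `β` by
`stepU` for `u ()`.  `hA β` gives `F`, `w` with `w d ∈ T.Hm (P ∩ T.T) 1 i d`: `w d = T.al (a d) * c d`,
`(a d : S) ∈ CS.Le 1 i`, `CS.deg 1 i (a d) = d`, `c d ∈ T.cl (CS.Lt 1 i)`, `c d ∈ P`, and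
`T.Big 1 i β (u - u0 - ∑ d ∈ F, w d)`: its second part says `β < T.val () 1 i ((u - u0 - ∑ w d) ())`.  With
`v = T.val () 1 i` (`ts_val`) `stepU` gives: `Y.Int (u0 ())`, so `u0 () = Y.Z y0` as `u0 ∈ P`; for `d ∈ F`, `d ≤ β`:
`Y.Int (w d ())`, so `c d () = Y.A (a d)⁻¹ * w d ()` is internal, `c d () = Y.Z (y d)` as `c d ∈ P`; and
`u () = u0 () + ∑ d ∈ F with d ≤ β, w d () = Y.Z (y0 + ∑ single (a d) 1 * y d)`.
Finally let `x ∈ GU Y ⊤ = T.Dl () ⊤`; by `T.Gen_lift` (`HFT.TG`) there is `x'` with `T.Gen ⊤ x'`, `x' () = x`, and `x' ∈ T.T`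
by `T.T_eq`.
-/

set_option autoImplicit false

namespace Pool.Agent.PDG

open Pool.Agent.HFT Pool.Agent.PDF

variable {S : Type} [Group S] {N : ℕ → Subgroup S} [∀ n, (N n).Normal]

private theorem scal_case (Y : Sys N) (r : ℚ) (hi : Y.Int (Y.R r)) :
    ∃ y : MonoidAlgebra ℤ S, Y.R r = Y.Z y := by
  obtain ⟨y, hy⟩ := hi
  rw [Sys.R_apply, mkU_eq_iff] at hy
  obtain ⟨m, hm⟩ := hy.exists
  have h1 : Y.θ m (MonoidAlgebra.single 1 r) = Y.θ m (zq (y m)) := hm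
  have h2 := (Y.ore m).inj h1
  have h3 : r = (((y m).coeff 1 : ℤ) : ℚ) := by
    rw [← zq_coeff, ← h2]
    simp
  refine ⟨MonoidAlgebra.single 1 ((y m).coeff 1), ?_⟩
  rw [Z_single, map_one, one_mul, ← h3]

section

variable (hN : Ser N) (Y : Sys N) (CS : ConradSys S)
    (hc : ∀ i : CS.I, ∃ n, ∀ g ∈ N n, CS.lev g < (i : WithBot CS.I))

/-- the only component -/
private noncomputable def pj (x : ∀ q : Unit, (ts hN Y CS hc).D q) : Y.U := x ()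

private theorem pj_zero : pj hN Y CS hc 0 = 0 := rfl

private theorem pj_add (x y : ∀ q : Unit, (ts hN Y CS hc).D q) :
    pj hN Y CS hc (x + y) = pj hN Y CS hc x + pj hN Y CS hc y := rfl

private theorem pj_sub (x y : ∀ q : Unit, (ts hN Y CS hc).D q) :
    pj hN Y CS hc (x - y) = pj hN Y CS hc x - pj hN Y CS hc y := rfl

private theorem pj_mul (x y : ∀ q : Unit, (ts hN Y CS hc).D q) :
    pj hN Y CS hc (x * y) = pj hN Y CS hc x * pj hN Y CS hc y := rfl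

private theorem pj_al (a : (⊤ : Subgroup S)) :
    pj hN Y CS hc ((ts hN Y CS hc).al a) = Y.A (a : S) := rfl

private theorem pj_ro (r : ℚ) : pj hN Y CS hc ((ts hN Y CS hc).ro r) = Y.R r := rfl

private theorem pj_sum (F : Finset ℝ) (w : ℝ → ∀ q : Unit, (ts hN Y CS hc).D q) :
    pj hN Y CS hc (∑ d ∈ F, w d) = ∑ d ∈ F, pj hN Y CS hc (w d) := by
  classical
  induction F using Finset.induction_on with
  | empty => rw [Finset.sum_empty, Finset.sum_empty]; rfl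
  | insert d F hd ih => rw [Finset.sum_insert hd, Finset.sum_insert hd, pj_add, ih]

private theorem pj_cl {B : Subgroup S} {x : ∀ q : Unit, (ts hN Y CS hc).D q}
    (h : x ∈ (ts hN Y CS hc).cl B) : pj hN Y CS hc x ∈ GU Y B := by
  have h1 : x () ∈ (ts hN Y CS hc).Dl () B := h ()
  rw [ts_Dl] at h1
  exact h1

private theorem hm_case (P : Set (∀ q : Unit, (ts hN Y CS hc).D q)) (i : CS.I) (d : ℝ)
    (w : ∀ q : Unit, (ts hN Y CS hc).D q) (h : w ∈ (ts hN Y CS hc).Hm P 1 i d) :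
    ∃ a : S, a ∈ CS.Le 1 i ∧ CS.deg 1 i a = d ∧ ∃ c ∈ P, pj hN Y CS hc c ∈ GU Y (CS.Lt 1 i) ∧
      pj hN Y CS hc w = Y.A a * pj hN Y CS hc c := by
  obtain ⟨a, ha, hda, c, hcl, hcP, hw⟩ := h
  refine ⟨a, ha, hda, c, hcP, pj_cl hN Y CS hc hcl, ?_⟩
  rw [hw, pj_mul, pj_al]

private theorem step_case (P : Set (∀ q : Unit, (ts hN Y CS hc).D q))
    (hP : ∀ x ∈ P, Y.Int (pj hN Y CS hc x) → ∃ y : MonoidAlgebra ℤ S, pj hN Y CS hc x = Y.Z y)
    (i : CS.I) (u u0 : ∀ q : Unit, (ts hN Y CS hc).D q)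
    (hu : u ∈ (ts hN Y CS hc).cl (CS.Le 1 i)) (h0 : u0 ∈ (ts hN Y CS hc).cl (CS.Lt 1 i))
    (hPu : u0 ∈ P) (hA : (ts hN Y CS hc).App P 1 i (u - u0)) (hi : Y.Int (pj hN Y CS hc u)) :
    ∃ y : MonoidAlgebra ℤ S, pj hN Y CS hc u = Y.Z y := by
  obtain ⟨β, hβ, H⟩ := stepU hN Y CS hc i _ (pj_cl hN Y CS hc hu) hi
  obtain ⟨F, w, hF, hw, hB⟩ := hA β
  have hw2 : ∀ d ∈ F, ∃ a : S, a ∈ CS.Le 1 i ∧ CS.deg 1 i a = d ∧ ∃ c ∈ P,
      pj hN Y CS hc c ∈ GU Y (CS.Lt 1 i) ∧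
      pj hN Y CS hc (w d) = Y.A a * pj hN Y CS hc c := fun d hd =>
    hm_case hN Y CS hc P i d (w d) (hw d hd)
  have hw' : ∀ d ∈ F, pj hN Y CS hc (w d) ∈ HomSet (Y.A.comp (CS.Le 1 i).subtype)
      (fun a => CS.deg 1 i (a : S)) (GU Y (CS.Lt 1 i)) d := by
    intro d hd
    obtain ⟨a, ha, hda, c, -, hcl, hw⟩ := hw2 d hd
    exact ⟨⟨a, ha⟩, hda, pj hN Y CS hc c, hcl, hw⟩
  have hB3 : (β : WithTop ℝ) < (ts hN Y CS hc).val () 1 i
      (pj hN Y CS hc (u - u0 - ∑ d ∈ F, w d)) := hB.2 ()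
  rw [pj_sub, pj_sub, pj_sum] at hB3
  obtain ⟨hI0, hIw, hsum⟩ := H (pj hN Y CS hc u0) (pj_cl hN Y CS hc h0) F hF
    (fun d => pj hN Y CS hc (w d)) hw'
    ((ts hN Y CS hc).val () 1 i) (ts_val hN Y CS hc 1 i) hB3
  obtain ⟨y0, hy0⟩ := hP u0 hPu hI0
  have hz : ∀ d ∈ F.filter (fun d => d ≤ β), ∃ y : MonoidAlgebra ℤ S,
      pj hN Y CS hc (w d) = Y.Z y := by
    intro d hd
    obtain ⟨hdF, hdβ⟩ := Finset.mem_filter.1 hd
    obtain ⟨a, ha, hda, c, hcP, hcl, h2⟩ := hw2 d hdF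
    have h1 : Y.Int (pj hN Y CS hc (w d)) := hIw d hdF hdβ
    have h3 : pj hN Y CS hc c = Y.A a⁻¹ * pj hN Y CS hc (w d) := by
      rw [h2, ← mul_assoc, ← map_mul, inv_mul_cancel, map_one, one_mul]
    have h4 : Y.Int (pj hN Y CS hc c) := by
      rw [h3]
      exact Int_mul Y (Int_A Y _) h1
    obtain ⟨y, hy⟩ := hP c hcP h4
    refine ⟨MonoidAlgebra.single a 1 * y, ?_⟩
    rw [h2, hy, map_mul, Z_single, Int.cast_one, map_one, mul_one]
  choose! f hf using hz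
  refine ⟨y0 + ∑ d ∈ F with d ≤ β, f d, ?_⟩
  rw [map_add, map_sum, ← hy0, hsum]
  congr 1
  exact Finset.sum_congr rfl fun d hd => hf d hd

private theorem phi_case (P : Set (∀ q : Unit, (ts hN Y CS hc).D q))
    (hP : ∀ x ∈ P, Y.Int (pj hN Y CS hc x) → ∃ y : MonoidAlgebra ℤ S, pj hN Y CS hc x = Y.Z y)
    (x : ∀ q : Unit, (ts hN Y CS hc).D q) (hx : x ∈ (ts hN Y CS hc).Phi P)
    (hint : Y.Int (pj hN Y CS hc x)) :
    ∃ y : MonoidAlgebra ℤ S, pj hN Y CS hc x = Y.Z y := by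
  obtain ⟨-, h | ⟨h1, -⟩⟩ := hx
  · refine ⟨0, ?_⟩
    rw [h, map_zero]
    rfl
  · obtain ⟨a, ha⟩ := h1 1
    have e : pj hN Y CS hc ((ts hN Y CS hc).al a⁻¹ * x) =
        Y.A (a : S)⁻¹ * pj hN Y CS hc x := rfl
    have hI : Y.Int (pj hN Y CS hc ((ts hN Y CS hc).al a⁻¹ * x)) := by
      rw [e]
      exact Int_mul Y (Int_A Y _) hint
    have hy : ∀ u : (∀ q : Unit, (ts hN Y CS hc).D q), (ts hN Y CS hc).Nrm P 1 u →
        Y.Int (pj hN Y CS hc u) → ∃ y : MonoidAlgebra ℤ S, pj hN Y CS hc u = Y.Z y := by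
      intro u hu hI
      cases hu with
      | scal r hr => exact scal_case Y r hI
      | step i _ u0 hu h0 hP' hN' hA =>
        exact step_case hN Y CS hc P hP i _ u0 hu h0 hP' hA hI
    obtain ⟨y, hy⟩ := hy _ ha hI
    refine ⟨MonoidAlgebra.single (a : S) 1 * y, ?_⟩
    rw [map_mul, ← hy, e, Z_single, Int.cast_one, map_one, mul_one, ← mul_assoc, ← map_mul,
      mul_inv_cancel, map_one, one_mul]

end

theorem tpp (hN : Ser N) (Y : Sys N) (x : Y.U) (hx : x ∈ GU Y ⊤) (hi : Y.Int x) :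
    ∃ y : MonoidAlgebra ℤ S, x = Y.Z y := by
  obtain ⟨CS, hc⟩ := exists_conrad N hN
  have key : (ts hN Y CS hc).T ⊆
      {x | Y.Int (pj hN Y CS hc x) → ∃ y : MonoidAlgebra ℤ S, pj hN Y CS hc x = Y.Z y} := by
    apply (ts hN Y CS hc).T_ind
    intro x hx hint
    exact phi_case hN Y CS hc _ (fun x hx => hx.1) x hx hint
  have hx' : x ∈ (ts hN Y CS hc).Dl () ⊤ := by
    rw [ts_Dl]
    exact hx
  obtain ⟨x', hG, hx'e⟩ := (ts hN Y CS hc).Gen_lift hx'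
  have hT : x' ∈ (ts hN Y CS hc).T := (ts hN Y CS hc).T_eq.2 hG
  have h := key hT
  have h2 : pj hN Y CS hc x' = x := hx'e
  rw [← h2]
  apply h
  rw [h2]
  exact hi

end Pool.Agent.PDG
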