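import Pool.Agent.PDG.Defs

/-!
# Blueprint PDG, module KBl (helper41): elements of group rings with support in a subgroup

PROOF.  `mem_KB`: an element of the range is `mapDomain B.subtype x'`, whose coefficient at `g ∉ B` vanishes
(`MonoidAlgebra.induction_linear` on `x'`: `single b r` with `b ∈ B`).  Conversely
`x = ∑ g ∈ x.coeff.support, single g (x.coeff g)`, and `single g r` with `g ∈ B` is the image of
`single ⟨g, _⟩ r`.
`zq_coeff` is `MonoidAlgebra.coeff_mapRingHom`; `zq_injective` follows (integers embed in `ℚ`).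
`KB_finset`: take `E` the support.  `KB_map`: `mapDomain f` maps `ℚ[B]` onto `ℚ[B.map f]`.
`DB_mono`: `Subfield.closure_mono`.
`DB_single`: `DB θ B` is also generated by the `θ (single b r)`, `b ∈ B`: every element of `KB B` is a sum of such.
-/

set_option autoImplicit false

namespace Pool.Agent.PDG

open Pool.Agent.PDF

variable {Γ : Type} [Group Γ]

theorem single_mem_KB' {B : Subgroup Γ} {g : Γ} (hg : g ∈ B) (r : ℚ) :
    MonoidAlgebra.single g r ∈ KB B :=
  ⟨MonoidAlgebra.single ⟨g, hg⟩ r, by simp⟩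

theorem coeff_range (B : Subgroup Γ) (x' : MonoidAlgebra ℚ B) :
    ∀ g, (MonoidAlgebra.mapDomainRingHom ℚ B.subtype x').coeff g ≠ 0 → g ∈ B := by
  classical
  induction x' using MonoidAlgebra.induction_linear with
  | zero => intro g hg; simp at hg
  | add f g hf hg =>
    intro a ha
    rw [map_add, MonoidAlgebra.coeff_add, Finsupp.add_apply] at ha
    by_cases h : (MonoidAlgebra.mapDomainRingHom ℚ B.subtype f).coeff a = 0
    · apply hg
      intro h2
      exact ha (by rw [h, h2, add_zero])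
    · exact hf a h
  | single b r =>
    intro g hg
    have e : MonoidAlgebra.mapDomainRingHom ℚ B.subtype (MonoidAlgebra.single b r) =
        MonoidAlgebra.single (b : Γ) r := by simp
    rw [e, MonoidAlgebra.coeff_single, Finsupp.single_apply] at hg
    split_ifs at hg with h
    · rw [← h]; exact b.2
    · exact absurd rfl hg

theorem mem_KB {B : Subgroup Γ} {x : MonoidAlgebra ℚ Γ} :
    x ∈ KB B ↔ ∀ g, x.coeff g ≠ 0 → g ∈ B := by
  constructor
  · rintro ⟨x', rfl⟩
    exact coeff_range B x'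
  · intro h
    rw [← MonoidAlgebra.sum_coeff_single x, Finsupp.sum]
    apply Subring.sum_mem
    intro g hg
    exact single_mem_KB' (h g (Finsupp.mem_support_iff.1 hg)) _

theorem KB_mono {B C : Subgroup Γ} (h : B ≤ C) : KB B ≤ KB C := by
  intro x hx
  rw [mem_KB] at hx ⊢
  exact fun g hg => h (hx g hg)

theorem single_mem_KB {B : Subgroup Γ} {g : Γ} (hg : g ∈ B) (r : ℚ) :
    MonoidAlgebra.single g r ∈ KB B := by
  exact single_mem_KB' hg r

/-- every element of `ℚ[B]` has its support in a finite subset of `B` -/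
theorem KB_finset {B : Subgroup Γ} {x : MonoidAlgebra ℚ Γ} (hx : x ∈ KB B) :
    ∃ E : Finset Γ, (∀ g ∈ E, g ∈ B) ∧ x ∈ KB (Subgroup.closure (E : Set Γ)) := by
  refine ⟨x.coeff.support, ?_, ?_⟩
  · intro g hg
    exact mem_KB.1 hx g (Finsupp.mem_support_iff.1 hg)
  · rw [mem_KB]
    intro g hg
    exact Subgroup.subset_closure (Finset.mem_coe.2 (Finsupp.mem_support_iff.2 hg))

/-- induction principle -/
theorem KB_induction {B : Subgroup Γ} {p : MonoidAlgebra ℚ Γ → Prop} (h0 : p 0)
    (h1 : ∀ g ∈ B, ∀ r : ℚ, p (MonoidAlgebra.single g r))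
    (h2 : ∀ x y, p x → p y → p (x + y)) {x : MonoidAlgebra ℚ Γ} (hx : x ∈ KB B) : p x := by
  obtain ⟨x', rfl⟩ := hx
  induction x' using MonoidAlgebra.induction_linear with
  | zero => rw [map_zero]; exact h0
  | add f g hf hg => rw [map_add]; exact h2 _ _ hf hg
  | single b r =>
    have e : MonoidAlgebra.mapDomainRingHom ℚ B.subtype (MonoidAlgebra.single b r) =
        MonoidAlgebra.single (b : Γ) r := by simp
    rw [e]
    exact h1 _ b.2 r

theorem zq_coeff (y : MonoidAlgebra ℤ Γ) (g : Γ) : (zq y).coeff g = (y.coeff g : ℚ) := by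
  unfold zq
  rw [MonoidAlgebra.coeff_mapRingHom]
  rfl

@[simp] theorem zq_single (g : Γ) (n : ℤ) :
    zq (MonoidAlgebra.single g n) = MonoidAlgebra.single g (n : ℚ) := by
  unfold zq
  simp

theorem zq_injective : Function.Injective (zq : MonoidAlgebra ℤ Γ →+* MonoidAlgebra ℚ Γ) := by
  intro a b hab
  ext g
  have h := congrArg (fun z : MonoidAlgebra ℚ Γ => z.coeff g) hab
  simp only [zq_coeff] at h
  exact_mod_cast h

theorem DB_mono {D : Type} [DivisionRing D] (θ : MonoidAlgebra ℚ Γ →+* D) {B C : Subgroup Γ}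
    (h : B ≤ C) : DB θ B ≤ DB θ C := by
  exact Subfield.closure_mono (Set.image_mono (KB_mono h))

theorem mem_DB_of_KB {D : Type} [DivisionRing D] (θ : MonoidAlgebra ℚ Γ →+* D) {B : Subgroup Γ}
    {x : MonoidAlgebra ℚ Γ} (hx : x ∈ KB B) : θ x ∈ DB θ B := by
  exact Subfield.subset_closure ⟨x, hx, rfl⟩

theorem DB_single {D : Type} [DivisionRing D] (θ : MonoidAlgebra ℚ Γ →+* D) (B : Subgroup Γ) :
    DB θ B = Subfield.closure {x | ∃ b ∈ B, ∃ r : ℚ, x = θ (MonoidAlgebra.single b r)} := by
  apply le_antisymm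
  · apply Subfield.closure_le.2
    rintro _ ⟨x, hx, rfl⟩
    refine KB_induction (p := fun x => θ x ∈ Subfield.closure
      {x | ∃ b ∈ B, ∃ r : ℚ, x = θ (MonoidAlgebra.single b r)}) ?_ ?_ ?_ hx
    · rw [map_zero]; exact Subfield.zero_mem _
    · intro g hg r
      exact Subfield.subset_closure ⟨g, hg, r, rfl⟩
    · intro x y hx hy
      rw [map_add]
      exact Subfield.add_mem _ hx hy
  · apply Subfield.closure_le.2
    rintro _ ⟨b, hb, r, rfl⟩
    exact mem_DB_of_KB θ (single_mem_KB hb r)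

end Pool.Agent.PDG
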