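import Pool.Agent.PDG.Defs
import Pool.Agent.HFT.Lev

/-!
# Blueprint PDG, module LevM (helper41): levels in the quotients

PROOF.  By `hc i` there is `n₀` with `lev g < i` for all `g ∈ N n₀`; for `m ≥ n₀` and `g ∈ N m` (`≤ N n₀` by `anti`)
`k⁻¹ g k ∈ N m` (normal), so `g ∈ CS.Lt k i`: `N m ≤ CS.Lt k i`.
`add`: `ConradSys.deg_mul` (file `HFT.Lev`).  `le`: `Lt k i ≤ Le k i` (`Lt_le_Le`), the range of the composition is
`(Le k i).map mk'`.  `ker`: for `a ∈ Le k i`: `deg a = 0 ↔ a ∈ Lt k i` (`deg_zero_iff`), and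
`mk' a ∈ (Lt k i).map mk'` iff `a = b g` with `b ∈ Lt k i`, `g ∈ N m ≤ Lt k i`, iff `a ∈ Lt k i`.
-/

set_option autoImplicit false

namespace Pool.Agent.PDG

open Pool.Agent.HFT

theorem exists_dat {S : Type} [Group S] (N : ℕ → Subgroup S) [∀ n, (N n).Normal] (hN : Ser N)
    (CS : ConradSys S) (hc : ∀ i : CS.I, ∃ n, ∀ g ∈ N n, CS.lev g < (i : WithBot CS.I)) (k : S)
    (i : CS.I) : ∃ n₀ : ℕ, ∀ m, n₀ ≤ m →
      Dat ((QuotientGroup.mk' (N m)).comp (CS.Le k i).subtype)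
        (fun a => CS.deg k i (a : S)) ((CS.Lt k i).map (QuotientGroup.mk' (N m))) := by
  obtain ⟨n₀, hn₀⟩ := hc i
  refine ⟨n₀, fun m hm => ?_⟩
  have hanti : Antitone N := antitone_nat_of_succ_le hN.anti
  have hNL : N m ≤ CS.Lt k i := by
    intro g hg
    have h1 : k⁻¹ * g * k ∈ N m := by
      have := (inferInstance : (N m).Normal).conj_mem g hg k⁻¹
      rwa [inv_inv] at this
    exact hn₀ _ (hanti hm h1)
  refine ⟨?_, ?_, ?_⟩
  · intro a b
    exact CS.deg_mul a.2 b.2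
  · rintro _ ⟨g, hg, rfl⟩
    exact ⟨⟨g, CS.Lt_le_Le k i hg⟩, rfl⟩
  · intro a
    rw [CS.deg_zero_iff a.2]
    constructor
    · intro h
      exact ⟨(a : S), h, rfl⟩
    · rintro ⟨b, hb, hba⟩
      have h1 : b⁻¹ * (a : S) ∈ N m := QuotientGroup.eq.1 hba
      have h2 : (a : S) = b * (b⁻¹ * a) := by group
      rw [h2]
      exact (CS.Lt k i).mul_mem hb (hNL h1)

end Pool.Agent.PDG
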