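import Pool.Agent.PDG.KBl

/-!
# Blueprint PDG, module Lin (helper41): independence of cosets

PROOF of `OreEmb.common`.  Common right denominators: for finitely many `c l ∈ DB θ B` there are `s ∈ KB B`,
`θ s ≠ 0`, and `a l ∈ KB B` with `c l * θ s = θ (a l)`.  Induction on `n`: let `s, a` be for the first `n` elements and
`c_n θ t = θ b`.  Apply `fr` to `x = (θ s)⁻¹ θ t ∈ DB θ B`: `x θ u = θ v`, `θ u ≠ 0`, `u, v ∈ KB B`, so
`θ(t u) = θ(s v)`, nonzero; the common denominator is `s v`: `c_l θ(s v) = θ(a_l v)`,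
`c_n θ(s v) = c_n θ(t u) = θ(b u)`.
PROOF of `OreEmb.indep`.  Multiply by a common denominator: `θ(∑ single (g l) 1 * a l) = 0`, so
`∑ single (g l) 1 * a l = 0` by `inj`.  The support of `single (g l) 1 * a l` is in the coset `(g l) B`, and
these are disjoint.  So for `b ∈ B` the coefficient of the sum at `(g l) b` is `(a l).coeff b`;
hence `a l = 0` (its support is in `B`, `mem_KB`), `c l * θ s = 0`, `c l = 0`.
PROOF of `OreEmb.supp`.  Let `x = x₀ + x₁` where `x₀` is the part of `x` with support in `B` and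
`x₁` the rest; suppose `x₁ ≠ 0`.  Split the support of `x₁` in left cosets of `B`, with representatives `g 1, ..., g n`
(not in `B`): `x₁ = ∑ single (g l) 1 * y l`, `y l ∈ KB B`, not all zero.  Put `g 0 = 1`, `c 0 = θ x₀ - θ x`,
`c l = θ (y l)`: all in `DB θ B`, and `∑ θ(single (g l) 1) * c l = 0`, so by `indep` all `c l = 0`, `y l = 0`, a
contradiction.
-/

set_option autoImplicit false

namespace Pool.Agent.PDG

variable {Γ : Type} [Group Γ] {D : Type} [DivisionRing D] {θ : MonoidAlgebra ℚ Γ →+* D}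

theorem OreEmb.common (h : OreEmb θ) (B : Subgroup Γ) (n : ℕ) (c : Fin n → D)
    (hc : ∀ l, c l ∈ DB θ B) : ∃ s ∈ KB B, θ s ≠ 0 ∧ ∀ l, ∃ a ∈ KB B, c l * θ s = θ a := by
  induction n with
  | zero => exact ⟨1, Subring.one_mem _, by rw [map_one]; exact one_ne_zero, fun l => l.elim0⟩
  | succ n ih =>
    obtain ⟨s, hs, hs0, ha⟩ := ih (fun l => c l.castSucc) fun l => hc _
    obtain ⟨b, hb, t, ht, ht0, hbt⟩ := h.fr B (c (Fin.last n)) (hc _)
    have hx : (θ s)⁻¹ * θ t ∈ DB θ B :=
      mul_mem (inv_mem (mem_DB_of_KB θ hs)) (mem_DB_of_KB θ ht)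
    obtain ⟨v, hv, u, hu, hu0, huv⟩ := h.fr B _ hx
    have e : θ (t * u) = θ (s * v) := by
      rw [map_mul, map_mul, ← huv, ← mul_assoc, ← mul_assoc, mul_inv_cancel₀ hs0, one_mul]
    refine ⟨s * v, Subring.mul_mem _ hs hv, ?_, fun l => ?_⟩
    · rw [← e, map_mul]
      exact mul_ne_zero ht0 hu0
    · refine Fin.lastCases ?_ (fun l => ?_) l
      · refine ⟨b * u, Subring.mul_mem _ hb hu, ?_⟩
        rw [← e, map_mul, ← mul_assoc, hbt, map_mul]
      · obtain ⟨a, ha', hae⟩ := ha l
        refine ⟨a * v, Subring.mul_mem _ ha' hv, ?_⟩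
        rw [map_mul, ← mul_assoc, hae, map_mul]

theorem OreEmb.indep (h : OreEmb θ) (B : Subgroup Γ) (n : ℕ) (g : Fin n → Γ)
    (hg : ∀ l l', (g l)⁻¹ * g l' ∈ B → l = l') (c : Fin n → D) (hc : ∀ l, c l ∈ DB θ B)
    (hs : ∑ l, θ (MonoidAlgebra.single (g l) 1) * c l = 0) : ∀ l, c l = 0 := by
  have hsum := hs
  clear hs
  obtain ⟨s, hs, hs0, ha⟩ := h.common B n c hc
  choose a haB hac using ha
  have h1 : ∑ l, MonoidAlgebra.single (g l) 1 * a l = 0 := by
    apply h.inj
    rw [map_zero, map_sum]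
    have : ∑ l, θ (MonoidAlgebra.single (g l) 1 * a l) =
        (∑ l, θ (MonoidAlgebra.single (g l) 1) * c l) * θ s := by
      rw [Finset.sum_mul]
      refine Finset.sum_congr rfl fun l _ => ?_
      rw [map_mul, ← hac l, mul_assoc]
    rw [this, hsum, zero_mul]
  have h2 : ∀ k, a k = 0 := by
    intro k
    rw [← MonoidAlgebra.coeff_eq_zero]
    ext b
    by_cases hb : b ∈ B
    · have h3 := congrArg (fun x : MonoidAlgebra ℚ Γ => x.coeff (g k * b)) h1
      simp only [MonoidAlgebra.coeff_sum, Finsupp.coe_finset_sum, Finset.sum_apply,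
        MonoidAlgebra.coeff_single_mul_apply, one_mul, MonoidAlgebra.coeff_zero,
        Finsupp.coe_zero, Pi.zero_apply] at h3
      rw [Finset.sum_eq_single k] at h3
      · rw [← mul_assoc, inv_mul_cancel, one_mul] at h3
        simpa using h3
      · intro l _ hlk
        by_contra hne
        have h4 := mem_KB.1 (haB l) _ hne
        rw [← mul_assoc] at h4
        have h5 : (g l)⁻¹ * g k ∈ B := by
          have := B.mul_mem h4 (B.inv_mem hb)
          rwa [mul_inv_cancel_right] at this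
        exact hlk (hg l k h5)
      · intro hk
        exact absurd (Finset.mem_univ k) hk
    · by_contra hne
      exact hb (mem_KB.1 (haB k) b (by simpa using hne))
  intro l
  have h3 := hac l
  rw [h2 l, map_zero] at h3
  exact (mul_eq_zero.1 h3).resolve_right hs0

theorem OreEmb.supp (h : OreEmb θ) (B : Subgroup Γ) (x : MonoidAlgebra ℚ Γ)
    (hx : θ x ∈ DB θ B) : x ∈ KB B := by
  classical
  let T : Finset (Γ ⧸ B) := insert (QuotientGroup.mk 1) (x.coeff.support.image QuotientGroup.mk)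
  let y : Γ ⧸ B → MonoidAlgebra ℚ Γ := fun q =>
    MonoidAlgebra.ofCoeff ((MonoidAlgebra.single (q.out)⁻¹ 1 * x).coeff.filter (· ∈ B))
  have hout : ∀ (q : Γ ⧸ B) (g : Γ), (q.out)⁻¹ * g ∈ B ↔ q = QuotientGroup.mk g := by
    intro q g
    rw [← QuotientGroup.eq, QuotientGroup.out_eq']
  have hy : ∀ q b, (y q).coeff b = if b ∈ B then x.coeff (q.out * b) else 0 := by
    intro q b
    change (((MonoidAlgebra.single (q.out)⁻¹ 1 * x).coeff.filter (· ∈ B)) b) = _
    rw [Finsupp.filter_apply]
    split_ifs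
    · rw [MonoidAlgebra.coeff_single_mul_apply, one_mul, inv_inv]
    · rfl
  have hyB : ∀ q, y q ∈ KB B := by
    intro q
    rw [mem_KB]
    intro b hb
    rw [hy] at hb
    by_contra hbB
    rw [if_neg hbB] at hb
    exact hb rfl
  have hsum : ∑ q ∈ T, MonoidAlgebra.single q.out 1 * y q = x := by
    rw [← MonoidAlgebra.coeff_inj]
    ext g
    rw [MonoidAlgebra.coeff_sum, Finsupp.coe_finset_sum, Finset.sum_apply]
    have h1 : ∀ q ∈ T, (MonoidAlgebra.single q.out (1 : ℚ) * y q).coeff g =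
        if QuotientGroup.mk g = q then x.coeff g else 0 := by
      intro q _
      rw [MonoidAlgebra.coeff_single_mul_apply, one_mul, hy]
      by_cases hq : (q.out)⁻¹ * g ∈ B
      · rw [if_pos hq, if_pos ((hout q g).1 hq).symm, mul_inv_cancel_left]
      · rw [if_neg hq, if_neg fun e => hq ((hout q g).2 e.symm)]
    rw [Finset.sum_congr rfl h1, Finset.sum_ite_eq]
    split_ifs with hT
    · rfl
    · by_contra hne
      exact hT (Finset.mem_insert_of_mem (Finset.mem_image_of_mem _
        (Finsupp.mem_support_iff.2 fun h0 => hne h0.symm)))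
  have h1T : (QuotientGroup.mk 1 : Γ ⧸ B) ∈ T := Finset.mem_insert_self _ _
  have hb0 : ((QuotientGroup.mk 1 : Γ ⧸ B).out)⁻¹ ∈ B := by
    have := (hout (QuotientGroup.mk 1) 1).2 rfl
    rwa [mul_one] at this
  let c : Γ ⧸ B → D := fun q => if q = QuotientGroup.mk 1 then
    θ (y q) - θ (MonoidAlgebra.single (q.out)⁻¹ 1) * θ x else θ (y q)
  have hcB : ∀ q, c q ∈ DB θ B := by
    intro q
    by_cases hq : q = QuotientGroup.mk 1
    · subst hq
      change (if (QuotientGroup.mk 1 : Γ ⧸ B) = QuotientGroup.mk 1 then _ else _) ∈ DB θ B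
      rw [if_pos rfl]
      exact sub_mem (mem_DB_of_KB θ (hyB _))
        (mul_mem (mem_DB_of_KB θ (single_mem_KB hb0 1)) hx)
    · change (if q = QuotientGroup.mk 1 then _ else _) ∈ DB θ B
      rw [if_neg hq]
      exact mem_DB_of_KB θ (hyB _)
  have hc0 : ∑ q ∈ T, θ (MonoidAlgebra.single q.out 1) * c q = 0 := by
    have h2 : ∀ q ∈ T, θ (MonoidAlgebra.single q.out 1) * c q =
        θ (MonoidAlgebra.single q.out 1 * y q) - if q = QuotientGroup.mk 1 then θ x else 0 := by
      intro q _
      by_cases hq : q = QuotientGroup.mk 1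
      · change θ (MonoidAlgebra.single q.out 1) * (if q = QuotientGroup.mk 1 then _ else _) = _
        have hone : θ (MonoidAlgebra.single q.out 1) * θ (MonoidAlgebra.single (q.out)⁻¹ 1) = 1 := by
          rw [← map_mul, MonoidAlgebra.single_mul_single, mul_inv_cancel, mul_one,
            ← MonoidAlgebra.one_def, map_one]
        rw [if_pos hq, if_pos hq, mul_sub, map_mul, ← mul_assoc, hone, one_mul]
      · change θ (MonoidAlgebra.single q.out 1) * (if q = QuotientGroup.mk 1 then _ else _) = _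
        rw [if_neg hq, if_neg hq, map_mul, sub_zero]
    rw [Finset.sum_congr rfl h2, Finset.sum_sub_distrib, ← map_sum, hsum, Finset.sum_ite_eq',
      if_pos h1T, sub_self]
  let e := T.equivFin.symm
  have hind := h.indep B T.card (fun i => (e i).1.out) (fun i j hij => by
      rw [hout, QuotientGroup.out_eq'] at hij
      exact e.injective (Subtype.ext hij)) (fun i => c (e i).1) (fun i => hcB _) (by
      rw [Equiv.sum_comp e (fun q : T => θ (MonoidAlgebra.single q.1.out 1) * c q.1),
        Finset.sum_coe_sort T (fun q => θ (MonoidAlgebra.single q.out 1) * c q)]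
      exact hc0)
  have hcq : ∀ q ∈ T, c q = 0 := by
    intro q hq
    have := hind (e.symm ⟨q, hq⟩)
    rwa [Equiv.apply_symm_apply] at this
  rw [mem_KB]
  intro g hg
  have hgT : (QuotientGroup.mk g : Γ ⧸ B) ∈ T :=
    Finset.mem_insert_of_mem (Finset.mem_image_of_mem _ (Finsupp.mem_support_iff.2 hg))
  by_cases hq : (QuotientGroup.mk g : Γ ⧸ B) = QuotientGroup.mk 1
  · have := (QuotientGroup.eq.1 hq.symm)
    rwa [inv_one, one_mul] at this
  · exfalso
    have h3 := hcq _ hgT
    change (if (QuotientGroup.mk g : Γ ⧸ B) = QuotientGroup.mk 1 then _ else _) = (0 : D) at h3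
    rw [if_neg hq] at h3
    have h4 : y (QuotientGroup.mk g) = 0 := h.inj (by rw [h3, map_zero])
    have h5 := hy (QuotientGroup.mk g) (((QuotientGroup.mk g : Γ ⧸ B).out)⁻¹ * g)
    rw [h4, if_pos ((hout _ g).2 rfl), mul_inv_cancel_left] at h5
    exact hg h5.symm

end Pool.Agent.PDG
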