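import Pool.Agent.PDG.Cyc

/-!
# Blueprint PDG, module SolvAll (helper41): linear systems over group rings of soluble groups

PROOF.  By `Group.isSolvable_def` there is `n` with `derivedSeries Γ n = ⊥`.  We show by descending induction
that `SolvB B` for all `B ≤ derivedSeries Γ i`, `i ≤ n`.  For `i = n`: `B = ⊥`, `solvB_bot`.
Let `B ≤ derivedSeries Γ i` and `C = B ⊓ derivedSeries Γ (i+1)`; `SolvB C` by induction and
`⁅B, B⁆ ≤ C` (`⁅B,B⁆ ≤ B` and `⁅B,B⁆ ≤ ⁅Γ^(i), Γ^(i)⁆`).
Claim: for every finite `E ⊆ B` one has `SolvB (C ⊔ Subgroup.closure E)`.  `Finset.induction_on`: for the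
step let `C' = C ⊔ closure E`, `t ∈ B`; then `C ≤ C' ≤ B`, and `t` normalizes `C'`: for `c ∈ C'`,
`t c t⁻¹ = ⁅t, c⁆ c ∈ C C' = C'`, and the same for `t⁻¹`.  So `solvB_cyc C' t` applies and
`C' ⊔ zpowers t = C ⊔ closure (insert t E)`.
Now let `A` be an `m × n'` matrix over `KB B`, `m < n'`.  By `KB_finset` there are finite sets `E i j ⊆ B` with
`A i j ∈ KB (closure (E i j))`; let `E` be their union.  `A i j ∈ KB (C ⊔ closure E)` (`KB_mono`), so the
claim gives a solution in `KB (C ⊔ closure E) ≤ KB B`.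
-/

set_option autoImplicit false

namespace Pool.Agent.PDG

variable {Γ : Type} [Group Γ]

private theorem solvB_fin (B C : Subgroup Γ) (hCB : C ≤ B) (hcomm : ⁅B, B⁆ ≤ C) (hC : SolvB C)
    (E : Finset Γ) : (∀ g ∈ E, g ∈ B) → SolvB (C ⊔ Subgroup.closure (E : Set Γ)) := by
  classical
  induction E using Finset.induction_on with
  | empty =>
    intro _
    rw [Finset.coe_empty, Subgroup.closure_empty, sup_bot_eq]
    exact hC
  | insert t E _ ih =>
    intro hE
    have hE' : ∀ g ∈ E, g ∈ B := fun g hg => hE g (Finset.mem_insert_of_mem hg)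
    have htB : t ∈ B := hE t (Finset.mem_insert_self t E)
    have h1 := ih hE'
    have hle : C ⊔ Subgroup.closure (E : Set Γ) ≤ B :=
      sup_le hCB ((Subgroup.closure_le B).2 fun g hg => hE' g hg)
    have hset : C ⊔ Subgroup.closure ((insert t E : Finset Γ) : Set Γ) =
        (C ⊔ Subgroup.closure (E : Set Γ)) ⊔ Subgroup.zpowers t := by
      rw [Finset.coe_insert, Set.insert_eq, Subgroup.closure_union, Subgroup.zpowers_eq_closure,
        sup_comm (Subgroup.closure {t}) _, ← sup_assoc]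
    rw [hset]
    refine solvB_cyc _ t ?_ h1
    have key : ∀ c ∈ B, (c ∈ C ⊔ Subgroup.closure (E : Set Γ) ↔
        t * c * t⁻¹ ∈ C ⊔ Subgroup.closure (E : Set Γ)) := by
      intro c hc
      have h2 : t * c * t⁻¹ * c⁻¹ ∈ C ⊔ Subgroup.closure (E : Set Γ) :=
        (le_sup_left : C ≤ _) (hcomm (Subgroup.commutator_mem_commutator htB hc))
      have h3 : t * c * t⁻¹ = t * c * t⁻¹ * c⁻¹ * c := by
        group
      rw [h3]
      exact (Subgroup.mul_mem_cancel_left _ h2).symm
    intro c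
    constructor
    · intro hc
      exact (key c (hle hc)).1 hc
    · intro hc
      have h4 : t * c * t⁻¹ ∈ B := hle hc
      have h5 : c ∈ B := by
        have h6 : t⁻¹ * (t * c * t⁻¹) * t ∈ B := B.mul_mem (B.mul_mem (B.inv_mem htB) h4) htB
        have h7 : t⁻¹ * (t * c * t⁻¹) * t = c := by group
        rwa [h7] at h6
      exact (key c h5).2 hc

private theorem solvB_step (B C : Subgroup Γ) (hCB : C ≤ B) (hcomm : ⁅B, B⁆ ≤ C) (hC : SolvB C) :
    SolvB B := by
  classical
  intro m n hmn A hA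
  choose E hE1 hE2 using fun i j => KB_finset (hA i j)
  let F : Finset Γ := Finset.univ.biUnion fun i => Finset.univ.biUnion fun j => E i j
  have hF : ∀ g ∈ F, g ∈ B := by
    intro g hg
    obtain ⟨i, _, hi⟩ := Finset.mem_biUnion.1 hg
    obtain ⟨j, _, hj⟩ := Finset.mem_biUnion.1 hi
    exact hE1 i j g hj
  have hsub : ∀ i j, (E i j : Set Γ) ⊆ (F : Set Γ) := by
    intro i j g hg
    exact Finset.mem_coe.2 (Finset.mem_biUnion.2 ⟨i, Finset.mem_univ _,
      Finset.mem_biUnion.2 ⟨j, Finset.mem_univ _, hg⟩⟩)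
  have hle : C ⊔ Subgroup.closure (F : Set Γ) ≤ B :=
    sup_le hCB ((Subgroup.closure_le B).2 fun g hg => hF g hg)
  obtain ⟨v, hv0, hv1, hv2⟩ := solvB_fin B C hCB hcomm hC F hF m n hmn A fun i j =>
    KB_mono ((Subgroup.closure_mono (hsub i j)).trans le_sup_right) (hE2 i j)
  exact ⟨v, hv0, fun j => KB_mono hle (hv1 j), hv2⟩

private theorem solvB_ind (n : ℕ) (hn : derivedSeries Γ n = ⊥) (k : ℕ) :
    ∀ i, i + k = n → ∀ B ≤ derivedSeries Γ i, SolvB B := by
  induction k with
  | zero =>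
    intro i hi B hB
    have h0 : i = n := by omega
    rw [h0, hn, le_bot_iff] at hB
    rw [hB]
    exact solvB_bot
  | succ k ih =>
    intro i hi B hB
    have h1 := ih (i + 1) (by omega) (B ⊓ derivedSeries Γ (i + 1)) inf_le_right
    refine solvB_step B _ inf_le_left ?_ h1
    refine le_inf ?_ ?_
    · exact Subgroup.commutator_le_self B
    · rw [derivedSeries_succ]
      exact Subgroup.commutator_mono hB hB

theorem solvB_all (n : ℕ) (hn : derivedSeries Γ n = ⊥) (B : Subgroup Γ) : SolvB B := by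
  refine solvB_ind n hn n 0 (by omega) B ?_
  rw [derivedSeries_zero]
  exact le_top

end Pool.Agent.PDG
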