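import Pool.Agent.PDG.Defs

/-!
# Blueprint PDG, module Uniq (helper41): unique products

PROOF of `uniq_ext`.  Let `A, B` be nonempty finite subsets of `Γ`.  In `Q` the images `A.image f`, `B.image f`
have a unique product `(qa, qb)`.  Let `A' = {a ∈ A | f a = qa}`, `B' = {b ∈ B | f b = qb}`, nonempty; fix
`a₁ ∈ A'`, `b₁ ∈ B'`.  The sets `a₁⁻¹ A'` and `B' b₁⁻¹` lie in the kernel of `f`; a unique product of them gives
a unique product `(a₀, b₀)` of `A'`, `B'` (`a b = a₁ (a₁⁻¹ a) (b b₁⁻¹) b₁`).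
`UniqueMul.of_image_filter` gives the unique product of `A`, `B`.

PROOF of `uniq_tf`: torsion free commutative groups: `Additive A` embeds in the `ℚ`-vector space
`LocalizedModule (nonZeroDivisors ℤ) (Additive A)` (or a `ℚ`-tensor product), which has `UniqueSums`
(instance for `ℚ`-vector spaces in `Mathlib.Algebra.Group.UniqueProds.VectorSpace`);
`UniqueProds.of_injective_mulHom`.  (Alternative: finitely generated torsion free commutative groups are
free of finite rank; or order the group.)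

PROOF of `uniq_ser`: induction on `n`.  `S / N 0` is trivial.  The natural map
`S / N (n+1) → S / N n` is surjective with kernel isomorphic to `N n / N (n+1)`, commutative by `comm` and
torsion free by `tf`.
-/

set_option autoImplicit false

namespace Pool.Agent.PDG

theorem uniq_ext {Γ Q : Type} [Group Γ] [Group Q] (f : Γ →* Q) [UniqueProds Q]
    [UniqueProds f.ker] : UniqueProds Γ := by
  classical
  refine ⟨fun {A B} hA hB => ?_⟩
  obtain ⟨qa, hqa, qb, hqb, hQ⟩ :=
    UniqueProds.uniqueMul_of_nonempty (hA.image f) (hB.image f)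
  obtain ⟨a₁, ha₁, rfl⟩ := Finset.mem_image.1 hqa
  obtain ⟨b₁, hb₁, rfl⟩ := Finset.mem_image.1 hqb
  -- the translated sets in the kernel
  let A1 : Finset f.ker := (A.filter (fun a => f a = f a₁)).attach.image fun a =>
    ⟨a₁⁻¹ * a.1, by
      have := (Finset.mem_filter.1 a.2).2
      rw [MonoidHom.mem_ker, map_mul, map_inv, this, inv_mul_cancel]⟩
  let B1 : Finset f.ker := (B.filter (fun b => f b = f b₁)).attach.image fun b =>
    ⟨b.1 * b₁⁻¹, by
      have := (Finset.mem_filter.1 b.2).2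
      rw [MonoidHom.mem_ker, map_mul, map_inv, this, mul_inv_cancel]⟩
  have hA1 : ∀ (a : Γ) (ha : a ∈ A.filter (fun a => f a = f a₁)) (h : a₁⁻¹ * a ∈ f.ker),
      (⟨a₁⁻¹ * a, h⟩ : f.ker) ∈ A1 := fun a ha h =>
    Finset.mem_image.2 ⟨⟨a, ha⟩, Finset.mem_attach _ _, rfl⟩
  have hB1 : ∀ (b : Γ) (hb : b ∈ B.filter (fun b => f b = f b₁)) (h : b * b₁⁻¹ ∈ f.ker),
      (⟨b * b₁⁻¹, h⟩ : f.ker) ∈ B1 := fun b hb h =>
    Finset.mem_image.2 ⟨⟨b, hb⟩, Finset.mem_attach _ _, rfl⟩
  have kA : ∀ a ∈ A.filter (fun a => f a = f a₁), a₁⁻¹ * a ∈ f.ker := by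
    intro a ha
    have := (Finset.mem_filter.1 ha).2
    rw [MonoidHom.mem_ker, map_mul, map_inv, this, inv_mul_cancel]
  have kB : ∀ b ∈ B.filter (fun b => f b = f b₁), b * b₁⁻¹ ∈ f.ker := by
    intro b hb
    have := (Finset.mem_filter.1 hb).2
    rw [MonoidHom.mem_ker, map_mul, map_inv, this, mul_inv_cancel]
  have ha₁' : a₁ ∈ A.filter (fun a => f a = f a₁) := Finset.mem_filter.2 ⟨ha₁, rfl⟩
  have hb₁' : b₁ ∈ B.filter (fun b => f b = f b₁) := Finset.mem_filter.2 ⟨hb₁, rfl⟩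
  obtain ⟨x, hx, y, hy, hU⟩ := UniqueProds.uniqueMul_of_nonempty
    ⟨_, hA1 a₁ ha₁' (kA a₁ ha₁')⟩ ⟨_, hB1 b₁ hb₁' (kB b₁ hb₁')⟩
  obtain ⟨⟨a₀, ha₀⟩, -, rfl⟩ := Finset.mem_image.1 hx
  obtain ⟨⟨b₀, hb₀⟩, -, rfl⟩ := Finset.mem_image.1 hy
  refine ⟨a₀, (Finset.mem_filter.1 ha₀).1, b₀, (Finset.mem_filter.1 hb₀).1, ?_⟩
  refine UniqueMul.of_image_filter (f : Γ →ₙ* Q) (aH := f a₁) (bH := f b₁)
    (Finset.mem_filter.1 ha₀).2 (Finset.mem_filter.1 hb₀).2 hQ ?_
  intro a b ha hb hab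
  have ha' : a ∈ A.filter (fun a => f a = f a₁) := ha
  have hb' : b ∈ B.filter (fun b => f b = f b₁) := hb
  have h := hU (hA1 a ha' (kA a ha')) (hB1 b hb' (kB b hb')) (by
    apply Subtype.ext
    change a₁⁻¹ * a * (b * b₁⁻¹) = a₁⁻¹ * a₀ * (b₀ * b₁⁻¹)
    calc a₁⁻¹ * a * (b * b₁⁻¹) = a₁⁻¹ * (a * b) * b₁⁻¹ := by group
      _ = a₁⁻¹ * (a₀ * b₀) * b₁⁻¹ := by rw [hab]
      _ = _ := by group)
  have h1 : a₁⁻¹ * a = a₁⁻¹ * a₀ := congrArg Subtype.val h.1
  have h2 : b * b₁⁻¹ = b₀ * b₁⁻¹ := congrArg Subtype.val h.2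
  exact ⟨mul_left_cancel h1, mul_right_cancel h2⟩

theorem uniq_tf {A : Type} [Group A] (hc : ∀ a b : A, a * b = b * a)
    (ht : ∀ (a : A) (k : ℕ), k ≠ 0 → a ^ k = 1 → a = 1) : UniqueProds A := by
  letI : CommGroup A := { (inferInstance : Group A) with mul_comm := hc }
  haveI : IsMulTorsionFree A := by
    refine ⟨fun n hn a b hab => ?_⟩
    have h1 : (a * b⁻¹) ^ n = 1 := by
      have hab' : a ^ n = b ^ n := hab
      rw [mul_pow, inv_pow, hab', mul_inv_cancel]
    exact mul_inv_eq_one.1 (ht _ n hn h1)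
  haveI : IsAddTorsionFree (Additive A) := inferInstance
  haveI h2 : UniqueSums (Additive A) :=
    UniqueSums.of_injective_addHom
      ((DivisibleHull.coeAddMonoidHom (M := Additive A) : Additive A →+ _) :
        Additive A →ₙ+ DivisibleHull (Additive A))
      (DivisibleHull.coe_injective) inferInstance
  have h3 : UniqueProds (Multiplicative (Additive A)) := inferInstance
  exact h3

theorem uniq_ser {S : Type} [Group S] (N : ℕ → Subgroup S) [∀ n, (N n).Normal] (hN : Ser N)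
    (n : ℕ) : UniqueProds (S ⧸ N n) := by
  induction n with
  | zero =>
    haveI : Subsingleton (S ⧸ N 0) := by
      rw [hN.top]
      exact QuotientGroup.subsingleton_quotient_top
    exact ⟨fun {A B} hA hB => by
      obtain ⟨a, ha⟩ := hA
      obtain ⟨b, hb⟩ := hB
      exact ⟨a, ha, b, hb, UniqueMul.of_subsingleton⟩⟩
  | succ n ih =>
    let f : S ⧸ N (n + 1) →* S ⧸ N n :=
      QuotientGroup.map (N (n + 1)) (N n) (MonoidHom.id S) (hN.anti n)
    have hf : ∀ g : S, f (QuotientGroup.mk g) = QuotientGroup.mk g := fun g => rfl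
    have hker : ∀ g : S, (QuotientGroup.mk g : S ⧸ N (n + 1)) ∈ f.ker → g ∈ N n := by
      intro g hg
      rw [MonoidHom.mem_ker, hf] at hg
      exact (QuotientGroup.eq_one_iff g).1 hg
    haveI : UniqueProds f.ker := by
      refine uniq_tf ?_ ?_
      · rintro ⟨a, ha⟩ ⟨b, hb⟩
        apply Subtype.ext
        change a * b = b * a
        obtain ⟨g, rfl⟩ := QuotientGroup.mk_surjective a
        obtain ⟨h, rfl⟩ := QuotientGroup.mk_surjective b
        have h1 := hN.comm n (Subgroup.commutator_mem_commutator (Subgroup.inv_mem _ (hker g ha))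
          (Subgroup.inv_mem _ (hker h hb)))
        rw [← QuotientGroup.mk_mul, ← QuotientGroup.mk_mul, eq_comm, QuotientGroup.eq]
        rw [commutatorElement_def] at h1
        have e : (h * g)⁻¹ * (g * h) = g⁻¹ * h⁻¹ * g⁻¹⁻¹ * h⁻¹⁻¹ := by
          group
        rw [e]
        exact h1
      · rintro ⟨a, ha⟩ k hk hak
        obtain ⟨g, rfl⟩ := QuotientGroup.mk_surjective a
        have h1 : (QuotientGroup.mk g : S ⧸ N (n + 1)) ^ k = 1 := congrArg Subtype.val hak
        rw [← QuotientGroup.mk_pow, QuotientGroup.eq_one_iff] at h1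
        have h2 := hN.tf n g k hk (hker g ha) h1
        apply Subtype.ext
        exact (QuotientGroup.eq_one_iff g).2 h2
    exact uniq_ext f

end Pool.Agent.PDG
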