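import Pool.Agent.PDG.OreEx
import Pool.Agent.PDG.SolvAll
import Pool.Agent.PDG.Uniq

/-!
# Blueprint PDG, module SysEx (helper41)

PROOF.  For every `n` the group `S / N n` satisfies `derivedSeries (S / N n) n = ⊥`: by induction
`derivedSeries S n ≤ N n` (`top`, `comm`, `Subgroup.commutator_mono`), and `derivedSeries` of the quotient is the image
(`map_derivedSeries_eq`).  So `solvB_all` applies; the group ring has no zero divisors by `uniq_ser`
(instance `MonoidAlgebra` of a `UniqueProds` group over a domain).  Choose `D n`, `θ n` by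
`exists_oreEmb`.
-/

set_option autoImplicit false

namespace Pool.Agent.PDG

theorem derived_le_ser {S : Type} [Group S] (N : ℕ → Subgroup S) (hN : Ser N) (n : ℕ) :
    derivedSeries S n ≤ N n := by
  induction n with
  | zero => rw [hN.top]; exact le_top
  | succ n ih =>
    rw [derivedSeries_succ]
    exact (Subgroup.commutator_mono ih ih).trans (hN.comm n)

theorem exists_sys {S : Type} [Group S] (N : ℕ → Subgroup S) [∀ n, (N n).Normal] (hN : Ser N) :
    Nonempty (Sys N) := by
  have hd : ∀ n, derivedSeries (S ⧸ N n) n = ⊥ := by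
    intro n
    rw [← map_derivedSeries_eq (QuotientGroup.mk'_surjective (N n)) n, eq_bot_iff,
      Subgroup.map_le_iff_le_comap]
    refine (derived_le_ser N hN n).trans ?_
    intro g hg
    rw [Subgroup.mem_comap, Subgroup.mem_bot]
    exact (QuotientGroup.eq_one_iff g).2 hg
  have hex : ∀ n, ∃ (D : Type) (_ : DivisionRing D) (θ : MonoidAlgebra ℚ (S ⧸ N n) →+* D),
      OreEmb θ := by
    intro n
    have := uniq_ser N hN n
    exact exists_oreEmb (S ⧸ N n) inferInstance (fun B => solvB_all n (hd n) B)
  choose D dr θ ho using hex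
  exact ⟨{ D := D, dr := dr, θ := θ, ore := ho }⟩

end Pool.Agent.PDG
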