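import Pool.Agent.PDG.Ind
import Pool.Agent.PDG.SysEx

/-!
# Blueprint PDG, module Link (helper41): the linking pairing has values in the group ring

PROOF.  Let `Y` be a system (`exists_sys`), `K = GU Y ⊤ : Subfield Y.U`, `q n = mp (mk' (N n))`.  Choose `y n` by `hz`, `η n` by
`hξ`.  In `Y.U` put `V i = mkU (fun n => Y.z n (q n (y n i)))`, `H j = mkU (fun n => Y.z n (q n (η n j)))`.  Then
`∑ i, V i * Y.Z (A i j) = Y.Z (z j)` and `∑ j, Y.Z (A i j) * H j = Y.Z (ξ i)` (componentwise, `Z_apply`).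
`Y.U` is a left vector space over the division ring `K` (subring acting by left multiplication) and `K` is a subspace of
it; choose a left `K`-linear map `p : Y.U → K` which is the identity on `K` (a left inverse of the inclusion,
`LinearMap.exists_leftInverse_of_injective`).  As `Y.Z (A i j) ∈ K`, `Y.Z (ξ i) ∈ K` (`Z_mem`), applying `p` gives
`∑ j, Y.Z (A i j) * H' j = Y.Z (ξ i)` with `H' j = p (H j) ∈ K`.  Let `b = ∑ j, Y.Z (z j) * H' j ∈ K`.  Then
`b = ∑ j ∑ i, V i * Y.Z (A i j) * H' j = ∑ i, V i * Y.Z (ξ i) = mkU (fun n => Y.z n (q n (∑ i, y n i * ξ i)))`, so `Y.Int b`.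
By `tpp` `b = Y.Z a` with `a ∈ ℤ[S]`.  So for almost all `n`, hence for arbitrarily large `n` (`ev_ge`,
`Filter.Eventually.exists`), `Y.z n (q n (y n ⬝ᵥ ξ)) = Y.z n (q n a)`, that is (`OreEmb.inj`, `zq_injective`)
`EqM (N n) (y n ⬝ᵥ ξ) a`.
Now let `n` and `y'` with `y' A ≡ z` modulo `N n` be given.  Choose `m ≥ n` with `EqM (N m) (y m ⬝ᵥ ξ) a`.  Congruence modulo
`N m` implies congruence modulo `N n` (`eqM_mono`), and congruences are compatible with sums and products.  Modulo `N n`: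
`y' ⬝ᵥ ξ ≡ y' ⬝ᵥ (A *ᵥ η m) = (y' ᵥ* A) ⬝ᵥ η m ≡ z ⬝ᵥ η m ≡ (y m ᵥ* A) ⬝ᵥ η m = y m ⬝ᵥ (A *ᵥ η m) ≡ y m ⬝ᵥ ξ ≡ a`.
`eqM_all`: if `x ≠ x'` choose `m` such that `N m` contains no `g⁻¹ h ≠ 1` with `g, h` in the support of `x - x'`
(see `Z_injective` in `Rep`; it also follows from `Z_injective` directly: all components of `Y.Z (x - x')` vanish).
-/

set_option autoImplicit false

namespace Pool.Agent.PDG

open Pool.Agent.HFT Pool.Agent.PDF Matrix

variable {S : Type} [Group S] {N : ℕ → Subgroup S} [∀ n, (N n).Normal]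

omit [∀ n, (N n).Normal] in
theorem eqM_mono {M M' : Subgroup S} [M.Normal] [M'.Normal] (h : M ≤ M')
    {x y : MonoidAlgebra ℤ S} (hxy : EqM M x y) : EqM M' x y := by
  have key : ∀ w : MonoidAlgebra ℤ S, mp (QuotientGroup.mk' M') w =
      mp (QuotientGroup.map M M' (MonoidHom.id S) h) (mp (QuotientGroup.mk' M) w) := by
    intro w
    induction w using MonoidAlgebra.induction_linear with
    | zero => simp
    | add x y hx hy => rw [map_add, map_add, map_add, hx, hy]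
    | single g c => rw [mp_single, mp_single, mp_single]; rfl
  unfold EqM at hxy ⊢
  rw [key, key, hxy]

theorem eqM_all (hN : Ser N) {x y : MonoidAlgebra ℤ S} (h : ∀ n, EqM (N n) x y) : x = y := by
  obtain ⟨Y⟩ := exists_sys N hN
  apply Z_injective Y hN
  rw [Y.Z_apply, Y.Z_apply]
  congr 1
  funext n
  have : mp (QuotientGroup.mk' (N n)) x = mp (QuotientGroup.mk' (N n)) y := h n
  rw [this]

private theorem eqM_dot {M : Subgroup S} [M.Normal] {q : Type} [Fintype q]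
    {u v u' v' : q → MonoidAlgebra ℤ S} (h : ∀ j, EqM M (u j) (u' j))
    (h' : ∀ j, EqM M (v j) (v' j)) : EqM M (u ⬝ᵥ v) (u' ⬝ᵥ v') := by
  unfold EqM at *
  simp only [dotProduct, map_sum, map_mul]
  exact Finset.sum_congr rfl fun j _ => by rw [h j, h' j]

private theorem z_inj (Y : Sys N) (n : ℕ) {x y : MonoidAlgebra ℤ S}
    (h : Y.z n (mp (QuotientGroup.mk' (N n)) x) = Y.z n (mp (QuotientGroup.mk' (N n)) y)) :
    EqM (N n) x y := by
  have h1 : Y.θ n (zq (mp (QuotientGroup.mk' (N n)) x)) =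
    Y.θ n (zq (mp (QuotientGroup.mk' (N n)) y)) := h
  exact zq_injective ((Y.ore n).inj h1)

theorem link (hN : Ser N) {p q : Type} [Fintype p] [Fintype q]
    (A : Matrix p q (MonoidAlgebra ℤ S)) (z : q → MonoidAlgebra ℤ S) (ξ : p → MonoidAlgebra ℤ S)
    (hz : ∀ n, ∃ y : p → MonoidAlgebra ℤ S, ∀ j, EqM (N n) ((y ᵥ* A) j) (z j))
    (hξ : ∀ n, ∃ η : q → MonoidAlgebra ℤ S, ∀ i, EqM (N n) ((A *ᵥ η) i) (ξ i)) :
    ∃ a : MonoidAlgebra ℤ S, ∀ (n : ℕ) (y : p → MonoidAlgebra ℤ S),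
      (∀ j, EqM (N n) ((y ᵥ* A) j) (z j)) → EqM (N n) (y ⬝ᵥ ξ) a := by
  obtain ⟨Y⟩ := exists_sys N hN
  have hanti : Antitone N := antitone_nat_of_succ_le hN.anti
  choose y hy using hz
  choose η hη using hξ
  let V : p → Y.U := fun i => mkU uf Y.D fun n => Y.z n (mp (QuotientGroup.mk' (N n)) (y n i))
  let H : q → Y.U := fun j => mkU uf Y.D fun n => Y.z n (mp (QuotientGroup.mk' (N n)) (η n j))
  have hV : ∀ j, ∑ i, V i * Y.Z (A i j) = Y.Z (z j) := by
    intro j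
    simp only [V, Y.Z_apply, ← map_mul, ← map_sum]
    congr 1
    funext n
    rw [Finset.sum_apply]
    have : mp (QuotientGroup.mk' (N n)) ((y n ᵥ* A) j) = mp (QuotientGroup.mk' (N n)) (z j) := hy n j
    simp only [Pi.mul_apply]
    rw [← this]
    simp only [vecMul, dotProduct, map_sum, map_mul]
  have hH : ∀ i, ∑ j, Y.Z (A i j) * H j = Y.Z (ξ i) := by
    intro i
    simp only [H, Y.Z_apply, ← map_mul, ← map_sum]
    congr 1
    funext n
    rw [Finset.sum_apply]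
    have : mp (QuotientGroup.mk' (N n)) ((A *ᵥ η n) i) = mp (QuotientGroup.mk' (N n)) (ξ i) := hη n i
    simp only [Pi.mul_apply]
    rw [← this]
    simp only [mulVec, dotProduct, map_sum, map_mul]
  let K : Subfield Y.U := GU Y ⊤
  let incl : K →ₗ[K] Y.U :=
    { toFun := fun x => (x : Y.U)
      map_add' := fun _ _ => rfl
      map_smul' := fun _ _ => rfl }
  obtain ⟨P, hP⟩ := LinearMap.exists_leftInverse_of_injective incl
    (LinearMap.ker_eq_bot.2 (fun a b h => Subtype.ext h))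
  have hP' : ∀ x : K, P (x : Y.U) = x := fun x => by
    have := LinearMap.congr_fun hP x
    exact this
  have hH' : ∀ i, ∑ j, Y.Z (A i j) * (P (H j) : Y.U) = Y.Z (ξ i) := by
    intro i
    have h1 : P (∑ j, Y.Z (A i j) * H j) = ∑ j, (⟨Y.Z (A i j), Z_mem Y _⟩ : K) * P (H j) := by
      rw [map_sum]
      refine Finset.sum_congr rfl fun j _ => ?_
      exact P.map_smul (⟨Y.Z (A i j), Z_mem Y _⟩ : K) (H j)
    rw [hH i] at h1
    have h2 := hP' (⟨Y.Z (ξ i), Z_mem Y _⟩ : K)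
    have h3 : P (Y.Z (ξ i)) = (⟨Y.Z (ξ i), Z_mem Y _⟩ : K) := h2
    rw [h3] at h1
    have h4 := congrArg (fun t : K => (t : Y.U)) h1
    simp only at h4
    rw [h4]
    push_cast
    rfl
  have hb : ∑ j, Y.Z (z j) * (P (H j) : Y.U) = ∑ i, V i * Y.Z (ξ i) := by
    simp only [← hV, Finset.sum_mul]
    rw [Finset.sum_comm]
    refine Finset.sum_congr rfl fun i _ => ?_
    rw [← hH' i, Finset.mul_sum]
    exact Finset.sum_congr rfl fun j _ => mul_assoc _ _ _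
  have hb2 : ∑ i, V i * Y.Z (ξ i) =
      mkU uf Y.D fun n => Y.z n (mp (QuotientGroup.mk' (N n)) (y n ⬝ᵥ ξ)) := by
    simp only [V, Y.Z_apply, ← map_mul, ← map_sum]
    congr 1
    funext n
    rw [Finset.sum_apply]
    simp only [Pi.mul_apply, dotProduct, map_sum, map_mul]
  obtain ⟨a, ha⟩ := tpp hN Y (∑ i, V i * Y.Z (ξ i))
    (by
      rw [← hb]
      exact sum_mem fun j _ => mul_mem (Z_mem Y _) (P (H j)).2)
    ⟨fun n => mp (QuotientGroup.mk' (N n)) (y n ⬝ᵥ ξ), hb2⟩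
  rw [hb2, Y.Z_apply, mkU_eq_iff] at ha
  refine ⟨a, fun n y' hy' => ?_⟩
  obtain ⟨m, hm1, hm2⟩ := (ha.and (ev_ge n)).exists
  have e1 : EqM (N m) (y m ⬝ᵥ ξ) a := z_inj Y m hm1
  have hle : N m ≤ N n := hanti hm2
  have e2 : EqM (N n) (y m ⬝ᵥ ξ) a := eqM_mono hle e1
  have e3 : EqM (N n) (y' ⬝ᵥ (A *ᵥ η m)) (y' ⬝ᵥ ξ) :=
    eqM_dot (fun _ => rfl) (fun i => eqM_mono hle (hη m i))
  have e4 : EqM (N n) (y m ⬝ᵥ (A *ᵥ η m)) (y m ⬝ᵥ ξ) :=
    eqM_dot (fun _ => rfl) (fun i => eqM_mono hle (hη m i))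
  have e5 : EqM (N n) ((y' ᵥ* A) ⬝ᵥ η m) (z ⬝ᵥ η m) := eqM_dot hy' (fun _ => rfl)
  have e6 : EqM (N n) ((y m ᵥ* A) ⬝ᵥ η m) (z ⬝ᵥ η m) :=
    eqM_dot (fun j => eqM_mono hle (hy m j)) (fun _ => rfl)
  rw [dotProduct_mulVec] at e3 e4
  unfold EqM at *
  rw [← e3, e5, ← e6, e4, e2]

end Pool.Agent.PDG
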