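import Pool.Agent.PDF.Extract
import Pool.Agent.PDF.Beta
import Pool.Agent.PDF.BaseMap
import Pool.Agent.PDF.FinIndex
import Pool.Agent.PDF.ResSol
import Pool.Agent.PDG.Alpha2
import Pool.Agent.PDG.Ext
import Pool.Agent.PDG.Link

/-!
# Blueprint PDG, module Main (helper41)

THEOREM F.  Let `G` be a `PD_3`-group, `π : G → S` a surjection whose kernel is contained in every term of the
derived series of `G`.  If `S` has a descending series with torsion free abelian factors and trivial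
intersection (`Ser`) and `H^2(S; ℤ[S]) = 0` (`H2Zero`) then the kernel of `π` is perfect.

PROOF.  Let `Z₁` be the cycles of degree one of the chain complex over `ℤ[S]` and `Z²` the cocycles of degree two
(columns).  Modulo every `N n` every `z ∈ Z₁` is a boundary and every `ξ ∈ Z²` is a coboundary (`alpha2`, applied to
the complex and to the dual complex).  By `link` this gives a pairing `Z₁ × Z² → ℤ[S]`.  For fixed `z` it is a right
linear functional on `Z²`, which by `ext_row` is given by a row `W`; testing on the columns of `d₂` shows `z = W d₂`.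
So all cycles are boundaries, and `beta` gives the claim.
-/

set_option autoImplicit false

namespace Pool.Agent.PDG

open Matrix Pool.Agent.PDF

section eqm

variable {S : Type} [Group S] {M : Subgroup S} [M.Normal]

theorem EqM.refl (x : MonoidAlgebra ℤ S) : EqM M x x := rfl

theorem EqM.symm {x y : MonoidAlgebra ℤ S} (h : EqM M x y) : EqM M y x := Eq.symm h

theorem EqM.trans {x y z : MonoidAlgebra ℤ S} (h : EqM M x y) (h' : EqM M y z) : EqM M x z :=
  Eq.trans h h'

theorem EqM.add {x y x' y' : MonoidAlgebra ℤ S} (h : EqM M x y) (h' : EqM M x' y') :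
    EqM M (x + x') (y + y') := by
  unfold EqM at *
  rw [map_add, map_add, h, h']

theorem EqM.mul {x y x' y' : MonoidAlgebra ℤ S} (h : EqM M x y) (h' : EqM M x' y') :
    EqM M (x * x') (y * y') := by
  unfold EqM at *
  rw [map_mul, map_mul, h, h']

theorem EqM.sum {ι : Type*} (s : Finset ι) {f g : ι → MonoidAlgebra ℤ S}
    (h : ∀ i ∈ s, EqM M (f i) (g i)) : EqM M (∑ i ∈ s, f i) (∑ i ∈ s, g i) := by
  unfold EqM at *
  rw [map_sum, map_sum]
  exact Finset.sum_congr rfl h

theorem EqM.iota {s : S →* ℤˣ} (hs : M ≤ s.ker) {x y : MonoidAlgebra ℤ S} (h : EqM M x y) :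
    EqM M (iota s x) (iota s y) := by
  set s' : S ⧸ M →* ℤˣ := QuotientGroup.lift M s (fun g hg => hs hg) with hs'
  have hcomp : s'.comp (QuotientGroup.mk' M) = s := by
    ext g
    rfl
  have key : ∀ x, mp (QuotientGroup.mk' M) (PDF.iota s x) =
      PDF.iota s' (mp (QuotientGroup.mk' M) x) := by
    intro x
    have := mp_iota (QuotientGroup.mk' M) s' x
    rw [hcomp] at this
    exact this
  unfold EqM at *
  rw [key, key, h]

end eqm

/-- approximate boundaries for the image of a `Half` -/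
theorem half_app {G S : Type} [Group G] [Group S] (π : G →* S) (hπ : Function.Surjective π)
    (N : ℕ → Subgroup S) (hN : Ser N) (hK : ∀ k, π.ker ≤ derivedSeries G k)
    (M : Subgroup S) [M.Normal] (n : ℕ) (hM : derivedSeries S n ≤ M)
    {n0 n1 n2 : Type*} [Fintype n0] [Fintype n1] [Fintype n2]
    (e0 : Matrix n0 n0 (MonoidAlgebra ℤ G)) (e1 : Matrix n1 n1 (MonoidAlgebra ℤ G))
    (d1 : Matrix n1 n0 (MonoidAlgebra ℤ G)) (d2 : Matrix n2 n1 (MonoidAlgebra ℤ G))
    (m : n0 → ℤ) (h : Half e0 e1 d1 d2 m) (z : n1 → MonoidAlgebra ℤ S)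
    (hz1 : Matrix.vecMul z (e1.map (mp π)) = z) (hz2 : Matrix.vecMul z (d1.map (mp π)) = 0) :
    ∃ y : n2 → MonoidAlgebra ℤ S, ∀ i, EqM M (z i) (Matrix.vecMul y (d2.map (mp π)) i) := by
  have h1 : derivedSeries G n ≤ M.comap π := by
    rw [← Subgroup.map_le_iff_le_comap]
    exact (map_derivedSeries_le_derivedSeries π n).trans hM
  refine alpha2 π hπ M ?_ e0 e1 d1 d2 m h z hz1 hz2
  refine (hK (n + 1)).trans ?_
  rw [derivedSeries_succ]
  exact Subgroup.commutator_mono h1 h1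

theorem core (G : Type) [Group G] (hG : IsPD3 G) {S : Type} [Group S] (π : G →* S)
    (hπ : Function.Surjective π) (N : ℕ → Subgroup S) [∀ n, (N n).Normal] (hN : Ser N)
    (hK : ∀ k, π.ker ≤ derivedSeries G k) (hS : H2Zero S) : π.ker ≤ ⁅π.ker, π.ker⁆ := by
  classical
  obtain ⟨n0, n1, n2, n3, e0, e1, e2, e3, d1, d2, d3, m, m', s, h, h'⟩ := extract G hG
  have hs : π.ker ≤ s.ker := by
    refine (hK 1).trans ?_
    rw [derivedSeries_one]
    exact Abelianization.commutator_subset_ker s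
  obtain ⟨s', hs'⟩ : ∃ s' : S →* ℤˣ, s'.comp π = s :=
    ⟨π.liftOfSurjective hπ ⟨s, hs⟩, MonoidHom.liftOfRightInverse_comp _ _ _ ⟨s, hs⟩⟩
  subst hs'
  -- relations of the dual complex
  have h23 : e2 * d2 = d2 := by
    have := congrArg (dag (s'.comp π)) h'.d2e1
    rwa [dag_mul, dag_dag, dag_dag] at this
  have h32 : d3 * d2 = 0 := by
    have := congrArg (dag (s'.comp π)) h'.d2d1
    rwa [dag_mul, dag_dag, dag_dag, dag_zero] at this
  have h23' : e2.map (mp π) * d2.map (mp π) = d2.map (mp π) := by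
    rw [← Matrix.map_mul, h23]
  have h32' : d3.map (mp π) * d2.map (mp π) = 0 := by
    rw [← Matrix.map_mul, h32]
    ext i j
    simp
  -- the set of cocycles
  set Zc : Set (Fin n2 → MonoidAlgebra ℤ S) :=
    {ξ | (e2.map (mp π)) *ᵥ ξ = ξ ∧ (d3.map (mp π)) *ᵥ ξ = 0} with hZc
  -- rows and columns
  have hrow : ∀ ξ : Fin n2 → MonoidAlgebra ℤ S, ξ ∈ Zc ↔
      (fun j => iota s' (ξ j)) ᵥ* ((dag (s'.comp π) e2).map (mp π)) = (fun j => iota s' (ξ j)) ∧
      (fun j => iota s' (ξ j)) ᵥ* ((dag (s'.comp π) d3).map (mp π)) = 0 := by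
    intro ξ
    rw [dag_mp, dag_mp, vecMul_dag', vecMul_dag', hZc, Set.mem_setOf_eq]
    constructor
    · rintro ⟨h1, h2⟩
      refine ⟨?_, ?_⟩
      · rw [h1]
      · rw [h2]
        funext i
        simp
    · rintro ⟨h1, h2⟩
      refine ⟨?_, ?_⟩
      · funext i
        have := congrArg (iota s') (congrFun h1 i)
        simpa only [iota_iota] using this
      · funext i
        have := congrArg (iota s') (congrFun h2 i)
        simpa only [iota_iota, Pi.zero_apply, map_zero] using this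
  -- cocycles are coboundaries modulo `N n`
  have hcob : ∀ ξ ∈ Zc, ∀ n, ∃ η : Fin n1 → MonoidAlgebra ℤ S,
      ∀ i, EqM (N n) (((d2.map (mp π)) *ᵥ η) i) (ξ i) := by
    intro ξ hξ n
    obtain ⟨h1, h2⟩ := (hrow ξ).1 hξ
    have hM : derivedSeries S (n + 1) ≤ N n ⊓ s'.ker := by
      refine le_inf ?_ ?_
      · exact (derivedSeries_antitone (G := S) (Nat.le_succ n)).trans (derived_le_ser N hN n)
      · refine (derivedSeries_antitone (G := S) (Nat.succ_le_succ (Nat.zero_le n))).trans ?_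
        rw [derivedSeries_one]
        exact Abelianization.commutator_subset_ker s'
    obtain ⟨y, hy⟩ := half_app π hπ N hN hK (N n ⊓ s'.ker) (n + 1) hM _ _ _ _ m' h' _ h1 h2
    rw [dag_mp, vecMul_dag] at hy
    refine ⟨fun j => iota s' (y j), fun i => ?_⟩
    have h3 := EqM.iota (inf_le_right : N n ⊓ s'.ker ≤ s'.ker) (hy i)
    rw [iota_iota, iota_iota] at h3
    exact (eqM_mono inf_le_left h3).symm
  refine beta π hπ e0 e1 d1 d2 m h ?_
  intro z hz1 hz2
  -- the cycle is a boundary modulo `N n`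
  have hbd : ∀ n, ∃ y : Fin n2 → MonoidAlgebra ℤ S,
      ∀ j, EqM (N n) ((y ᵥ* (d2.map (mp π))) j) (z j) := by
    intro n
    obtain ⟨y, hy⟩ := half_app π hπ N hN hK (N n) n (derived_le_ser N hN n) _ _ _ _ m h z hz1 hz2
    exact ⟨y, fun j => (hy j).symm⟩
  -- the pairing with the cycle
  let Lk : (Fin n2 → MonoidAlgebra ℤ S) → MonoidAlgebra ℤ S → Prop := fun ξ a =>
    ∀ (n : ℕ) (y : Fin n2 → MonoidAlgebra ℤ S),
      (∀ j, EqM (N n) ((y ᵥ* (d2.map (mp π))) j) (z j)) → EqM (N n) (y ⬝ᵥ ξ) a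
  have hex : ∀ ξ ∈ Zc, ∃ a, Lk ξ a := fun ξ hξ => link hN _ z ξ hbd (hcob ξ hξ)
  have huniq : ∀ ξ a a', Lk ξ a → Lk ξ a' → a = a' := by
    intro ξ a a' ha ha'
    refine eqM_all hN fun n => ?_
    obtain ⟨y, hy⟩ := hbd n
    exact (ha n y hy).symm.trans (ha' n y hy)
  choose! aF haF using hex
  have hval : ∀ ξ ∈ Zc, ∀ a, Lk ξ a → aF ξ = a := fun ξ hξ a ha => huniq ξ _ _ (haF ξ hξ) ha
  have hZadd : ∀ ξ ∈ Zc, ∀ ξ' ∈ Zc, ξ + ξ' ∈ Zc := by
    rintro ξ ⟨h1, h2⟩ ξ' ⟨h3, h4⟩
    exact ⟨by rw [Matrix.mulVec_add, h1, h3], by rw [Matrix.mulVec_add, h2, h4, add_zero]⟩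
  have hZmul : ∀ ξ ∈ Zc, ∀ b : MonoidAlgebra ℤ S, (fun j => ξ j * b) ∈ Zc := by
    rintro ξ ⟨h1, h2⟩ b
    have h5 : ∀ {k : ℕ} (A : Matrix (Fin k) (Fin n2) (MonoidAlgebra ℤ S)),
        A *ᵥ (fun j => ξ j * b) = fun i => (A *ᵥ ξ) i * b := by
      intro k A
      funext i
      simp only [Matrix.mulVec, dotProduct, Finset.sum_mul, mul_assoc]
    refine ⟨?_, ?_⟩
    · rw [h5, h1]
    · rw [h5, h2]
      funext i
      simp
  have hFadd : ∀ ξ ∈ Zc, ∀ ξ' ∈ Zc, aF (ξ + ξ') = aF ξ + aF ξ' := by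
    intro ξ hξ ξ' hξ'
    refine hval _ (hZadd ξ hξ ξ' hξ') _ ?_
    intro n y hy
    rw [dotProduct_add]
    exact (haF ξ hξ n y hy).add (haF ξ' hξ' n y hy)
  have hFmul : ∀ ξ ∈ Zc, ∀ b : MonoidAlgebra ℤ S, aF (fun j => ξ j * b) = aF ξ * b := by
    intro ξ hξ b
    refine hval _ (hZmul ξ hξ b) _ ?_
    intro n y hy
    have h1 : y ⬝ᵥ (fun j => ξ j * b) = (y ⬝ᵥ ξ) * b := by
      simp only [dotProduct, Finset.sum_mul, mul_assoc]
    rw [h1]
    exact (haF ξ hξ n y hy).mul (EqM.refl b)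
  -- the functional on rows
  have hback : ∀ v : Fin n2 → MonoidAlgebra ℤ S,
      v ᵥ* ((dag (s'.comp π) e2).map (mp π)) = v →
      v ᵥ* ((dag (s'.comp π) d3).map (mp π)) = 0 → (fun j => iota s' (v j)) ∈ Zc := by
    intro v h1 h2
    rw [hrow]
    simp only [iota_iota]
    exact ⟨h1, h2⟩
  obtain ⟨ω, hω⟩ := ext_row hS _ _ _ m' (base_map π hπ _ _ _ m' h'.toBase)
    (fun v => iota s' (aF fun j => iota s' (v j)))
    (by
      intro v w h1 h2 h3 h4
      have h5 : (fun j => iota s' ((v + w) j)) =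
          (fun j => iota s' (v j)) + fun j => iota s' (w j) := by
        funext j
        simp
      simp only [h5]
      rw [hFadd _ (hback v h1 h2) _ (hback w h3 h4), map_add])
    (by
      intro a v h1 h2
      have h5 : (fun j => iota s' ((a • v) j)) = fun j => iota s' (v j) * iota s' a := by
        funext j
        rw [Pi.smul_apply, smul_eq_mul, iota_mul]
      simp only [h5]
      rw [hFmul _ (hback v h1 h2), iota_mul, iota_iota])
  have hW : ∀ ξ ∈ Zc, aF ξ = (fun j => iota s' (ω j)) ⬝ᵥ ξ := by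
    intro ξ hξ
    obtain ⟨h1, h2⟩ := (hrow ξ).1 hξ
    have h3 := hω _ h1 h2
    simp only [iota_iota] at h3
    have h4 := congrArg (iota s') h3
    rw [iota_iota] at h4
    rw [h4]
    simp only [dotProduct, map_sum, iota_mul, iota_iota]
  refine ⟨fun j => iota s' (ω j), ?_⟩
  funext j
  have hcol : (fun i => (d2.map (mp π)) i j) ∈ Zc := by
    refine ⟨?_, ?_⟩
    · funext i
      have := congrFun (congrFun h23' i) j
      rw [Matrix.mul_apply] at this
      exact this
    · funext i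
      have := congrFun (congrFun h32' i) j
      rw [Matrix.mul_apply] at this
      exact this
  have h1 := hW _ hcol
  have h2 : aF (fun i => (d2.map (mp π)) i j) = z j :=
    hval _ hcol _ fun n y hy => hy j
  rw [h2] at h1
  exact h1.symm

theorem final (G : Type) [Group G] (hG : IsPD3 G) (H : Subgroup G) [H.FiniteIndex] (k : ℕ)
    (hk : derivedSeries G k ≤ H) {S : Type} [Group S] (π : H →* S)
    (hπ : Function.Surjective π)
    (hker : π.ker = (⨅ n : ℕ, derivedSeries G n).subgroupOf H)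
    (N : ℕ → Subgroup S) [∀ n, (N n).Normal] (hN : Ser N) (hS : H2Zero S) :
    ⁅⨅ n : ℕ, derivedSeries G n, ⨅ n : ℕ, derivedSeries G n⁆ = ⨅ n : ℕ, derivedSeries G n ∧
      ((∀ H : Subgroup G, ⁅H, H⁆ = H → H = ⊥) → ⨅ n : ℕ, derivedSeries G n = ⊥) := by
  set K : Subgroup G := ⨅ n : ℕ, derivedSeries G n with hKdef
  have hKH : K ≤ H := (iInf_le _ k).trans hk
  have hK : ∀ n, π.ker ≤ derivedSeries H n := by
    intro n x hx
    rw [hker, Subgroup.mem_subgroupOf] at hx
    have h1 : (x : G) ∈ derivedSeries G (k + n) := (iInf_le (derivedSeries G) (k + n)) hx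
    obtain ⟨y, hy, hyx⟩ := derived_sub H k hk n h1
    have : y = x := Subtype.ext hyx
    rwa [← this]
  have h1 := core H (pd3_finiteIndex G hG H) π hπ N hN hK hS
  have hmap : π.ker.map H.subtype = K := by
    rw [hker, Subgroup.subgroupOf_map_subtype, inf_eq_left.2 hKH]
  have h2 : K ≤ ⁅K, K⁆ := by
    have := Subgroup.map_mono (f := H.subtype) h1
    rwa [Subgroup.map_commutator, hmap] at this
  have h3 : ⁅K, K⁆ ≤ K := by
    rw [Subgroup.commutator_le]
    intro a ha b hb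
    exact K.mul_mem (K.mul_mem (K.mul_mem ha hb) (K.inv_mem ha)) (K.inv_mem hb)
  have h4 : ⁅K, K⁆ = K := le_antisymm h3 h2
  exact ⟨h4, fun h => h K h4⟩

end Pool.Agent.PDG
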