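import Pool.Agent.PDG.Main
import Pool.Agent.PDG.Ext2

/-!
# PDG, module Main2 (helper41): separated second cohomology

THEOREM F+.  Let `G` be a `PD_3`-group, `π : G → S` a surjection whose kernel is contained in every term of the
derived series of `G`.  Suppose that `S` has a descending series `N` with torsion free abelian factors and trivial
intersection (`Ser`), and that for every sign character `s` of `S` a 2-cocycle of `S` with values in `ℤ[S]`, twisted by
`s`, which is a coboundary modulo every `N n`, is a coboundary (`H2Sep`; this holds if `H²(S; ℤ[S]) = 0`).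
Then the kernel of `π` is perfect.

PROOF.  As in `Main`; the obstruction to the extension of the linking functional of a cycle `z` is a coboundary
modulo `N n`, because modulo `N n` this functional is multiplication by a chain with boundary `z`.
-/

set_option autoImplicit false

namespace Pool.Agent.PDG

open Matrix Pool.Agent.PDF

/-- twisted 2-cocycles with values in `ℤ[S]` which are coboundaries modulo every `N n` are coboundaries -/
def H2Sep (S : Type) [Group S] (N : ℕ → Subgroup S) [∀ n, (N n).Normal] : Prop :=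
  ∀ (s : S →* ℤˣ) (f : S → S → MonoidAlgebra ℤ S),
    (∀ g h j : S, MonoidAlgebra.single g ((s g : ℤˣ) : ℤ) * f h j + f g (h * j) =
      f (g * h) j + f g h) →
    (∀ n, ∃ c : S → MonoidAlgebra ℤ S, ∀ g h : S, EqM (N n) (f g h)
      (MonoidAlgebra.single g ((s g : ℤˣ) : ℤ) * c h - c (g * h) + c g)) →
    ∃ c : S → MonoidAlgebra ℤ S, ∀ g h : S,
      f g h = MonoidAlgebra.single g ((s g : ℤˣ) : ℤ) * c h - c (g * h) + c g

theorem core2 (G : Type) [Group G] (hG : IsPD3 G) {S : Type} [Group S] (π : G →* S)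
    (hπ : Function.Surjective π) (N : ℕ → Subgroup S) [∀ n, (N n).Normal] (hN : Ser N)
    (hK : ∀ k, π.ker ≤ derivedSeries G k) (hS : H2Sep S N) : π.ker ≤ ⁅π.ker, π.ker⁆ := by
  classical
  obtain ⟨n0, n1, n2, n3, e0, e1, e2, e3, d1, d2, d3, m, m', s, h, h'⟩ := extract G hG
  have hs : π.ker ≤ s.ker := by
    refine (hK 1).trans ?_
    rw [derivedSeries_one]
    exact Abelianization.commutator_subset_ker s
  obtain ⟨s', hs'⟩ : ∃ s' : S →* ℤˣ, s'.comp π = s :=
    ⟨π.liftOfSurjective hπ ⟨s, hs⟩, MonoidHom.liftOfRightInverse_comp _ _ _ ⟨s, hs⟩⟩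
  subst hs'
  -- relations of the dual complex
  have h23 : e2 * d2 = d2 := by
    have := congrArg (dag (s'.comp π)) h'.d2e1
    rwa [dag_mul, dag_dag, dag_dag] at this
  have h32 : d3 * d2 = 0 := by
    have := congrArg (dag (s'.comp π)) h'.d2d1
    rwa [dag_mul, dag_dag, dag_dag, dag_zero] at this
  have h23' : e2.map (mp π) * d2.map (mp π) = d2.map (mp π) := by
    rw [← Matrix.map_mul, h23]
  have h32' : d3.map (mp π) * d2.map (mp π) = 0 := by
    rw [← Matrix.map_mul, h32]
    ext i j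
    simp
  -- the set of cocycles
  set Zc : Set (Fin n2 → MonoidAlgebra ℤ S) :=
    {ξ | (e2.map (mp π)) *ᵥ ξ = ξ ∧ (d3.map (mp π)) *ᵥ ξ = 0} with hZc
  -- rows and columns
  have hrow : ∀ ξ : Fin n2 → MonoidAlgebra ℤ S, ξ ∈ Zc ↔
      (fun j => iota s' (ξ j)) ᵥ* ((dag (s'.comp π) e2).map (mp π)) = (fun j => iota s' (ξ j)) ∧
      (fun j => iota s' (ξ j)) ᵥ* ((dag (s'.comp π) d3).map (mp π)) = 0 := by
    intro ξ
    rw [dag_mp, dag_mp, vecMul_dag', vecMul_dag', hZc, Set.mem_setOf_eq]
    constructor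
    · rintro ⟨h1, h2⟩
      refine ⟨?_, ?_⟩
      · rw [h1]
      · rw [h2]
        funext i
        simp
    · rintro ⟨h1, h2⟩
      refine ⟨?_, ?_⟩
      · funext i
        have := congrArg (iota s') (congrFun h1 i)
        simpa only [iota_iota] using this
      · funext i
        have := congrArg (iota s') (congrFun h2 i)
        simpa only [iota_iota, Pi.zero_apply, map_zero] using this
  -- cocycles are coboundaries modulo `N n`
  have hcob : ∀ ξ ∈ Zc, ∀ n, ∃ η : Fin n1 → MonoidAlgebra ℤ S,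
      ∀ i, EqM (N n) (((d2.map (mp π)) *ᵥ η) i) (ξ i) := by
    intro ξ hξ n
    obtain ⟨h1, h2⟩ := (hrow ξ).1 hξ
    have hM : derivedSeries S (n + 1) ≤ N n ⊓ s'.ker := by
      refine le_inf ?_ ?_
      · exact (derivedSeries_antitone (G := S) (Nat.le_succ n)).trans (derived_le_ser N hN n)
      · refine (derivedSeries_antitone (G := S) (Nat.succ_le_succ (Nat.zero_le n))).trans ?_
        rw [derivedSeries_one]
        exact Abelianization.commutator_subset_ker s'
    obtain ⟨y, hy⟩ := half_app π hπ N hN hK (N n ⊓ s'.ker) (n + 1) hM _ _ _ _ m' h' _ h1 h2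
    rw [dag_mp, vecMul_dag] at hy
    refine ⟨fun j => iota s' (y j), fun i => ?_⟩
    have h3 := EqM.iota (inf_le_right : N n ⊓ s'.ker ≤ s'.ker) (hy i)
    rw [iota_iota, iota_iota] at h3
    exact (eqM_mono inf_le_left h3).symm
  refine beta π hπ e0 e1 d1 d2 m h ?_
  intro z hz1 hz2
  -- the cycle is a boundary modulo `N n`
  have hbd : ∀ n, ∃ y : Fin n2 → MonoidAlgebra ℤ S,
      ∀ j, EqM (N n) ((y ᵥ* (d2.map (mp π))) j) (z j) := by
    intro n
    obtain ⟨y, hy⟩ := half_app π hπ N hN hK (N n) n (derived_le_ser N hN n) _ _ _ _ m h z hz1 hz2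
    exact ⟨y, fun j => (hy j).symm⟩
  -- the pairing with the cycle
  let Lk : (Fin n2 → MonoidAlgebra ℤ S) → MonoidAlgebra ℤ S → Prop := fun ξ a =>
    ∀ (n : ℕ) (y : Fin n2 → MonoidAlgebra ℤ S),
      (∀ j, EqM (N n) ((y ᵥ* (d2.map (mp π))) j) (z j)) → EqM (N n) (y ⬝ᵥ ξ) a
  have hex : ∀ ξ ∈ Zc, ∃ a, Lk ξ a := fun ξ hξ => link hN _ z ξ hbd (hcob ξ hξ)
  have huniq : ∀ ξ a a', Lk ξ a → Lk ξ a' → a = a' := by
    intro ξ a a' ha ha'
    refine eqM_all hN fun n => ?_
    obtain ⟨y, hy⟩ := hbd n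
    exact (ha n y hy).symm.trans (ha' n y hy)
  choose! aF haF using hex
  have hval : ∀ ξ ∈ Zc, ∀ a, Lk ξ a → aF ξ = a := fun ξ hξ a ha => huniq ξ _ _ (haF ξ hξ) ha
  have hZadd : ∀ ξ ∈ Zc, ∀ ξ' ∈ Zc, ξ + ξ' ∈ Zc := by
    rintro ξ ⟨h1, h2⟩ ξ' ⟨h3, h4⟩
    exact ⟨by rw [Matrix.mulVec_add, h1, h3], by rw [Matrix.mulVec_add, h2, h4, add_zero]⟩
  have hZmul : ∀ ξ ∈ Zc, ∀ b : MonoidAlgebra ℤ S, (fun j => ξ j * b) ∈ Zc := by
    rintro ξ ⟨h1, h2⟩ b
    have h5 : ∀ {k : ℕ} (A : Matrix (Fin k) (Fin n2) (MonoidAlgebra ℤ S)),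
        A *ᵥ (fun j => ξ j * b) = fun i => (A *ᵥ ξ) i * b := by
      intro k A
      funext i
      simp only [Matrix.mulVec, dotProduct, Finset.sum_mul, mul_assoc]
    refine ⟨?_, ?_⟩
    · rw [h5, h1]
    · rw [h5, h2]
      funext i
      simp
  have hFadd : ∀ ξ ∈ Zc, ∀ ξ' ∈ Zc, aF (ξ + ξ') = aF ξ + aF ξ' := by
    intro ξ hξ ξ' hξ'
    refine hval _ (hZadd ξ hξ ξ' hξ') _ ?_
    intro n y hy
    rw [dotProduct_add]
    exact (haF ξ hξ n y hy).add (haF ξ' hξ' n y hy)
  have hFmul : ∀ ξ ∈ Zc, ∀ b : MonoidAlgebra ℤ S, aF (fun j => ξ j * b) = aF ξ * b := by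
    intro ξ hξ b
    refine hval _ (hZmul ξ hξ b) _ ?_
    intro n y hy
    have h1 : y ⬝ᵥ (fun j => ξ j * b) = (y ⬝ᵥ ξ) * b := by
      simp only [dotProduct, Finset.sum_mul, mul_assoc]
    rw [h1]
    exact (haF ξ hξ n y hy).mul (EqM.refl b)
  -- the functional on rows
  have hback : ∀ v : Fin n2 → MonoidAlgebra ℤ S,
      v ᵥ* ((dag (s'.comp π) e2).map (mp π)) = v →
      v ᵥ* ((dag (s'.comp π) d3).map (mp π)) = 0 → (fun j => iota s' (v j)) ∈ Zc := by
    intro v h1 h2
    rw [hrow]
    simp only [iota_iota]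
    exact ⟨h1, h2⟩
  obtain ⟨ω, hω⟩ := ext_row2 _ _ _ m' (base_map π hπ _ _ _ m' h'.toBase)
    (fun v => iota s' (aF fun j => iota s' (v j)))
    (by
      intro v w h1 h2 h3 h4
      have h5 : (fun j => iota s' ((v + w) j)) =
          (fun j => iota s' (v j)) + fun j => iota s' (w j) := by
        funext j
        simp
      simp only [h5]
      rw [hFadd _ (hback v h1 h2) _ (hback w h3 h4), map_add])
    (by
      intro a v h1 h2
      have h5 : (fun j => iota s' ((a • v) j)) = fun j => iota s' (v j) * iota s' a := by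
        funext j
        rw [Pi.smul_apply, smul_eq_mul, iota_mul]
      simp only [h5]
      rw [hFmul _ (hback v h1 h2), iota_mul, iota_iota])
    (by
      intro x hxZ hcoc
      have hα : ∀ a b : MonoidAlgebra ℤ S,
          iota 1 (iota s' (a * b)) = iota 1 (iota s' a) * iota 1 (iota s' b) := by
        intro a b
        rw [iota_mul, iota_mul]
      have hα' : ∀ a b : MonoidAlgebra ℤ S,
          iota s' (iota 1 (a * b)) = iota s' (iota 1 a) * iota s' (iota 1 b) := by
        intro a b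
        rw [iota_mul, iota_mul]
      have hαs : ∀ g : S, iota 1 (iota s' (MonoidAlgebra.single g 1)) =
          (MonoidAlgebra.single g ((s' g : ℤˣ) : ℤ) : MonoidAlgebra ℤ S) := by
        intro g
        simp
      have hαs' : ∀ g : S, iota s' (iota 1 (MonoidAlgebra.single g ((s' g : ℤˣ) : ℤ))) =
          (MonoidAlgebra.single g 1 : MonoidAlgebra ℤ S) := by
        intro g
        rw [← hαs, iota_iota, iota_iota]
      obtain ⟨c, hc⟩ := hS s' (fun g j => iota 1 (iota s' (iota s' (aF fun i =>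
          iota s' ((x g + (MonoidAlgebra.single g 1 : MonoidAlgebra ℤ S) • x j -
            x (g * j)) i)))))
        (by
          intro g h j
          have h1 := congrArg (fun a => iota 1 (iota s' a)) (hcoc g h j)
          simp only [map_add, hα, hαs] at h1
          exact h1)
        (by
          intro n
          obtain ⟨y, hy⟩ := hbd n
          refine ⟨fun g => iota 1 (y ⬝ᵥ fun i => iota s' (x g i)), fun g j => ?_⟩
          have hz : (fun i => iota s' ((x g + (MonoidAlgebra.single g 1 : MonoidAlgebra ℤ S) •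
              x j - x (g * j)) i)) ∈ Zc := hback _ (hxZ g j).1 (hxZ g j).2
          have h1 := haF _ hz n y hy
          have h2 := EqM.iota (s := (1 : S →* ℤˣ)) (fun g _ => by simp) h1
          rw [iota_iota s']
          refine h2.symm.trans ?_
          have h3 : (y ⬝ᵥ fun i => iota s' ((x g + (MonoidAlgebra.single g 1 :
              MonoidAlgebra ℤ S) • x j - x (g * j)) i)) =
              (y ⬝ᵥ fun i => iota s' (x j i)) * iota s' (MonoidAlgebra.single g 1) -
                (y ⬝ᵥ fun i => iota s' (x (g * j) i)) + y ⬝ᵥ fun i => iota s' (x g i) := by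
            simp only [dotProduct, Pi.sub_apply, Pi.add_apply, Pi.smul_apply, smul_eq_mul,
              map_sub, map_add, iota_mul, mul_sub, mul_add, Finset.sum_sub_distrib,
              Finset.sum_add_distrib, Finset.sum_mul, mul_assoc]
            abel
          rw [h3, map_add, map_sub, iota_mul, hαs]
          exact EqM.refl _)
      refine ⟨fun g => iota s' (iota 1 (c g)), fun g j => ?_⟩
      have h1 := congrArg (fun a => iota s' (iota 1 a)) (hc g j)
      simp only [iota_iota, map_add, map_sub, hα', hαs'] at h1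
      exact h1)
  have hW : ∀ ξ ∈ Zc, aF ξ = (fun j => iota s' (ω j)) ⬝ᵥ ξ := by
    intro ξ hξ
    obtain ⟨h1, h2⟩ := (hrow ξ).1 hξ
    have h3 := hω _ h1 h2
    simp only [iota_iota] at h3
    have h4 := congrArg (iota s') h3
    rw [iota_iota] at h4
    rw [h4]
    simp only [dotProduct, map_sum, iota_mul, iota_iota]
  refine ⟨fun j => iota s' (ω j), ?_⟩
  funext j
  have hcol : (fun i => (d2.map (mp π)) i j) ∈ Zc := by
    refine ⟨?_, ?_⟩
    · funext i
      have := congrFun (congrFun h23' i) j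
      rw [Matrix.mul_apply] at this
      exact this
    · funext i
      have := congrFun (congrFun h32' i) j
      rw [Matrix.mul_apply] at this
      exact this
  have h1 := hW _ hcol
  have h2 : aF (fun i => (d2.map (mp π)) i j) = z j :=
    hval _ hcol _ fun n y hy => hy j
  rw [h2] at h1
  exact h1.symm

theorem final2 (G : Type) [Group G] (hG : IsPD3 G) (H : Subgroup G) [H.FiniteIndex] (k : ℕ)
    (hk : derivedSeries G k ≤ H) {S : Type} [Group S] (π : H →* S)
    (hπ : Function.Surjective π)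
    (hker : π.ker = (⨅ n : ℕ, derivedSeries G n).subgroupOf H)
    (N : ℕ → Subgroup S) [∀ n, (N n).Normal] (hN : Ser N) (hS : H2Sep S N) :
    ⁅⨅ n : ℕ, derivedSeries G n, ⨅ n : ℕ, derivedSeries G n⁆ = ⨅ n : ℕ, derivedSeries G n ∧
      ((∀ H : Subgroup G, ⁅H, H⁆ = H → H = ⊥) → ⨅ n : ℕ, derivedSeries G n = ⊥) := by
  set K : Subgroup G := ⨅ n : ℕ, derivedSeries G n with hKdef
  have hKH : K ≤ H := (iInf_le _ k).trans hk
  have hK : ∀ n, π.ker ≤ derivedSeries H n := by
    intro n x hx
    rw [hker, Subgroup.mem_subgroupOf] at hx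
    have h1 : (x : G) ∈ derivedSeries G (k + n) := (iInf_le (derivedSeries G) (k + n)) hx
    obtain ⟨y, hy, hyx⟩ := derived_sub H k hk n h1
    have : y = x := Subtype.ext hyx
    rwa [← this]
  have h1 := core2 H (pd3_finiteIndex G hG H) π hπ N hN hK hS
  have hmap : π.ker.map H.subtype = K := by
    rw [hker, Subgroup.subgroupOf_map_subtype, inf_eq_left.2 hKH]
  have h2 : K ≤ ⁅K, K⁆ := by
    have := Subgroup.map_mono (f := H.subtype) h1
    rwa [Subgroup.map_commutator, hmap] at this
  have h3 : ⁅K, K⁆ ≤ K := by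
    rw [Subgroup.commutator_le]
    intro a ha b hb
    exact K.mul_mem (K.mul_mem (K.mul_mem ha hb) (K.inv_mem ha)) (K.inv_mem hb)
  have h4 : ⁅K, K⁆ = K := le_antisymm h3 h2
  exact ⟨h4, fun h => h K h4⟩

end Pool.Agent.PDG
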