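import Pool.Agent.PDG.KBl

/-!
# Blueprint PDG, module Rep (helper41): representing families

`GU Y B` is the division subring of the ultraproduct generated by `ℚ` and the subgroup `B` of `S`.
PROOF of `rep`.  `Subfield.closure_induction`.  `Y.R c = mkU (fun n => Y.r n c)` and
`Y.r n c = θ n (single 1 c) ∈ DB`; `Y.A b = mkU (fun n => Y.a n b)` with `Y.a n b = θ n (single (mk b) 1)`, `mk b` in the image of
`B`.  Sums, products, negatives: componentwise.  Inverses: `mkU_inv` (`HFT.Ult`).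
`Z_mem`: `MonoidAlgebra.induction_linear`: `Y.Z (single g c) = Y.A g * Y.R c` (componentwise).
`Z_injective`: if `Y.Z x = 0` and `x ≠ 0`: choose `m₀` such that the finitely many elements `g⁻¹ h ≠ 1`, `g, h` in the
support of `x`, are not in `N m₀` (`Ser.inf`, `Ser.anti`), then for all `m ≥ m₀` the image of `x` in `ℤ[S / N m]` is
nonzero, so the `m`-th component is nonzero (`zq_injective`, `OreEmb.inj`); but it vanishes for almost all `m`, and the
set of `m ≥ m₀` is in `uf` (`Filter.hyperfilter` is finer than the cofinite filter).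
-/

set_option autoImplicit false

namespace Pool.Agent.PDG

open Pool.Agent.HFT Pool.Agent.PDF

variable {S : Type} [Group S] {N : ℕ → Subgroup S} [∀ n, (N n).Normal]

/-- the division subring of the ultraproduct generated by `ℚ` and a subgroup of `S` -/
noncomputable def GU (Y : Sys N) (B : Subgroup S) : Subfield Y.U :=
  Subfield.closure (Set.range Y.R ∪ {x | ∃ b ∈ B, Y.A b = x})

theorem rep (Y : Sys N) (B : Subgroup S) (x : Y.U) (hx : x ∈ GU Y B) :
    ∃ y : ∀ n, Y.D n, x = mkU uf Y.D y ∧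
      ∀ n, y n ∈ DB (Y.θ n) (B.map (QuotientGroup.mk' (N n))) := by
  unfold GU at hx
  induction hx using Subfield.closure_induction with
  | mem z hz =>
    rcases hz with ⟨c, rfl⟩ | ⟨b, hb, rfl⟩
    · refine ⟨fun n => Y.r n c, Y.R_apply c, fun n => ?_⟩
      exact mem_DB_of_KB (Y.θ n) (single_mem_KB (one_mem _) c)
    · refine ⟨fun n => Y.a n b, Y.A_apply b, fun n => ?_⟩
      exact mem_DB_of_KB (Y.θ n) (single_mem_KB (Subgroup.mem_map_of_mem _ hb) 1)
  | one => exact ⟨1, (map_one _).symm, fun i => one_mem _⟩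
  | add z w _ _ ihz ihw =>
    obtain ⟨x, hx, hx'⟩ := ihz
    obtain ⟨y, hy, hy'⟩ := ihw
    exact ⟨x + y, by rw [map_add, hx, hy], fun i => add_mem (hx' i) (hy' i)⟩
  | neg z _ ihz =>
    obtain ⟨x, hx, hx'⟩ := ihz
    exact ⟨-x, by rw [map_neg, hx], fun i => neg_mem (hx' i)⟩
  | inv z _ ihz =>
    obtain ⟨x, hx, hx'⟩ := ihz
    exact ⟨x⁻¹, by rw [mkU_inv, hx], fun i => inv_mem (hx' i)⟩
  | mul z w _ _ ihz ihw =>
    obtain ⟨x, hx, hx'⟩ := ihz
    obtain ⟨y, hy, hy'⟩ := ihw
    exact ⟨x * y, by rw [map_mul, hx, hy], fun i => mul_mem (hx' i) (hy' i)⟩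

theorem R_mem (Y : Sys N) (B : Subgroup S) (c : ℚ) : Y.R c ∈ GU Y B :=
  Subfield.subset_closure (Or.inl ⟨c, rfl⟩)

theorem A_mem (Y : Sys N) {B : Subgroup S} {g : S} (hg : g ∈ B) : Y.A g ∈ GU Y B :=
  Subfield.subset_closure (Or.inr ⟨g, hg, rfl⟩)

private theorem r_apply (Y : Sys N) (n : ℕ) (c : ℚ) :
    Y.r n c = Y.θ n (MonoidAlgebra.single 1 c) := rfl

private theorem a_apply (Y : Sys N) (n : ℕ) (g : S) :
    Y.a n g = Y.θ n (MonoidAlgebra.single (QuotientGroup.mk' (N n) g) 1) := rfl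

private theorem z_apply (Y : Sys N) (n : ℕ) (x : MonoidAlgebra ℤ (S ⧸ N n)) :
    Y.z n x = Y.θ n (zq x) := rfl

theorem R_A (Y : Sys N) (c : ℚ) (g : S) : Y.R c * Y.A g = Y.A g * Y.R c := by
  rw [Y.R_apply, Y.A_apply, ← map_mul, ← map_mul]
  congr 1
  funext n
  change Y.r n c * Y.a n g = Y.a n g * Y.r n c
  rw [r_apply, a_apply, ← map_mul, ← map_mul, MonoidAlgebra.single_mul_single,
    MonoidAlgebra.single_mul_single, one_mul, mul_one, one_mul, mul_one]

theorem Z_single (Y : Sys N) (g : S) (c : ℤ) :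
    Y.Z (MonoidAlgebra.single g c) = Y.A g * Y.R (c : ℚ) := by
  rw [Y.R_apply, Y.A_apply, Y.Z_apply, ← map_mul]
  congr 1
  funext n
  change Y.z n _ = Y.a n g * Y.r n c
  rw [r_apply, a_apply, ← map_mul, MonoidAlgebra.single_mul_single, mul_one, one_mul, mp_single,
    z_apply, zq_single]

theorem Z_mem (Y : Sys N) (x : MonoidAlgebra ℤ S) : Y.Z x ∈ GU Y ⊤ := by
  induction x using MonoidAlgebra.induction_linear with
  | zero => rw [map_zero]; exact zero_mem _
  | add x y hx hy => rw [map_add]; exact add_mem hx hy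
  | single g c => rw [Z_single]; exact mul_mem (A_mem Y (Subgroup.mem_top g)) (R_mem Y ⊤ _)

theorem Int_A (Y : Sys N) (g : S) : Y.Int (Y.A g) := by
  refine ⟨fun n => MonoidAlgebra.single (QuotientGroup.mk' (N n) g) 1, ?_⟩
  rw [Y.A_apply]
  congr 1
  funext n
  rw [a_apply, z_apply, zq_single, Int.cast_one]

theorem Int_mul (Y : Sys N) {x y : Y.U} (hx : Y.Int x) (hy : Y.Int y) : Y.Int (x * y) := by
  obtain ⟨u, rfl⟩ := hx
  obtain ⟨v, rfl⟩ := hy
  refine ⟨fun n => u n * v n, ?_⟩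
  rw [← map_mul]
  congr 1
  funext n
  change Y.z n (u n) * Y.z n (v n) = _
  rw [map_mul]

/-- nonprincipality of the ultrafilter -/
theorem ev_ge (m : ℕ) : ∀ᶠ n in (uf : Filter ℕ), m ≤ n := by
  have h : (uf : Filter ℕ) ≤ Filter.cofinite := Filter.hyperfilter_le_cofinite
  rw [Nat.cofinite_eq_atTop] at h
  exact h (Filter.eventually_ge_atTop m)

omit [∀ n, (N n).Normal] in
private theorem sep (hN : Ser N) (F : Finset S) : ∃ m, ∀ n, m ≤ n → ∀ g ∈ F, g ∈ N n → g = 1 := by
  have hanti : Antitone N := antitone_nat_of_succ_le hN.anti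
  classical
  induction F using Finset.induction_on with
  | empty => exact ⟨0, fun _ _ g hg => absurd hg (Finset.notMem_empty g)⟩
  | insert a F _ ih =>
    obtain ⟨m, hm⟩ := ih
    by_cases ha : a = 1
    · refine ⟨m, fun n hn g hg hgn => ?_⟩
      rcases Finset.mem_insert.1 hg with rfl | h
      · exact ha
      · exact hm n hn g h hgn
    · have : ∃ k, a ∉ N k := by
        by_contra hcon
        push Not at hcon
        exact ha (hN.inf a hcon)
      obtain ⟨k, hk⟩ := this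
      refine ⟨max m k, fun n hn g hg hgn => ?_⟩
      rcases Finset.mem_insert.1 hg with rfl | h
      · exact absurd (hanti (le_trans (le_max_right _ _) hn) hgn) hk
      · exact hm n (le_trans (le_max_left _ _) hn) g h hgn

private theorem mp_ne (x : MonoidAlgebra ℤ S) (M : Subgroup S) [M.Normal]
    (h : ∀ g ∈ x.coeff.support, ∀ h' ∈ x.coeff.support, g⁻¹ * h' ∈ M → g = h')
    (h0 : mp (QuotientGroup.mk' M) x = 0) : x = 0 := by
  have e1 : (mp (QuotientGroup.mk' M) x).coeff = Finsupp.mapDomain (QuotientGroup.mk' M) x.coeff :=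
    rfl
  rw [h0] at e1
  have hinj : Set.InjOn (QuotientGroup.mk' M) (x.coeff.support : Set S) := by
    intro g hg g' hg' he
    apply h g hg g' hg'
    exact QuotientGroup.eq.1 he
  have h1 := Finsupp.mapDomain_injOn (M := ℤ) (x.coeff.support : Set S) hinj
    (show x.coeff ∈ {w : S →₀ ℤ | (w.support : Set S) ⊆ x.coeff.support} from fun _ h => h)
    (show (0 : S →₀ ℤ) ∈ {w : S →₀ ℤ | (w.support : Set S) ⊆ x.coeff.support} by simp)
    (by rw [← e1, Finsupp.mapDomain_zero]; rfl)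
  exact MonoidAlgebra.coeff_eq_zero.1 h1

theorem Z_injective (Y : Sys N) (hN : Ser N) : Function.Injective Y.Z := by
  rw [injective_iff_map_eq_zero]
  intro x hx
  classical
  obtain ⟨m, hm⟩ := sep hN ((x.coeff.support ×ˢ x.coeff.support).image fun q => q.1⁻¹ * q.2)
  rw [Y.Z_apply, ← map_zero (mkU uf Y.D), mkU_eq_iff] at hx
  obtain ⟨n, hn1, hn2⟩ := (hx.and (ev_ge m)).exists
  have h1 : Y.θ n (zq (mp (QuotientGroup.mk' (N n)) x)) = 0 := hn1
  have h2 : zq (mp (QuotientGroup.mk' (N n)) x) = 0 :=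
    (Y.ore n).inj (by rw [h1, map_zero])
  have h3 : mp (QuotientGroup.mk' (N n)) x = 0 := zq_injective (by rw [h2, map_zero])
  apply mp_ne x (N n) _ h3
  intro g hg g' hg' hgg
  have := hm n hn2 (g⁻¹ * g') (Finset.mem_image.2 ⟨(g, g'), Finset.mem_product.2 ⟨hg, hg'⟩, rfl⟩) hgg
  exact (inv_mul_eq_one.1 this)

end Pool.Agent.PDG
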