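import Pool.Agent.PDG.TS
import Pool.Agent.PDG.DecM
import Pool.Agent.PDG.Cmp

/-!
# Blueprint PDG, module StepU (helper41): expansions of internal elements

PROOF.  Notation: `M = CS.Le 1 i` (a group), `τ a = CS.deg 1 i a`, `αU = Y.A.comp M.subtype`, `ΔU = GU Y (CS.Lt 1 i)`; for
`m : ℕ` `π m = (mk' (N m)).comp M.subtype`, `L0 m = (CS.Lt 1 i).map (mk' (N m))`, `α m = al (Y.θ m) (π m)`,
`Δ m = DB (Y.θ m) (L0 m)`.  `hα` of `cmp`: `rfl` (or `Y.A_apply`).  `hΔ` of `cmp`: `rep`.  For `m ≥ n₀` (`exists_dat`, `ev_ge`)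
`Dat (π m) τ (L0 m)`, so `gr` gives `GrData (α m) τ (Δ m)`, and `grneg` the same for `-τ`.
By `exists_isVgen` choose valuations: `v'` on `Y.U` for `-τ`, and for `m ≥ n₀` `w' m` for `-τ`, `w m` for `τ` on `Y.D m`
(anything for `m < n₀`).  Write `u = mkU (fun m => Y.z m (y m))` (`hi`); recall `Y.z m y = Y.θ m (zq y)`.
By `cmp` (for `-τ`, `closureU`, `gr_closure`): for almost all `m` `Y.z m (y m) ∈ DB (Y.θ m) (π m).range` and
`w' m (Y.z m (y m)) = v' u`.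
Choice of `β`: if `u = 0` let `β = 0`; otherwise `v' u = c` is a real number (`IsVgen.top`) and `β = max (-c) 0`.
Then for almost all `m`: `(y m).coeff (π m a) ≠ 0 → τ a ≤ β`: for `u ≠ 0` by `bd` with `C = -c`; for `u = 0` because
`Y.z m (y m) = 0` and so `y m = 0` (`OreEmb.inj`, `zq_injective`) for almost all `m`.
Now let `u0, F, w₁, v` be given (`w₁` for `w` in the theorem).  Write `u0 = mkU y0` with `y0 m ∈ Δ m`, and for `d ∈ F`
`w₁ d = αU (a d) * c d`, `τ (a d) = d`, `c d = mkU (c' d)`, `c' d m ∈ Δ m` (`rep`).  The element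
`x = u - u0 - ∑ d ∈ F, w₁ d` lies in `GU Y (CS.Le 1 i)` and is represented by
`x' m = Y.z m (y m) - y0 m - ∑ d ∈ F, α m (a d) * c' d m`.  By `cmp` for `τ`: `w m (x' m) = v x > β` for almost all `m`.
So for almost all `m` the hypotheses of `decM` hold, which gives: `y0 m = Y.z m (..)`, `α m (a d) * c' d m = Y.z m (..)` for
`d ∈ F`, `d ≤ β`, and `Y.z m (y m) = y0 m + ∑ d ∈ F with d ≤ β, α m (a d) * c' d m`.  Passing to the classes in the
ultraproduct (choose the elements of `ℤ[S / N m]` where they exist, `0` elsewhere) gives the three conclusions.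
-/

set_option autoImplicit false

namespace Pool.Agent.PDG

open Pool.Agent.HFT Pool.Agent.PDF

variable {S : Type} [Group S] {N : ℕ → Subgroup S} [∀ n, (N n).Normal]

private theorem int_of_ev (Y : Sys N) (x : ∀ n, Y.D n)
    (h : ∀ᶠ n in (uf : Filter ℕ), ∃ y : MonoidAlgebra ℤ (S ⧸ N n), x n = Y.z n y) :
    Y.Int (mkU uf Y.D x) := by
  classical
  have h1 : ∀ n, ∃ y : MonoidAlgebra ℤ (S ⧸ N n), (∃ y' : MonoidAlgebra ℤ (S ⧸ N n), x n = Y.z n y') →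
      x n = Y.z n y := by
    intro n
    by_cases hn : ∃ y' : MonoidAlgebra ℤ (S ⧸ N n), x n = Y.z n y'
    · obtain ⟨y', hy'⟩ := hn
      exact ⟨y', fun _ => hy'⟩
    · exact ⟨0, fun h' => absurd h' hn⟩
  choose y hy using h1
  exact ⟨y, mkU_eq_iff.2 (h.mono fun n hn => hy n hn)⟩

theorem stepU (hN : Ser N) (Y : Sys N) (CS : ConradSys S)
    (hc : ∀ i : CS.I, ∃ n, ∀ g ∈ N n, CS.lev g < (i : WithBot CS.I)) (i : CS.I)
    (u : Y.U) (hu : u ∈ GU Y (CS.Le 1 i)) (hi : Y.Int u) :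
    ∃ β : ℝ, 0 ≤ β ∧ ∀ u0 : Y.U, u0 ∈ GU Y (CS.Lt 1 i) → ∀ F : Finset ℝ, (∀ d ∈ F, 0 < d) →
      ∀ w : ℝ → Y.U,
      (∀ d ∈ F, w d ∈ HomSet (Y.A.comp (CS.Le 1 i).subtype) (fun a => CS.deg 1 i (a : S))
        (GU Y (CS.Lt 1 i)) d) →
      ∀ v : Y.U → WithTop ℝ,
      IsVgen (Y.A.comp (CS.Le 1 i).subtype) (fun a => CS.deg 1 i (a : S))
        (GU Y (CS.Lt 1 i)) v →
      (β : WithTop ℝ) < v (u - u0 - ∑ d ∈ F, w d) →
      Y.Int u0 ∧ (∀ d ∈ F, d ≤ β → Y.Int (w d)) ∧ u = u0 + ∑ d ∈ F with d ≤ β, w d := by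
  classical
  obtain ⟨n₀, hd⟩ := exists_dat N hN CS hc 1 i
  obtain ⟨y, hy⟩ := hi
  set τ : CS.Le 1 i → ℝ := fun a => CS.deg 1 i (a : S) with hτ
  set αU : CS.Le 1 i →* Y.U := Y.A.comp (CS.Le 1 i).subtype with hαU
  have hcl := closureU Y CS 1 i
  have hU : GrData αU τ (GU Y (CS.Lt 1 i)) := grU hN Y CS hc 1 i
  let π : ∀ m, CS.Le 1 i →* S ⧸ N m := fun m => (QuotientGroup.mk' (N m)).comp (CS.Le 1 i).subtype
  let L0 : ∀ m, Subgroup (S ⧸ N m) := fun m => (CS.Lt 1 i).map (QuotientGroup.mk' (N m))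
  let α : ∀ m, CS.Le 1 i →* Y.D m := fun m => al (Y.θ m) (π m)
  let Δ : ∀ m, Subfield (Y.D m) := fun m => DB (Y.θ m) (L0 m)
  have hd' : ∀ m, n₀ ≤ m → Dat (π m) τ (L0 m) := hd
  have hα : ∀ a, αU a = mkU uf Y.D (fun m => α m a) := fun a => rfl
  have hΔ : ∀ x ∈ GU Y (CS.Lt 1 i), ∃ y : ∀ m, Y.D m, x = mkU uf Y.D y ∧ ∀ m, y m ∈ Δ m :=
    fun x hx => rep Y (CS.Lt 1 i) x hx
  have hg0 : ∀ m, n₀ ≤ m → GrData (α m) τ (Δ m) := fun m hm => gr (Y.ore m) (hd' m hm)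
  have hg : ∀ᶠ m in (uf : Filter ℕ), GrData (α m) τ (Δ m) := (ev_ge n₀).mono hg0
  have hg' : ∀ᶠ m in (uf : Filter ℕ), GrData (α m) (fun a => -τ a) (Δ m) :=
    hg.mono fun m h => grneg h
  have hw : ∀ m, ∃ w : Y.D m → WithTop ℝ, n₀ ≤ m → IsVgen (α m) τ (Δ m) w := by
    intro m
    by_cases hm : n₀ ≤ m
    · obtain ⟨w, hw⟩ := exists_isVgen (hg0 m hm)
      exact ⟨w, fun _ => hw⟩
    · exact ⟨fun _ => 0, fun h => absurd h hm⟩
  have hw' : ∀ m, ∃ w : Y.D m → WithTop ℝ, n₀ ≤ m → IsVgen (α m) (fun a => -τ a) (Δ m) w := by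
    intro m
    by_cases hm : n₀ ≤ m
    · obtain ⟨w, hw⟩ := exists_isVgen (grneg (hg0 m hm))
      exact ⟨w, fun _ => hw⟩
    · exact ⟨fun _ => 0, fun h => absurd h hm⟩
  choose w hw using hw
  choose w' hw' using hw'
  obtain ⟨v', hv'⟩ := exists_isVgen (grneg hU)
  have hxu : u ∈ Subfield.closure (((GU Y (CS.Lt 1 i) : Subfield Y.U) : Set Y.U) ∪
      Set.range αU) := by
    rw [hcl]
    exact hu
  have hneg := cmp (fun a => -τ a) α Δ αU hα (GU Y (CS.Lt 1 i)) hΔ hg' (grneg hU) v' hv' w'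
    ((ev_ge n₀).mono fun m hm => hw' m hm) u hxu (fun m => Y.z m (y m)) hy
  have hmem : ∀ᶠ m in (uf : Filter ℕ), Y.θ m (zq (y m)) ∈ DB (Y.θ m) (π m).range := by
    filter_upwards [hneg, ev_ge n₀] with m hm hm0
    rw [← gr_closure (Y.θ m) (hd' m hm0)]
    exact hm.1
  have hβ : ∃ β : ℝ, 0 ≤ β ∧ ∀ᶠ m in (uf : Filter ℕ), ∀ a : CS.Le 1 i,
      (y m).coeff (π m a) ≠ 0 → τ a ≤ β := by
    by_cases hu0 : u = 0
    · refine ⟨0, le_rfl, ?_⟩
      rw [hu0, ← map_zero (mkU uf Y.D)] at hy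
      refine (mkU_eq_iff.1 hy).mono fun m hm a ha => ?_
      exfalso
      have h1 : Y.θ m (zq (y m)) = 0 := hm.symm
      have h2 : zq (y m) = 0 := (Y.ore m).inj (by rw [h1, map_zero])
      have h3 : y m = 0 := zq_injective (by rw [h2, map_zero])
      rw [h3] at ha
      exact ha rfl
    · have h1 : v' u ≠ ⊤ := fun h => hu0 ((hv'.top u hxu).1 h)
      obtain ⟨c, hcv⟩ := WithTop.ne_top_iff_exists.1 h1
      refine ⟨max (-c) 0, le_max_right _ _, ?_⟩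
      filter_upwards [hneg, hmem, ev_ge n₀] with m hm hm' hm0 a ha
      refine le_trans (bd (Y.ore m) (hd' m hm0) (y m) hm' (w' m) (hw' m hm0) (-c) ?_ a ha)
        (le_max_left _ _)
      rw [neg_neg]
      have h2 : w' m (Y.θ m (zq (y m))) = v' u := hm.2
      rw [h2, ← hcv]
  obtain ⟨β, hβ0, hb⟩ := hβ
  refine ⟨β, hβ0, fun u0 hu0 F hF w₁ hw₁ v hv hr => ?_⟩
  obtain ⟨y0, hy0, hy0D⟩ := hΔ u0 hu0
  have hW : ∀ d : ℝ, ∃ W : ∀ m, Y.D m, d ∈ F → (w₁ d = mkU uf Y.D W ∧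
      ∀ m, W m ∈ HomSet (α m) τ (Δ m) d) := by
    intro d
    by_cases hdF : d ∈ F
    · obtain ⟨a, ha, c, hcΔ, hac⟩ := hw₁ d hdF
      obtain ⟨c', hc', hcD⟩ := hΔ c hcΔ
      refine ⟨fun m => α m a * c' m, fun _ => ⟨?_, fun m => ⟨a, ha, c' m, hcD m, rfl⟩⟩⟩
      rw [hac, hα, hc', ← map_mul]
      rfl
    · exact ⟨fun _ => 0, fun h => absurd h hdF⟩
  choose W hW using hW
  have hLt : GU Y (CS.Lt 1 i) ≤ GU Y (CS.Le 1 i) := by
    rw [← hcl]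
    exact fun x hx => Subfield.subset_closure (Or.inl hx)
  have hw₁mem : ∀ d ∈ F, w₁ d ∈ GU Y (CS.Le 1 i) := by
    intro d hdF
    obtain ⟨a, ha, c, hcΔ, hac⟩ := hw₁ d hdF
    rw [hac]
    exact mul_mem (A_mem Y a.2) (hLt hcΔ)
  set x : Y.U := u - u0 - ∑ d ∈ F, w₁ d with hx
  have hxmem : x ∈ Subfield.closure (((GU Y (CS.Lt 1 i) : Subfield Y.U) : Set Y.U) ∪
      Set.range αU) := by
    rw [hcl]
    exact sub_mem (sub_mem hu (hLt hu0)) (sum_mem hw₁mem)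
  let x' : ∀ m, Y.D m := fun m => Y.z m (y m) - y0 m - ∑ d ∈ F, W d m
  have hxx' : x = mkU uf Y.D x' := by
    have h1 : x' = (fun m => Y.z m (y m)) - y0 - ∑ d ∈ F, W d := by
      funext m
      rw [Pi.sub_apply, Pi.sub_apply, Finset.sum_apply]
    rw [h1, map_sub, map_sub, map_sum, ← hy, ← hy0, hx]
    congr 1
    exact Finset.sum_congr rfl fun d hdF => (hW d hdF).1
  have hpos := cmp τ α Δ αU hα (GU Y (CS.Lt 1 i)) hΔ hg hU v hv w
    ((ev_ge n₀).mono fun m hm => hw m hm) x hxmem x' hxx'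
  have hfin : ∀ᶠ m in (uf : Filter ℕ), (∃ y0' : MonoidAlgebra ℤ (S ⧸ N m), y0 m = Y.z m y0') ∧
      (∀ d ∈ F, d ≤ β → ∃ y' : MonoidAlgebra ℤ (S ⧸ N m), W d m = Y.z m y') ∧
      Y.z m (y m) = y0 m + ∑ d ∈ F with d ≤ β, W d m := by
    filter_upwards [hpos, hmem, hb, ev_ge n₀] with m h1 h2 h3 h4
    refine decM (Y.ore m) (hd' m h4) (y m) h2 β hβ0 h3 (y0 m) (hy0D m) F hF (fun d => W d m)
      (fun d hdF => (hW d hdF).2 m) (w m) (hw m h4) ?_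
    have h5 : w m (Y.θ m (zq (y m)) - y0 m - ∑ d ∈ F, W d m) = v x := h1.2
    rw [h5]
    exact hr
  refine ⟨?_, ?_, ?_⟩
  · rw [hy0]
    exact int_of_ev Y y0 (hfin.mono fun m h => h.1)
  · intro d hdF hdβ
    rw [(hW d hdF).1]
    exact int_of_ev Y (W d) (hfin.mono fun m h => h.2.1 d hdF hdβ)
  · have h1 : mkU uf Y.D (fun m => Y.z m (y m)) =
        mkU uf Y.D (y0 + ∑ d ∈ F with d ≤ β, W d) := by
      refine mkU_eq_iff.2 (hfin.mono fun m h => ?_)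
      rw [Pi.add_apply, Finset.sum_apply]
      exact h.2.2
    rw [hy, h1, map_add, map_sum, ← hy0]
    congr 1
    exact Finset.sum_congr rfl fun d hdF => ((hW d (Finset.mem_filter.1 hdF).1).1).symm

end Pool.Agent.PDG
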