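import Pool.Agent.PDG.Rep
import Pool.Agent.PDG.Gr
import Pool.Agent.PDG.LevM
import Pool.Agent.HFT.TVal

/-!
# Blueprint PDG, module TS (helper41): the family consisting of the ultraproduct

PROOF of `jfU`.  Let `n₀` be as in `exists_dat`.  The subfield in `hcl` is `GU Y (CS.Lt k i)` (same generators), so by
`rep` `c l = mkU (y l)` with `y l m ∈ DB (θ m) ((CS.Lt k i).map mk')`.  `hs` says that for almost all `m`
`∑ l, Y.a m (a l) * y l m = 0`; almost all `m` are `≥ n₀` (`ev_ge`).  For such `m` apply `(gr (Y.ore m) (hd m)).ind` to the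
elements `a l` of `CS.Le k i` (`Y.a m g = al (θ m) mk' g`): all `y l m = 0`.  Hence `c l = 0` for all `l`.
PROOF of `ts_Dl`: the two sets of generators are equal.
PROOF of `closureU`: both inclusions by `Subfield.closure_le` (`CS.Lt_le_Le`).
PROOF of `grU`: `hτ` is `CS.deg_mul`; `norm`: conjugation by `Y.A a`, `a ∈ Le k i`, maps `Y.R c` to itself (`R_A`) and `Y.A b`,
`b ∈ Lt k i`, to `Y.A (a b a⁻¹)` with `a b a⁻¹ ∈ Lt k i` (`CS.Lt_norm`), so it maps `GU Y (Lt k i)` in itself; `ker`: degree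
`0` means in `Lt k i` (`CS.deg_zero_iff`); `ind`: `jfU`.  (Compare the private theorem `grData` in `HFT.TVal`.)
PROOF of `ts_val`: the fields of `(ts ..).val_spec () k i` (`IsVal`), with `closureU` and `ts_Dl`.
-/

set_option autoImplicit false

namespace Pool.Agent.PDG

open Pool.Agent.HFT Pool.Agent.PDF

variable {S : Type} [Group S] {N : ℕ → Subgroup S} [∀ n, (N n).Normal]

theorem jfU (hN : Ser N) (Y : Sys N) (CS : ConradSys S)
    (hc : ∀ i : CS.I, ∃ n, ∀ g ∈ N n, CS.lev g < (i : WithBot CS.I)) (k : S) (i : CS.I)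
    (n : ℕ) (a : Fin n → (⊤ : Subgroup S)) (c : Fin n → Y.U)
    (ha : ∀ l, (a l : S) ∈ CS.Le k i)
    (hinj : Function.Injective (fun l => CS.deg k i (a l : S)))
    (hcl : ∀ l, c l ∈ Subfield.closure
      (Set.range Y.R ∪ {x | ∃ b : (⊤ : Subgroup S), (b : S) ∈ CS.Lt k i ∧ Y.A (b : S) = x}))
    (hs : ∑ l, Y.A (a l : S) * c l = 0) : ∀ l, c l = 0 := by
  obtain ⟨n₀, hd⟩ := exists_dat N hN CS hc k i
  have hGU : ∀ l, c l ∈ GU Y (CS.Lt k i) := by
    intro l
    refine (Subfield.closure_le.2 ?_) (hcl l)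
    rintro x (⟨r, rfl⟩ | ⟨b, hb, rfl⟩)
    · exact R_mem Y _ r
    · exact A_mem Y hb
  choose y hy hyD using fun l => rep Y (CS.Lt k i) (c l) (hGU l)
  have hsum : mkU uf Y.D (∑ l, (fun m => Y.a m (a l : S)) * y l) = mkU uf Y.D 0 := by
    rw [map_zero, ← hs, map_sum]
    refine Finset.sum_congr rfl fun l _ => ?_
    rw [map_mul, Y.A_apply, hy l]
  have hev := mkU_eq_iff.1 hsum
  have hall : ∀ᶠ m in (uf : Filter ℕ), ∀ l, y l m = 0 := by
    filter_upwards [hev, ev_ge n₀] with m hm hm0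
    have hg := gr (Y.ore m) (hd m hm0)
    intro l
    refine hg.ind n (fun l => (⟨(a l : S), ha l⟩ : CS.Le k i)) (fun l => y l m) hinj
      (fun l => hyD l m) ?_ l
    rw [Finset.sum_apply] at hm
    exact hm
  intro l
  rw [hy l, ← map_zero (mkU uf Y.D), mkU_eq_iff]
  exact hall.mono fun m hm => hm l

/-- the family whose only member is the ultraproduct -/
noncomputable def ts (hN : Ser N) (Y : Sys N) (CS : ConradSys S)
    (hc : ∀ i : CS.I, ∃ n, ∀ g ∈ N n, CS.lev g < (i : WithBot CS.I)) :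
    TSet.{0, 0} CS ℚ (⊤ : Subgroup S) Unit where
  D := fun _ => Y.U
  α := fun _ => Y.A.comp (Subgroup.subtype ⊤)
  ρ := fun _ => Y.R
  comm := fun _ c g => R_A Y c (g : S)
  jf := fun _ k i n a c ha hinj hcl hs => jfU hN Y CS hc k i n a c ha hinj hcl hs

theorem ts_Dl (hN : Ser N) (Y : Sys N) (CS : ConradSys S)
    (hc : ∀ i : CS.I, ∃ n, ∀ g ∈ N n, CS.lev g < (i : WithBot CS.I)) (B : Subgroup S) :
    (ts hN Y CS hc).Dl () B = GU Y B := by
  apply le_antisymm
  · refine Subfield.closure_le.2 ?_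
    rintro x (⟨r, rfl⟩ | ⟨b, hb, rfl⟩)
    · exact R_mem Y B r
    · exact A_mem Y hb
  · refine Subfield.closure_le.2 ?_
    rintro x (⟨r, rfl⟩ | ⟨b, hb, rfl⟩)
    · exact Subfield.subset_closure (Or.inl ⟨r, rfl⟩)
    · exact Subfield.subset_closure (Or.inr ⟨⟨b, Subgroup.mem_top b⟩, hb, rfl⟩)

private theorem GU_mono (Y : Sys N) {B B' : Subgroup S} (h : B ≤ B') : GU Y B ≤ GU Y B' := by
  refine Subfield.closure_le.2 ?_
  rintro x (⟨r, rfl⟩ | ⟨b, hb, rfl⟩)
  · exact R_mem Y B' r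
  · exact A_mem Y (h hb)

theorem closureU (Y : Sys N) (CS : ConradSys S) (k : S) (i : CS.I) :
    Subfield.closure (((GU Y (CS.Lt k i) : Subfield Y.U) : Set Y.U) ∪
      Set.range (Y.A.comp (CS.Le k i).subtype)) = GU Y (CS.Le k i) := by
  apply le_antisymm
  · refine Subfield.closure_le.2 (Set.union_subset (GU_mono Y (CS.Lt_le_Le k i)) ?_)
    rintro x ⟨a, rfl⟩
    exact A_mem Y a.2
  · refine Subfield.closure_le.2 ?_
    rintro x (⟨r, rfl⟩ | ⟨b, hb, rfl⟩)
    · exact Subfield.subset_closure (Or.inl (R_mem Y _ r))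
    · exact Subfield.subset_closure (Or.inr ⟨⟨b, hb⟩, rfl⟩)

/-- conjugation by the image of `a` -/
private noncomputable def cjU (Y : Sys N) (a : S) : Y.U →+* Y.U where
  toFun x := Y.A a * x * Y.A a⁻¹
  map_one' := by rw [mul_one, ← map_mul, mul_inv_cancel, map_one]
  map_zero' := by rw [mul_zero, zero_mul]
  map_add' x y := by rw [mul_add, add_mul]
  map_mul' x y := by
    have h : Y.A a⁻¹ * Y.A a = 1 := by rw [← map_mul, inv_mul_cancel, map_one]
    calc Y.A a * (x * y) * Y.A a⁻¹ = Y.A a * x * 1 * y * Y.A a⁻¹ := by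
          simp only [mul_one, mul_assoc]
      _ = Y.A a * x * (Y.A a⁻¹ * Y.A a) * y * Y.A a⁻¹ := by rw [h]
      _ = Y.A a * x * Y.A a⁻¹ * (Y.A a * y * Y.A a⁻¹) := by simp only [mul_assoc]

private theorem cjU_apply (Y : Sys N) (a : S) (x : Y.U) :
    cjU Y a x = Y.A a * x * Y.A a⁻¹ := rfl

theorem grU (hN : Ser N) (Y : Sys N) (CS : ConradSys S)
    (hc : ∀ i : CS.I, ∃ n, ∀ g ∈ N n, CS.lev g < (i : WithBot CS.I)) (k : S) (i : CS.I) :
    GrData (Y.A.comp (CS.Le k i).subtype) (fun a => CS.deg k i (a : S)) (GU Y (CS.Lt k i)) := by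
  constructor
  · intro a b
    exact CS.deg_mul a.2 b.2
  · intro a x hx
    have h : GU Y (CS.Lt k i) ≤ (GU Y (CS.Lt k i)).comap (cjU Y (a : S)) := by
      refine Subfield.closure_le.2 ?_
      rintro y (⟨r, rfl⟩ | ⟨b, hb, rfl⟩)
      · show cjU Y (a : S) (Y.R r) ∈ GU Y (CS.Lt k i)
        rw [cjU_apply, ← R_A, mul_assoc, ← map_mul, mul_inv_cancel, map_one, mul_one]
        exact R_mem Y _ r
      · show cjU Y (a : S) (Y.A b) ∈ GU Y (CS.Lt k i)
        rw [cjU_apply, ← map_mul, ← map_mul]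
        exact A_mem Y (CS.Lt_norm hb a.2)
    exact h hx
  · intro a ha
    exact A_mem Y ((CS.deg_zero_iff a.2).1 ha)
  · intro n a c hinj hcl hs
    refine jfU hN Y CS hc k i n (fun l => ⟨(a l : S), Subgroup.mem_top _⟩) c
      (fun l => (a l).2) hinj (fun l => ?_) hs
    refine (Subfield.closure_le.2 ?_) (hcl l)
    rintro x (⟨r, rfl⟩ | ⟨b, hb, rfl⟩)
    · exact Subfield.subset_closure (Or.inl ⟨r, rfl⟩)
    · exact Subfield.subset_closure (Or.inr ⟨⟨b, Subgroup.mem_top b⟩, hb, rfl⟩)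

theorem grneg {D : Type} [DivisionRing D] {M : Type} [Group M] {α : M →* D} {τ : M → ℝ}
    {Δ : Subfield D} (h : GrData α τ Δ) : GrData α (fun a => -τ a) Δ := by
  refine ⟨fun a b => ?_, h.norm, fun a ha => h.ker a (neg_eq_zero.1 ha), fun n a c hinj => ?_⟩
  · rw [h.hτ]
    ring
  · refine h.ind n a c fun l l' hl => hinj ?_
    show -τ (a l) = -τ (a l')
    rw [show τ (a l) = τ (a l') from hl]

theorem ts_val (hN : Ser N) (Y : Sys N) (CS : ConradSys S)
    (hc : ∀ i : CS.I, ∃ n, ∀ g ∈ N n, CS.lev g < (i : WithBot CS.I)) (k : S) (i : CS.I) :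
    IsVgen (Y.A.comp (CS.Le k i).subtype) (fun a => CS.deg k i (a : S)) (GU Y (CS.Lt k i))
      ((ts hN Y CS hc).val () k i) := by
  have h := (ts hN Y CS hc).val_spec () k i
  have h1 := h.top
  have h2 := h.mul
  have h3 := h.add
  have h4 := h.const
  rw [ts_Dl hN Y CS hc] at h1 h2 h3 h4
  constructor
  · rw [closureU]
    exact h1
  · rw [closureU]
    exact h2
  · rw [closureU]
    exact h3
  · exact h4
  · intro a
    exact h.deg ⟨(a : S), Subgroup.mem_top _⟩ a.2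

end Pool.Agent.PDG
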